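import Mathlib

set_option autoImplicit false

/-! Project OE, piece A: the angular inequality with weight `|a| ^ s`. -/

namespace Pool.Agent.H21.OE

open MeasureTheory Set Real
open scoped ENNReal RealInnerProductSpace

theorem hasDerivAt_abs_pow_mul_self (s : ℕ) (t : ℝ) :
    HasDerivAt (fun t : ℝ => |t| ^ s * t) (((s : ℝ) + 1) * |t| ^ s) t := by
  rcases Nat.eq_zero_or_pos s with h0 | h0
  · subst h0
    simp only [pow_zero, one_mul, Nat.cast_zero, zero_add]
    exact hasDerivAt_id t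
  rcases lt_trichotomy t 0 with h | h | h
  · have h1 : HasDerivAt (fun t : ℝ => (-t) ^ s * t) (((s : ℝ) + 1) * |t| ^ s) t := by
      have h2 := ((hasDerivAt_id t).neg.fun_pow s).mul (hasDerivAt_id t)
      refine h2.congr_deriv ?_
      rw [abs_of_neg h]
      obtain ⟨r, rfl⟩ : ∃ r, s = r + 1 := ⟨s - 1, by omega⟩
      simp only [id, Nat.add_sub_cancel]
      push_cast
      simp only [Pi.neg_apply, id]
      ring
    refine h1.congr_of_eventuallyEq ?_
    filter_upwards [Iio_mem_nhds h] with x hx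
    rw [abs_of_neg (show x < 0 from hx)]
  · subst h
    rw [hasDerivAt_iff_tendsto_slope]
    have h1 : Filter.Tendsto (fun t : ℝ => |t| ^ s) (nhdsWithin 0 {0}ᶜ)
        (nhds (((s : ℝ) + 1) * |(0 : ℝ)| ^ s)) := by
      have h2 : Filter.Tendsto (fun t : ℝ => |t| ^ s) (nhds 0) (nhds (|(0 : ℝ)| ^ s)) :=
        (continuous_abs.pow s).tendsto 0
      rw [abs_zero, zero_pow (by omega)] at h2 ⊢
      rw [mul_zero]
      exact h2.mono_left nhdsWithin_le_nhds
    refine h1.congr' ?_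
    filter_upwards [self_mem_nhdsWithin] with x hx
    have hx0 : x ≠ 0 := hx
    rw [slope_def_field]
    simp only [abs_zero, mul_zero, sub_zero]
    field_simp
  · have h1 : HasDerivAt (fun t : ℝ => t ^ s * t) (((s : ℝ) + 1) * |t| ^ s) t := by
      have h2 := ((hasDerivAt_id t).fun_pow s).mul (hasDerivAt_id t)
      refine h2.congr_deriv ?_
      rw [abs_of_pos h]
      obtain ⟨r, rfl⟩ : ∃ r, s = r + 1 := ⟨s - 1, by omega⟩
      simp only [id, Nat.add_sub_cancel]
      push_cast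
      ring
    refine h1.congr_of_eventuallyEq ?_
    filter_upwards [Ioi_mem_nhds h] with x hx
    rw [abs_of_pos (show 0 < x from hx)]

/-- The angular inequality with weight `|a| ^ s`. -/
theorem angular_s (N s : ℕ) (hN : 2 ≤ N) (ξ η : ℝ) :
    0 ≤ ∫ θ in (-(π / 2))..(π / 2), cos θ ^ N * |ξ * cos θ + η * sin θ| ^ s
      * (((N : ℝ) + s + 1) * (ξ ^ 2 + η ^ 2) -
        ((N : ℝ) + s + 2) * (ξ * cos θ + η * sin θ) ^ 2) := by
  obtain ⟨M, rfl⟩ : ∃ M, N = M + 2 := ⟨N - 2, by omega⟩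
  set c : ℝ := ((M : ℝ) + 2) / ((M : ℝ) + 2 + s) with hc
  set a : ℝ → ℝ := fun θ => ξ * cos θ + η * sin θ with ha
  set b : ℝ → ℝ := fun θ => -ξ * sin θ + η * cos θ with hb
  have hM : (0 : ℝ) ≤ (M : ℝ) := Nat.cast_nonneg M
  have hda : ∀ θ, HasDerivAt a (b θ) θ := by
    intro θ
    have h := ((hasDerivAt_cos θ).const_mul ξ).add ((hasDerivAt_sin θ).const_mul η)
    have e : ξ * -sin θ + η * cos θ = b θ := by simp only [hb]; ring
    rw [e] at h
    exact h
  have hdb : ∀ θ, HasDerivAt b (-a θ) θ := by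
    intro θ
    have h := ((hasDerivAt_sin θ).const_mul (-ξ)).add ((hasDerivAt_cos θ).const_mul η)
    have e : -ξ * cos θ + η * -sin θ = -a θ := by simp only [ha]; ring
    rw [e] at h
    exact h
  have hdg : ∀ θ, HasDerivAt (fun θ => |a θ| ^ s * a θ) (((s : ℝ) + 1) * |a θ| ^ s * b θ) θ := by
    intro θ
    exact (hasDerivAt_abs_pow_mul_self s (a θ)).comp θ (hda θ)
  have hdc : ∀ (K : ℕ) θ, HasDerivAt (fun θ => cos θ ^ (K + 1))
      (((K : ℝ) + 1) * cos θ ^ K * -sin θ) θ := by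
    intro K θ
    have h := (hasDerivAt_cos θ).fun_pow (K + 1)
    have e : ((K + 1 : ℕ) : ℝ) * cos θ ^ (K + 1 - 1) * -sin θ = ((K : ℝ) + 1) * cos θ ^ K * -sin θ := by
      rw [Nat.add_sub_cancel]; push_cast; ring
    rw [e] at h
    exact h
  set H : ℝ → ℝ := fun θ => cos θ ^ (M + 2) * (|a θ| ^ s * a θ) * b θ +
    c * η * (cos θ ^ (M + 1) * (|a θ| ^ s * a θ)) with hH
  set F : ℝ → ℝ := fun θ => cos θ ^ (M + 2) * |a θ| ^ s
      * (((M : ℝ) + 2 + s + 1) * (ξ ^ 2 + η ^ 2) - ((M : ℝ) + 2 + s + 2) * (a θ) ^ 2) with hF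
  set R : ℝ → ℝ := fun θ => c * ((M : ℝ) + 1) * η ^ 2 * (cos θ ^ M * |a θ| ^ s) with hR
  have hca : Continuous a := by simp only [ha]; fun_prop
  have hcR : Continuous R := by simp only [hR]; fun_prop
  have hcF : Continuous F := by simp only [hF]; fun_prop
  have hder : ∀ θ, HasDerivAt H (F θ - R θ) θ := by
    intro θ
    have h1 := ((hdc (M + 1) θ).mul (hdg θ)).mul (hdb θ)
    have h2 := ((hdc M θ).mul (hdg θ)).const_mul (c * η)
    have h3 := h1.add h2
    refine h3.congr_deriv ?_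
    have hη : η = cos θ * b θ + sin θ * a θ := by
      simp only [ha, hb]
      have : η = η * (sin θ ^ 2 + cos θ ^ 2) := by rw [sin_sq_add_cos_sq, mul_one]
      calc η = η * (sin θ ^ 2 + cos θ ^ 2) := this
        _ = _ := by ring
    have hξη : ξ ^ 2 + η ^ 2 = a θ ^ 2 + b θ ^ 2 := by
      simp only [ha, hb]
      have : ξ ^ 2 + η ^ 2 = (ξ ^ 2 + η ^ 2) * (sin θ ^ 2 + cos θ ^ 2) := by
        rw [sin_sq_add_cos_sq, mul_one]
      calc ξ ^ 2 + η ^ 2 = (ξ ^ 2 + η ^ 2) * (sin θ ^ 2 + cos θ ^ 2) := this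
        _ = _ := by ring
    have hc' : c * ((M : ℝ) + 2 + s) = (M : ℝ) + 2 := by
      have : ((M : ℝ) + 2 + s) ≠ 0 := by positivity
      rw [hc]; field_simp
    simp only [hF, hR, hξη, Pi.mul_apply]
    push_cast
    generalize |a θ| ^ s = A
    generalize a θ = x at *
    generalize b θ = y at *
    generalize cos θ = C at *
    generalize sin θ = S at *
    rw [hη]
    linear_combination (A * C ^ M * (y ^ 2 * C ^ 2 + x * y * C * S)) * hc'
  have hint : ∫ θ in (-(π / 2))..(π / 2), (F θ - R θ) = H (π / 2) - H (-(π / 2)) :=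
    intervalIntegral.integral_eq_sub_of_hasDerivAt (fun θ _ => hder θ)
      ((hcF.sub hcR).intervalIntegrable _ _)
  have hH1 : H (π / 2) = 0 := by
    simp only [hH, cos_pi_div_two]
    simp
  have hH2 : H (-(π / 2)) = 0 := by
    simp only [hH, cos_neg, cos_pi_div_two]
    simp
  have hRi : 0 ≤ ∫ θ in (-(π / 2))..(π / 2), R θ := by
    refine intervalIntegral.integral_nonneg (by linarith [pi_pos]) fun θ hθ => ?_
    have h1 : 0 ≤ cos θ := cos_nonneg_of_mem_Icc hθ
    simp only [hR]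
    have hc0 : 0 ≤ c := by rw [hc]; positivity
    positivity
  rw [intervalIntegral.integral_sub (hcF.intervalIntegrable _ _) (hcR.intervalIntegrable _ _),
    hH1, hH2] at hint
  have hfin : ∫ θ in (-(π / 2))..(π / 2), F θ = ∫ θ in (-(π / 2))..(π / 2), R θ := by linarith
  have hgoal : (∫ θ in (-(π / 2))..(π / 2), cos θ ^ (M + 2) * |ξ * cos θ + η * sin θ| ^ s
      * ((((M + 2 : ℕ) : ℝ) + s + 1) * (ξ ^ 2 + η ^ 2) - (((M + 2 : ℕ) : ℝ) + s + 2) *
        (ξ * cos θ + η * sin θ) ^ 2)) = ∫ θ in (-(π / 2))..(π / 2), F θ := by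
    refine intervalIntegral.integral_congr fun θ _ => ?_
    simp only [hF, ha]
    push_cast
    ring
  rw [hgoal, hfin]
  exact hRi

end Pool.Agent.H21.OE
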