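import Mathlib

set_option autoImplicit false
set_option linter.unusedSectionVars false

/-! Project OE, piece D: rotation invariance in the product `U × U`, with a power of `⟪x, z⟫`. -/

namespace Pool.Agent.H21.OE

open MeasureTheory Set Real
open scoped ENNReal RealInnerProductSpace

section W

variable {W : Type*} [NormedAddCommGroup W] [InnerProductSpace ℝ W] [FiniteDimensional ℝ W]
  [MeasurableSpace W] [BorelSpace W]

/-- the rotation of `W × W` by the angle with cosine `c` and sine `s`, as a linear isometry -/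
private noncomputable def rotL (c s : ℝ) (h : c ^ 2 + s ^ 2 = 1) :
    WithLp 2 (W × W) ≃ₗᵢ[ℝ] WithLp 2 (W × W) where
  toFun p := WithLp.toLp 2 (c • p.fst - s • p.snd, s • p.fst + c • p.snd)
  invFun p := WithLp.toLp 2 (c • p.fst + s • p.snd, -(s • p.fst) + c • p.snd)
  map_add' p q := by
    refine (WithLp.ofLp_injective 2) (Prod.ext ?_ ?_)
    · simp; module
    · simp; module
  map_smul' a p := by
    refine (WithLp.ofLp_injective 2) (Prod.ext ?_ ?_)
    · simp; module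
    · simp; module
  left_inv p := by
    refine (WithLp.ofLp_injective 2) (Prod.ext ?_ ?_)
    · have : (c ^ 2 + s ^ 2) • p.fst = p.fst := by rw [h, one_smul]
      refine Eq.trans ?_ this
      simp only [WithLp.toLp_fst, WithLp.toLp_snd]
      module
    · have : (c ^ 2 + s ^ 2) • p.snd = p.snd := by rw [h, one_smul]
      refine Eq.trans ?_ this
      simp only [WithLp.toLp_fst, WithLp.toLp_snd]
      module
  right_inv p := by
    refine (WithLp.ofLp_injective 2) (Prod.ext ?_ ?_)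
    · have : (c ^ 2 + s ^ 2) • p.fst = p.fst := by rw [h, one_smul]
      refine Eq.trans ?_ this
      simp only [WithLp.toLp_fst, WithLp.toLp_snd]
      module
    · have : (c ^ 2 + s ^ 2) • p.snd = p.snd := by rw [h, one_smul]
      refine Eq.trans ?_ this
      simp only [WithLp.toLp_fst, WithLp.toLp_snd]
      module
  norm_map' p := by
    rw [← sq_eq_sq₀ (norm_nonneg _) (norm_nonneg _), WithLp.prod_norm_sq_eq_of_L2,
      WithLp.prod_norm_sq_eq_of_L2]
    simp only [LinearEquiv.coe_mk, LinearMap.coe_mk, AddHom.coe_mk, WithLp.toLp_fst,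
      WithLp.toLp_snd]
    rw [norm_sub_sq_real, norm_add_sq_real]
    simp only [norm_smul, inner_smul_left, inner_smul_right, mul_pow, Real.norm_eq_abs, sq_abs,
      conj_trivial]
    linear_combination (‖p.fst‖ ^ 2 + ‖p.snd‖ ^ 2) * h

private theorem rot_mp (c s : ℝ) (h : c ^ 2 + s ^ 2 = 1) :
    MeasurePreserving (fun p : W × W => (c • p.1 - s • p.2, s • p.1 + c • p.2))
      (volume.prod volume) (volume.prod volume) :=
  ((WithLp.volume_preserving_ofLp W W).comp (rotL (W := W) c s h).measurePreserving).comp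
    (WithLp.volume_preserving_toLp W W)

variable {U : Type*} [NormedAddCommGroup U] [InnerProductSpace ℝ U] [FiniteDimensional ℝ U]
  [MeasurableSpace U] [BorelSpace U]

/-- integration over `U` by slices -/
private theorem slice (z : U) (j : W →L[ℝ] U)
    (hj : MeasurePreserving (fun p : ℝ × W => p.1 • z + j p.2)
      ((volume : Measure ℝ).prod (volume : Measure W)) volume)
    (f : U → ℝ≥0∞) (hf : Measurable f) :
    ∫⁻ x, f x = ∫⁻ s : ℝ, ∫⁻ w : W, f (s • z + j w) := by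
  rw [← hj.lintegral_comp hf, lintegral_prod _ (by fun_prop)]

/-- the integral over the fibre -/
private noncomputable def G (z : U) (j : W →L[ℝ] U) (K : U → U → ℝ≥0∞) (r : ℝ) : ℝ≥0∞ :=
  ∫⁻ p : W × W, K (r • z + j p.1) (j p.2) ∂(volume.prod volume)

private theorem G_meas (z : U) (j : W →L[ℝ] U) (K : U → U → ℝ≥0∞)
    (hK : Measurable (Function.uncurry K)) : Measurable (G z j K) := by
  unfold G
  refine Measurable.lintegral_prod_right' (f := fun q : ℝ × (W × W) =>
    K (q.1 • z + j q.2.1) (j q.2.2)) ?_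
  exact hK.comp (by fun_prop : Measurable fun q : ℝ × (W × W) =>
    (q.1 • z + j q.2.1, j q.2.2))

private theorem G_rot (z : U) (j : W →L[ℝ] U) (K : U → U → ℝ≥0∞)
    (hK : Measurable (Function.uncurry K))
    (i : ∀ (a : ℝ) (x y : U), K (cos a • x + sin a • y) (-(sin a) • x + cos a • y) = K x y)
    (r θ : ℝ) :
    ∫⁻ p : W × W, K ((r * cos θ) • z + j p.1) ((r * sin θ) • z + j p.2) ∂(volume.prod volume)
      = G z j K r := by
  have h := rot_mp (W := W) (cos θ) (sin θ) (cos_sq_add_sin_sq θ)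
  have hm : Measurable fun p : W × W =>
      K ((r * cos θ) • z + j p.1) ((r * sin θ) • z + j p.2) :=
    hK.comp (by fun_prop : Measurable fun p : W × W =>
      ((r * cos θ) • z + j p.1, (r * sin θ) • z + j p.2))
  rw [← h.lintegral_comp hm]
  unfold G
  refine lintegral_congr fun p => ?_
  refine Eq.trans ?_ (i (-θ) (r • z + j p.1) (j p.2))
  simp only [cos_neg, sin_neg, map_sub, map_add, map_smul]
  congr 1 <;> module

private theorem G_neg (z : U) (j : W →L[ℝ] U) (K : U → U → ℝ≥0∞)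
    (hK : Measurable (Function.uncurry K))
    (i : ∀ (a : ℝ) (x y : U), K (cos a • x + sin a • y) (-(sin a) • x + cos a • y) = K x y)
    (r : ℝ) : G z j K (-r) = G z j K r := by
  have h := G_rot z j K hK i r π
  simp only [cos_pi, sin_pi, mul_neg, mul_one, mul_zero, zero_smul, zero_add] at h
  exact h

private theorem G_abs (z : U) (j : W →L[ℝ] U) (m : ℕ) (K : U → U → ℝ≥0∞)
    (hK : Measurable (Function.uncurry K))
    (i : ∀ (a : ℝ) (x y : U), K (cos a • x + sin a • y) (-(sin a) • x + cos a • y) = K x y) :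
    ∫⁻ r : ℝ, ENNReal.ofReal (|r| ^ m) * G z j K r
      = 2 * ∫⁻ r in Ioi (0 : ℝ), ENNReal.ofReal (r ^ m) * G z j K r := by
  have h1 : ∫⁻ r : ℝ, ENNReal.ofReal (|r| ^ m) * G z j K r
      = (∫⁻ r in Iic (0 : ℝ), ENNReal.ofReal (|r| ^ m) * G z j K r)
        + ∫⁻ r in Ioi (0 : ℝ), ENNReal.ofReal (|r| ^ m) * G z j K r := by
    rw [← setLIntegral_univ, ← Iic_union_Ioi (a := (0 : ℝ)),
      lintegral_union measurableSet_Ioi (Iic_disjoint_Ioi le_rfl)]
  have h2 : ∫⁻ r in Ioi (0 : ℝ), ENNReal.ofReal (|r| ^ m) * G z j K r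
      = ∫⁻ r in Ioi (0 : ℝ), ENNReal.ofReal (r ^ m) * G z j K r := by
    refine setLIntegral_congr_fun measurableSet_Ioi fun r hr => ?_
    rw [abs_of_pos hr]
  have h3 : ∫⁻ r in Iic (0 : ℝ), ENNReal.ofReal (|r| ^ m) * G z j K r
      = ∫⁻ r in Ioi (0 : ℝ), ENNReal.ofReal (r ^ m) * G z j K r := by
    have h4 : ∫⁻ r in Iic (0 : ℝ), ENNReal.ofReal (|r| ^ m) * G z j K r
        = ∫⁻ r in Iio (0 : ℝ), ENNReal.ofReal (|r| ^ m) * G z j K r :=
      setLIntegral_congr Iio_ae_eq_Iic.symm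
    have h5 : Iio (0 : ℝ) = (fun x : ℝ => -x) ⁻¹' Ioi (0 : ℝ) := by
      ext x; simp
    rw [h4, h5]
    have h6 := (Measure.measurePreserving_neg (volume : Measure ℝ)).setLIntegral_comp_preimage
      (s := Ioi (0 : ℝ)) measurableSet_Ioi (f := fun r => ENNReal.ofReal (r ^ m) * G z j K r)
      (by have := G_meas z j K hK; fun_prop)
    rw [← h6]
    refine setLIntegral_congr_fun ((measurableSet_Ioi).preimage measurable_neg) fun r hr => ?_
    have hr' : r < 0 := by simpa using hr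
    rw [abs_of_neg hr', G_neg z j K hK i r]
  rw [h1, h2, h3, two_mul]

/-- integration over the planes -/
private theorem exch (z : U) (j : W →L[ℝ] U)
    (hj : MeasurePreserving (fun p : ℝ × W => p.1 • z + j p.2)
      ((volume : Measure ℝ).prod (volume : Measure W)) volume)
    (K : U → U → ℝ≥0∞) (hK : Measurable (Function.uncurry K)) :
    ∫⁻ x : U, ∫⁻ y : U, K x y
      = ∫⁻ p : ℝ × ℝ, ∫⁻ q : W × W, K (p.1 • z + j q.1) (p.2 • z + j q.2)
          ∂(volume.prod volume) := by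
  have e1 : ∫⁻ x : U, ∫⁻ y : U, K x y
      = ∫⁻ q : U × U, K q.1 q.2 ∂(volume.prod volume) := by
    rw [lintegral_prod _ (by exact hK.aemeasurable)]
  have hm4 : Measurable fun q : (ℝ × W) × (ℝ × W) =>
      K (q.1.1 • z + j q.1.2) (q.2.1 • z + j q.2.2) :=
    hK.comp (by fun_prop : Measurable fun q : (ℝ × W) × (ℝ × W) =>
      (q.1.1 • z + j q.1.2, q.2.1 • z + j q.2.2))
  have e2 : ∫⁻ q : U × U, K q.1 q.2 ∂(volume.prod volume)
      = ∫⁻ q : (ℝ × W) × (ℝ × W), K (q.1.1 • z + j q.1.2) (q.2.1 • z + j q.2.2)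
        ∂((volume.prod volume).prod (volume.prod volume)) :=
    ((hj.prod hj).lintegral_comp (f := fun q : U × U => K q.1 q.2) hK).symm
  -- exchange the factors
  have hm5 : Measurable fun q : (ℝ × ℝ) × (W × W) =>
      K (q.1.1 • z + j q.2.1) (q.1.2 • z + j q.2.2) :=
    hK.comp (by fun_prop : Measurable fun q : (ℝ × ℝ) × (W × W) =>
      (q.1.1 • z + j q.2.1, q.1.2 • z + j q.2.2))
  have e3 : ∫⁻ q : (ℝ × W) × (ℝ × W), K (q.1.1 • z + j q.1.2) (q.2.1 • z + j q.2.2)
        ∂((volume.prod volume).prod (volume.prod volume))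
      = ∫⁻ q : (ℝ × ℝ) × (W × W), K (q.1.1 • z + j q.2.1) (q.1.2 • z + j q.2.2)
        ∂((volume.prod volume).prod (volume.prod volume)) := by
    rw [lintegral_prod _ hm4.aemeasurable, lintegral_prod _ hm5.aemeasurable]
    have a1 : ∀ p : ℝ × W, ∫⁻ q : ℝ × W, K (p.1 • z + j p.2) (q.1 • z + j q.2)
          ∂(volume.prod volume)
        = ∫⁻ t : ℝ, ∫⁻ v : W, K (p.1 • z + j p.2) (t • z + j v) := fun p =>
      lintegral_prod _ (hm4.comp (measurable_prodMk_left (x := p))).aemeasurable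
    have a2 : ∀ p : ℝ × ℝ, ∫⁻ q : W × W, K (p.1 • z + j q.1) (p.2 • z + j q.2)
          ∂(volume.prod volume)
        = ∫⁻ u : W, ∫⁻ v : W, K (p.1 • z + j u) (p.2 • z + j v) := fun p =>
      lintegral_prod _ (hm5.comp (measurable_prodMk_left (x := p))).aemeasurable
    simp only [a1, a2]
    have hm6 : Measurable fun q : (ℝ × W) × ℝ × W =>
      K (q.1.1 • z + j q.1.2) (q.2.1 • z + j q.2.2) := hm4
    rw [lintegral_prod _ (by
      refine Measurable.aemeasurable ?_
      refine Measurable.lintegral_prod_right' (f := fun q : (ℝ × W) × ℝ =>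
        ∫⁻ v : W, K (q.1.1 • z + j q.1.2) (q.2 • z + j v)) ?_
      refine Measurable.lintegral_prod_right' (f := fun q : ((ℝ × W) × ℝ) × W =>
        K (q.1.1.1 • z + j q.1.1.2) (q.1.2 • z + j q.2)) ?_
      exact hK.comp (by fun_prop : Measurable fun q : ((ℝ × W) × ℝ) × W =>
        (q.1.1.1 • z + j q.1.1.2, q.1.2 • z + j q.2)))]
    rw [lintegral_prod _ (by
      refine Measurable.aemeasurable ?_
      refine Measurable.lintegral_prod_right' (f := fun q : (ℝ × ℝ) × W =>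
        ∫⁻ v : W, K (q.1.1 • z + j q.2) (q.1.2 • z + j v)) ?_
      refine Measurable.lintegral_prod_right' (f := fun q : ((ℝ × ℝ) × W) × W =>
        K (q.1.1.1 • z + j q.1.2) (q.1.1.2 • z + j q.2)) ?_
      exact hK.comp (by fun_prop : Measurable fun q : ((ℝ × ℝ) × W) × W =>
        (q.1.1.1 • z + j q.1.2, q.1.1.2 • z + j q.2)))]
    refine lintegral_congr fun s => ?_
    simp only
    rw [lintegral_lintegral_swap]
    refine Measurable.aemeasurable ?_
    refine Measurable.lintegral_prod_right' (f := fun q : (W × ℝ) × W =>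
        K (s • z + j q.1.1) (q.1.2 • z + j q.2)) ?_
    exact hK.comp (by fun_prop : Measurable fun q : (W × ℝ) × W =>
        (s • z + j q.1.1, q.1.2 • z + j q.2))
  have e4 : ∫⁻ q : (ℝ × ℝ) × (W × W), K (q.1.1 • z + j q.2.1) (q.1.2 • z + j q.2.2)
        ∂((volume.prod volume).prod (volume.prod volume))
      = ∫⁻ p : ℝ × ℝ, ∫⁻ q : W × W, K (p.1 • z + j q.1) (p.2 • z + j q.2)
          ∂(volume.prod volume) := by
    rw [lintegral_prod _ hm5.aemeasurable]
    rfl
  rw [e1, e2, e3, e4]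

/-- the left side -/
private theorem lhs (z : U) (hz : ‖z‖ = 1) (j : W →L[ℝ] U) (hjz : ∀ w, ⟪j w, z⟫ = 0)
    (hj : MeasurePreserving (fun p : ℝ × W => p.1 • z + j p.2)
      ((volume : Measure ℝ).prod (volume : Measure W)) volume) (m : ℕ)
    (K : U → U → ℝ≥0∞) (hK : Measurable (Function.uncurry K))
    (i : ∀ (a : ℝ) (x y : U), K (cos a • x + sin a • y) (-(sin a) • x + cos a • y) = K x y) :
    ∫⁻ x : U, ∫⁻ y : U, ENNReal.ofReal (|⟪x, z⟫| ^ m) * K x y
      = (∫⁻ θ in Ioo (-π) π, ENNReal.ofReal (|cos θ| ^ m))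
        * ∫⁻ r in Ioi (0 : ℝ), ENNReal.ofReal (r ^ (m + 1)) * G z j K r := by
  have hin : ∀ (s : ℝ) (u : W), ⟪s • z + j u, z⟫ = s := fun s u => by
    rw [inner_add_left, inner_smul_left, hjz, real_inner_self_eq_norm_sq, hz]
    simp
  rw [exch z j hj (fun x y => ENNReal.ofReal (|⟪x, z⟫| ^ m) * K x y)
    (Measurable.mul (by fun_prop) hK)]
  have e0 : ∀ p : ℝ × ℝ, ∫⁻ q : W × W, ENNReal.ofReal (|⟪p.1 • z + j q.1, z⟫| ^ m)
        * K (p.1 • z + j q.1) (p.2 • z + j q.2) ∂(volume.prod volume)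
      = ENNReal.ofReal (|p.1| ^ m) * ∫⁻ q : W × W,
        K (p.1 • z + j q.1) (p.2 • z + j q.2) ∂(volume.prod volume) := fun p => by
    simp only [hin]
    rw [lintegral_const_mul]
    exact hK.comp (by fun_prop : Measurable fun q : W × W =>
      (p.1 • z + j q.1, p.2 • z + j q.2))
  simp only [e0]
  rw [← lintegral_comp_polarCoord_symm]
  simp only [polarCoord_symm_apply, smul_eq_mul]
  simp only [G_rot z j K hK i]
  have hG := G_meas z j K hK
  have e5 : ∫⁻ p : ℝ × ℝ in polarCoord.target, ENNReal.ofReal p.1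
        * (ENNReal.ofReal (|p.1 * cos p.2| ^ m) * G z j K p.1)
      = ∫⁻ p : ℝ × ℝ in polarCoord.target, ENNReal.ofReal (|cos p.2| ^ m)
        * (ENNReal.ofReal (p.1 ^ (m + 1)) * G z j K p.1) := by
    refine setLIntegral_congr_fun polarCoord.open_target.measurableSet fun p hp => ?_
    have hp1 : 0 < p.1 := hp.1
    rw [abs_mul, abs_of_pos hp1, mul_pow, ENNReal.ofReal_mul (by positivity), pow_succ,
      ENNReal.ofReal_mul (by positivity)]
    ring
  have e6 : ∫⁻ p : ℝ × ℝ in polarCoord.target, ENNReal.ofReal (|cos p.2| ^ m)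
        * (ENNReal.ofReal (p.1 ^ (m + 1)) * G z j K p.1)
      = ∫⁻ p : ℝ × ℝ, ENNReal.ofReal (|cos p.2| ^ m)
        * (ENNReal.ofReal (p.1 ^ (m + 1)) * G z j K p.1)
        ∂((volume.restrict (Ioi (0 : ℝ))).prod (volume.restrict (Ioo (-π) π))) := by
    rw [Measure.prod_restrict]
    rfl
  rw [e5, e6, lintegral_prod _ (by fun_prop)]
  have e7 : ∀ r : ℝ, ∫⁻ θ in Ioo (-π) π, ENNReal.ofReal (|cos θ| ^ m)
        * (ENNReal.ofReal (r ^ (m + 1)) * G z j K r)
      = (∫⁻ θ in Ioo (-π) π, ENNReal.ofReal (|cos θ| ^ m))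
        * (ENNReal.ofReal (r ^ (m + 1)) * G z j K r) := fun r => by
    rw [lintegral_mul_const _ (by fun_prop)]
  simp only [e7]
  rw [lintegral_const_mul _ (by fun_prop)]

/-- the right side -/
private theorem rhs (z : U) (hz : ‖z‖ = 1) (j : W →L[ℝ] U) (hjz : ∀ w, ⟪j w, z⟫ = 0)
    (hj : MeasurePreserving (fun p : ℝ × W => p.1 • z + j p.2)
      ((volume : Measure ℝ).prod (volume : Measure W)) volume) (m : ℕ)
    (K : U → U → ℝ≥0∞) (hK : Measurable (Function.uncurry K)) :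
    ∫⁻ v : W, ∫⁻ x : U, ENNReal.ofReal (|⟪x, z⟫| ^ m) * K x (j v)
      = ∫⁻ r : ℝ, ENNReal.ofReal (|r| ^ m) * G z j K r := by
  have hm : ∀ v : W, Measurable fun x : U => ENNReal.ofReal (|⟪x, z⟫| ^ m) * K x (j v) :=
    fun v => by
      refine Measurable.mul (by fun_prop) ?_
      exact hK.comp (by fun_prop : Measurable fun x : U => (x, j v))
  have a1 : ∀ v : W, ∫⁻ x : U, ENNReal.ofReal (|⟪x, z⟫| ^ m) * K x (j v)
      = ∫⁻ s : ℝ, ENNReal.ofReal (|s| ^ m) * ∫⁻ u : W, K (s • z + j u) (j v) := fun v => by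
    rw [slice z j hj _ (hm v)]
    refine lintegral_congr fun s => ?_
    have : ∀ u : W, ⟪s • z + j u, z⟫ = s := fun u => by
      rw [inner_add_left, inner_smul_left, hjz, real_inner_self_eq_norm_sq, hz]
      simp
    simp only [this]
    rw [lintegral_const_mul]
    exact hK.comp (by fun_prop : Measurable fun u : W => (s • z + j u, j v))
  simp only [a1]
  rw [lintegral_lintegral_swap]
  · refine lintegral_congr fun s => ?_
    rw [lintegral_const_mul]
    · congr 1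
      unfold G
      rw [lintegral_prod_symm]
      exact (hK.comp (by fun_prop : Measurable fun q : W × W =>
        (s • z + j q.1, j q.2))).aemeasurable
    · refine Measurable.lintegral_prod_right' (f := fun q : W × W =>
        K (s • z + j q.2) (j q.1)) ?_
      exact hK.comp (by fun_prop : Measurable fun q : W × W => (s • z + j q.2, j q.1))
  · refine Measurable.aemeasurable ?_
    refine Measurable.mul (by fun_prop) ?_
    refine Measurable.lintegral_prod_right' (f := fun q : (W × ℝ) × W =>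
        K (q.1.2 • z + j q.2) (j q.1.1)) ?_
    exact hK.comp (by fun_prop : Measurable fun q : (W × ℝ) × W =>
      (q.1.2 • z + j q.2, j q.1.1))

private theorem rot' (z : U) (hz : ‖z‖ = 1) (j : W →L[ℝ] U) (hjz : ∀ w, ⟪j w, z⟫ = 0)
    (hj : MeasurePreserving (fun p : ℝ × W => p.1 • z + j p.2)
      ((volume : Measure ℝ).prod (volume : Measure W)) volume) (s : ℕ)
    (K₁ K₂ : U → U → ℝ≥0∞)
    (h₁ : Measurable (Function.uncurry K₁)) (h₂ : Measurable (Function.uncurry K₂))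
    (i₁ : ∀ (a : ℝ) (x y : U), K₁ (cos a • x + sin a • y) (-(sin a) • x + cos a • y) = K₁ x y)
    (i₂ : ∀ (a : ℝ) (x y : U), K₂ (cos a • x + sin a • y) (-(sin a) • x + cos a • y) = K₂ x y)
    (H : ∀ y : U, ⟪y, z⟫ = 0 → ∫⁻ x : U, ENNReal.ofReal (|⟪x, z⟫| ^ (s + 1)) * K₁ x y
      ≤ ∫⁻ x : U, ENNReal.ofReal (|⟪x, z⟫| ^ (s + 1)) * K₂ x y) :
    ∫⁻ x : U, ∫⁻ y : U, ENNReal.ofReal (|⟪x, z⟫| ^ s) * K₁ x y
      ≤ ∫⁻ x : U, ∫⁻ y : U, ENNReal.ofReal (|⟪x, z⟫| ^ s) * K₂ x y := by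
  have key : 2 * ∫⁻ r in Ioi (0 : ℝ), ENNReal.ofReal (r ^ (s + 1)) * G z j K₁ r
      ≤ 2 * ∫⁻ r in Ioi (0 : ℝ), ENNReal.ofReal (r ^ (s + 1)) * G z j K₂ r := by
    rw [← G_abs z j (s + 1) K₁ h₁ i₁, ← G_abs z j (s + 1) K₂ h₂ i₂,
      ← rhs z hz j hjz hj (s + 1) K₁ h₁, ← rhs z hz j hjz hj (s + 1) K₂ h₂]
    exact lintegral_mono fun v => H _ (hjz v)
  have key' : ∫⁻ r in Ioi (0 : ℝ), ENNReal.ofReal (r ^ (s + 1)) * G z j K₁ r
      ≤ ∫⁻ r in Ioi (0 : ℝ), ENNReal.ofReal (r ^ (s + 1)) * G z j K₂ r :=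
    (ENNReal.mul_le_mul_iff_right (by norm_num) (by norm_num)).mp key
  rw [lhs z hz j hjz hj s K₁ h₁ i₁, lhs z hz j hjz hj s K₂ h₂ i₂]
  gcongr

end W

section D

variable {U : Type*} [NormedAddCommGroup U] [InnerProductSpace ℝ U] [FiniteDimensional ℝ U]
  [MeasurableSpace U] [BorelSpace U]

private theorem dec (z : U) (hz : ‖z‖ = 1) :
    MeasurePreserving (fun p : ℝ × (ℝ ∙ z)ᗮ => p.1 • z + (ℝ ∙ z)ᗮ.subtypeL p.2)
      ((volume : Measure ℝ).prod
        (measureSpaceOfInnerProductSpace.volume : Measure (ℝ ∙ z)ᗮ)) volume := by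
  have h1 := (LinearIsometryEquiv.toSpanUnitSingleton z hz).measurePreserving
  have h2 := h1.prod (MeasurePreserving.id (volume : Measure (ℝ ∙ z)ᗮ))
  have h3 := (WithLp.volume_preserving_toLp (ℝ ∙ z) (ℝ ∙ z)ᗮ)
  have h4 := (ℝ ∙ z).orthogonalDecomposition.symm.measurePreserving
  exact (h4.comp h3).comp h2

/-- Piece D -/
theorem rot_s (z : U) (hz : ‖z‖ = 1) (s : ℕ) (K₁ K₂ : U → U → ℝ≥0∞)
    (h₁ : Measurable (Function.uncurry K₁)) (h₂ : Measurable (Function.uncurry K₂))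
    (i₁ : ∀ (a : ℝ) (x y : U), K₁ (cos a • x + sin a • y) (-(sin a) • x + cos a • y) = K₁ x y)
    (i₂ : ∀ (a : ℝ) (x y : U), K₂ (cos a • x + sin a • y) (-(sin a) • x + cos a • y) = K₂ x y)
    (H : ∀ y : U, ⟪y, z⟫ = 0 → ∫⁻ x : U, ENNReal.ofReal (|⟪x, z⟫| ^ (s + 1)) * K₁ x y
      ≤ ∫⁻ x : U, ENNReal.ofReal (|⟪x, z⟫| ^ (s + 1)) * K₂ x y) :
    ∫⁻ x : U, ∫⁻ y : U, ENNReal.ofReal (|⟪x, z⟫| ^ s) * K₁ x y
      ≤ ∫⁻ x : U, ∫⁻ y : U, ENNReal.ofReal (|⟪x, z⟫| ^ s) * K₂ x y := by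
  refine rot' (W := (ℝ ∙ z)ᗮ) z hz (ℝ ∙ z)ᗮ.subtypeL (fun w => ?_) (dec z hz) s K₁ K₂ h₁ h₂
    i₁ i₂ H
  exact Submodule.mem_orthogonal_singleton_iff_inner_left.mp w.2

end D

end Pool.Agent.H21.OE
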