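import Pool.Agent.H91.OC.Step

set_option autoImplicit false

/-! Definitions of project OE: Gram determinants and Gaussian weights. -/

namespace Pool.Agent.H21.OE

open Pool.Agent.H61.YP Pool.Agent.H8.RG Pool.Agent.H91.OC
open Real
open scoped RealInnerProductSpace BigOperators

/-- the determinant of the matrix of scalar products -/
noncomputable def gd {V : Type*} [NormedAddCommGroup V] [InnerProductSpace ℝ V] {m : ℕ}
    (v v' : Fin m → V) : ℝ := (Matrix.of fun i j => ⟪v i, v' j⟫).det

variable {n : ℕ}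

/-- the Gaussian weight on several vectors -/
noncomputable def ga {j : ℕ} (x : Fin j → E n) : ℝ := exp (-(∑ i, ‖x i‖ ^ 2) / 2)

/-- the determinant of the matrix `x_iᵀ P y_l` -/
noncomputable def gP (P : Matrix (Fin n) (Fin n) ℝ) {j : ℕ} (x y : Fin j → E n) : ℝ :=
  (Matrix.of fun i l => ∑ a, ∑ b, x i a * y l b * P a b).det

/-- `|X|² P_{span X}`, relative to `P` -/
noncomputable def GG (P : Matrix (Fin n) (Fin n) ℝ) {j : ℕ} (x : Fin j → E n) (a b : Fin n) : ℝ :=
  gP P x x * P a b - gP P (Fin.cons (e a) x) (Fin.cons (e b) x)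

/-- the constant of the moments -/
noncomputable def cM (d j : ℕ) : ℝ := ∏ i ∈ Finset.range j, ((d : ℝ) + i + 3)

end Pool.Agent.H21.OE
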