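import Pool.Agent.H21.OE.Defs
import Pool.Agent.H91.OD.F

set_option autoImplicit false

/-! Pieces N1 and N2 of project OE: integrability and Fubini for the Gaussian weight. -/

namespace Pool.Agent.H21.OE

open Pool.Agent.H61.YP Pool.Agent.H8.RG Pool.Agent.H91.OC
open MeasureTheory Set Real
open scoped ENNReal RealInnerProductSpace BigOperators

variable {n : ℕ}

private theorem ga_prod {j : ℕ} (x : Fin j → E n) :
    ga x = ∏ i, exp (-‖x i‖ ^ 2 / 2) := by
  rw [ga, ← Real.exp_sum, ← Finset.sum_div, Finset.sum_neg_distrib]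

private theorem ga_pos {j : ℕ} (x : Fin j → E n) : 0 < ga x := exp_pos _

private theorem four_int : Integrable fun y : E n => ‖y‖ ^ 4 * exp (-‖y‖ ^ 2 / 2) := by
  have h : (fun y : E n => ‖y‖ ^ 4 * exp (-‖y‖ ^ 2 / 2)) = fun y : E n =>
      ∑ a, ∑ c, y a * y a * y c * y c * exp (-‖y‖ ^ 2 / 2) := by
    funext y
    have h1 : ‖y‖ ^ 2 = ∑ a, y a * y a := by
      rw [EuclideanSpace.norm_sq_eq]
      exact Finset.sum_congr rfl fun i _ => by rw [Real.norm_eq_abs, sq_abs, sq]
    have h2 : ‖y‖ ^ 4 = ∑ a, ∑ c, y a * y a * y c * y c := by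
      have h3 : ‖y‖ ^ 4 = ‖y‖ ^ 2 * ‖y‖ ^ 2 := by ring
      rw [h3, h1, Finset.sum_mul_sum]
      exact Finset.sum_congr rfl fun a _ => Finset.sum_congr rfl fun c _ => by ring
    rw [h2, Finset.sum_mul]
    exact Finset.sum_congr rfl fun a _ => Finset.sum_mul _ _ _
  rw [h]
  exact integrable_finsetSum _ fun a _ => integrable_finsetSum _ fun c _ =>
    Pool.Agent.H91.OD.gauss_integrable n a a c c

/-- Piece N1 -/
theorem int_gauss {j : ℕ} (F : (Fin j → E n) → ℝ) (hF : Continuous F) (C : ℝ)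
    (hC : ∀ x, |F x| ≤ C * ∏ i, ‖x i‖ ^ 4) : Integrable fun x => F x * ga x := by
  have h1 : Integrable fun x : Fin j → E n => ∏ i, (‖x i‖ ^ 4 * exp (-‖x i‖ ^ 2 / 2)) :=
    Integrable.fintype_prod fun _ => four_int
  have h2 : Continuous fun x : Fin j → E n => F x * ga x := by
    unfold ga
    fun_prop
  refine (h1.const_mul C).mono' h2.aestronglyMeasurable (Filter.Eventually.of_forall fun x => ?_)
  rw [Real.norm_eq_abs, abs_mul, Finset.prod_mul_distrib, ← ga_prod, abs_of_pos (ga_pos x),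
    ← mul_assoc]
  exact mul_le_mul_of_nonneg_right (hC x) (ga_pos x).le

private theorem ga_succ {j : ℕ} (x : Fin (j + 1) → E n) :
    ga x = exp (-‖x 0‖ ^ 2 / 2) * ga (Fin.tail x) := by
  rw [ga_prod, ga_prod, Fin.prod_univ_succ]
  rfl

/-- Fubini for the first vector, on the product -/
theorem fub_prod {j : ℕ} (F : E n → (Fin j → E n) → ℝ)
    (hF : Integrable fun x : Fin (j + 1) → E n => F (x 0) (Fin.tail x) * ga x) :
    (Integrable fun p : E n × (Fin j → E n) =>
      F p.1 p.2 * (exp (-‖p.1‖ ^ 2 / 2) * ga p.2)) ∧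
    ∫ x : Fin (j + 1) → E n, F (x 0) (Fin.tail x) * ga x
      = ∫ p : E n × (Fin j → E n), F p.1 p.2 * (exp (-‖p.1‖ ^ 2 / 2) * ga p.2) := by
  have hm := volume_preserving_piFinSuccAbove (fun _ : Fin (j + 1) => E n) 0
  have he : (fun x : Fin (j + 1) → E n => F (x 0) (Fin.tail x) * ga x)
      = (fun p : E n × (Fin j → E n) => F p.1 p.2 * (exp (-‖p.1‖ ^ 2 / 2) * ga p.2))
        ∘ (MeasurableEquiv.piFinSuccAbove (fun _ : Fin (j + 1) => E n) 0) := by
    funext x
    rw [ga_succ]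
    rfl
  refine ⟨?_, ?_⟩
  · rw [he] at hF
    exact (hm.integrable_comp_emb (MeasurableEquiv.measurableEmbedding _)).1 hF
  · rw [he]
    exact hm.integral_comp'
      (fun p : E n × (Fin j → E n) => F p.1 p.2 * (exp (-‖p.1‖ ^ 2 / 2) * ga p.2))

/-- Piece N2 -/
theorem fub {j : ℕ} (F : (Fin (j + 1) → E n) → ℝ) (hF : Integrable fun x => F x * ga x) :
    ∫ x, F x * ga x
      = ∫ y : E n, (∫ x : Fin j → E n, F (Fin.cons y x) * ga x) * exp (-‖y‖ ^ 2 / 2) := by
  have he : (fun x : Fin (j + 1) → E n => F x * ga x)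
      = fun x : Fin (j + 1) → E n => F (Fin.cons (x 0) (Fin.tail x)) * ga x := by
    funext x
    rw [Fin.cons_self_tail]
  rw [he] at hF ⊢
  obtain ⟨h1, h2⟩ := fub_prod (fun y x => F (Fin.cons y x)) hF
  rw [h2]
  refine (integral_prod _ h1).trans ?_
  congr 1
  funext y
  rw [← integral_mul_const]
  congr 1
  funext x
  ring

end Pool.Agent.H21.OE
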