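import Mathlib

/-!
# OE, pieces L8 and L9: one step of Gauss elimination, a bound for a determinant
-/

set_option autoImplicit false

namespace Pool.Agent.H21.OE

/-- Piece L8 (one step of Gauss elimination) -/
theorem schur {m : ℕ} (G : Matrix (Fin (m + 1)) (Fin (m + 1)) ℝ) (h : G 0 0 ≠ 0) :
    G.det = G 0 0 * (Matrix.of fun i j : Fin m =>
      G i.succ j.succ - G i.succ 0 * G 0 j.succ / G 0 0).det := by
  let c : Fin (m + 1) → ℝ := Fin.cons 0 fun i => G i.succ 0 / G 0 0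
  let B : Matrix (Fin (m + 1)) (Fin (m + 1)) ℝ := Matrix.of fun i j => G i j - c i * G 0 j
  have hc0 : c 0 = 0 := rfl
  have hcs : ∀ i : Fin m, c i.succ = G i.succ 0 / G 0 0 := fun i => rfl
  have hB : ∀ i j, B i j = G i j - c i * G 0 j := fun i j => rfl
  have h1 : G.det = B.det := by
    refine Matrix.det_eq_of_forall_row_eq_smul_add_const c 0 hc0 fun i j => ?_
    rw [hB, hB, hc0, zero_mul, sub_zero, sub_add_cancel]
  rw [h1, Matrix.det_succ_column_zero, Fin.sum_univ_succ]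
  have h2 : ∀ i : Fin m, B i.succ 0 = 0 := by
    intro i
    rw [hB, hcs, div_mul_cancel₀ _ h, sub_self]
  have h3 : ∑ i : Fin m, (-1 : ℝ) ^ ((i.succ : Fin (m + 1)) : ℕ) * B i.succ 0 *
      (B.submatrix i.succ.succAbove Fin.succ).det = 0 :=
    Finset.sum_eq_zero fun i _ => by rw [h2, mul_zero, zero_mul]
  rw [h3, add_zero, hB, hc0, zero_mul, sub_zero]
  simp only [Fin.val_zero, pow_zero, one_mul]
  congr 2
  ext i j
  rw [Matrix.submatrix_apply, Fin.zero_succAbove, hB, hcs, Matrix.of_apply]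
  ring

/-- Piece L9 (the numerator of a Gram determinant, bound) -/
theorem det_bound {m : ℕ} (G : Matrix (Fin m) (Fin m) ℝ) (a b : Fin m → ℝ)
    (h : ∀ i j, |G i j| ≤ a i * b j) :
    |G.det| ≤ (m.factorial : ℝ) * ((∏ i, a i) * ∏ i, b i) := by
  rw [Matrix.det_apply']
  refine (Finset.abs_sum_le_sum_abs _ _).trans ?_
  have h1 : ∀ σ ∈ (Finset.univ : Finset (Equiv.Perm (Fin m))),
      |((Equiv.Perm.sign σ : ℤ) : ℝ) * ∏ i, G (σ i) i| ≤ (∏ i, a i) * ∏ i, b i := by
    intro σ _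
    have h2 : |((Equiv.Perm.sign σ : ℤ) : ℝ)| = 1 := by
      rcases Int.units_eq_one_or (Equiv.Perm.sign σ) with h3 | h3 <;> rw [h3] <;> norm_num
    rw [abs_mul, h2, one_mul, Finset.abs_prod, ← Equiv.prod_comp σ a, ← Finset.prod_mul_distrib]
    exact Finset.prod_le_prod (fun i _ => abs_nonneg _) fun i _ => h (σ i) i
  refine (Finset.sum_le_sum h1).trans (le_of_eq ?_)
  rw [Finset.sum_const, Finset.card_univ, Fintype.card_perm, Fintype.card_fin, nsmul_eq_mul]

end Pool.Agent.H21.OE
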