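import Pool.Agent.H21.OE.Defs
import Pool.Agent.H21.OE.L3
import Pool.Agent.H21.OE.N1

set_option autoImplicit false

/-! Pieces N3, N4, N5, N6, MO3 of project OE: continuity, bounds, integrability. -/

namespace Pool.Agent.H21.OE

open Pool.Agent.H61.YP Pool.Agent.H8.RG Pool.Agent.H91.OC
open MeasureTheory Set Real
open scoped ENNReal RealInnerProductSpace BigOperators

variable {n : ℕ}

private theorem form_expand {j : ℕ} (φ : Form n j) (x : Fin j → E n) :
    φ x = ∑ r : Fin j → Fin n, (∏ i, x i (r i)) * φ (fun i => e (r i)) := by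
  have h1 : x = fun i => ∑ a, x i a • (e a : E n) := funext fun i => (sum_coord (x i)).symm
  have h2 : φ x = φ.toMultilinearMap (fun i => ∑ a, x i a • (e a : E n)) := by
    rw [← h1]
    rfl
  rw [h2, MultilinearMap.map_sum]
  refine Finset.sum_congr rfl fun r _ => ?_
  rw [MultilinearMap.map_smul_univ φ.toMultilinearMap (fun i => x i (r i)) fun i => e (r i), smul_eq_mul]
  rfl

private theorem abs_coord_le (x : E n) (a : Fin n) : |x a| ≤ ‖x‖ := by
  have h := PiLp.norm_apply_le x a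
  rwa [Real.norm_eq_abs] at h

/-- Piece N3 -/
theorem form_cont {j : ℕ} (φ : Form n j) : Continuous fun x : Fin j → E n => φ x := by
  have h : (fun x : Fin j → E n => φ x) =
      fun x => ∑ r : Fin j → Fin n, (∏ i, x i (r i)) * φ (fun i => e (r i)) := funext fun x => form_expand φ x
  rw [h]
  refine continuous_finset_sum _ fun r _ => Continuous.mul ?_ continuous_const
  refine continuous_finset_prod _ fun i _ => ?_
  fun_prop

/-- Piece N4 -/
theorem form_bound {j : ℕ} (φ : Form n j) :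
    ∃ C : ℝ, 0 ≤ C ∧ ∀ x : Fin j → E n, |φ x| ≤ C * ∏ i, ‖x i‖ := by
  refine ⟨∑ r : Fin j → Fin n, |φ (fun i => e (r i))|, Finset.sum_nonneg fun _ _ => abs_nonneg _, fun x => ?_⟩
  rw [form_expand φ x, Finset.sum_mul]
  refine (Finset.abs_sum_le_sum_abs _ _).trans (Finset.sum_le_sum fun r _ => ?_)
  rw [abs_mul, mul_comm, Finset.abs_prod]
  refine mul_le_mul_of_nonneg_left ?_ (abs_nonneg _)
  exact Finset.prod_le_prod (fun i _ => abs_nonneg _) fun i _ => abs_coord_le (x i) (r i)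

/-- Piece N5 -/
theorem gP_cont (P : Matrix (Fin n) (Fin n) ℝ) (j : ℕ) :
    Continuous fun p : (Fin j → E n) × (Fin j → E n) => gP P p.1 p.2 := by
  unfold gP
  refine Continuous.matrix_det (continuous_pi fun i => continuous_pi fun l => ?_)
  simp only [Matrix.of_apply]
  fun_prop

/-- Piece N6 (from `det_bound`) -/
theorem gP_bound (P : Matrix (Fin n) (Fin n) ℝ) (j : ℕ) :
    ∃ C : ℝ, 0 ≤ C ∧ ∀ x y : Fin j → E n, |gP P x y| ≤ C * ((∏ i, ‖x i‖) * ∏ i, ‖y i‖) := by
  set c : ℝ := ∑ a, ∑ b, |P a b| with hc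
  have hc0 : 0 ≤ c := Finset.sum_nonneg fun _ _ => Finset.sum_nonneg fun _ _ => abs_nonneg _
  refine ⟨(j.factorial : ℝ) * c ^ j, by positivity, fun x y => ?_⟩
  have h1 := det_bound (Matrix.of fun i l => ∑ a, ∑ b, x i a * y l b * P a b) (fun i => c * ‖x i‖)
    (fun l => ‖y l‖) (fun i l => by
      rw [Matrix.of_apply, hc, Finset.sum_mul, Finset.sum_mul]
      refine (Finset.abs_sum_le_sum_abs _ _).trans (Finset.sum_le_sum fun a _ => ?_)
      rw [Finset.sum_mul, Finset.sum_mul]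
      refine (Finset.abs_sum_le_sum_abs _ _).trans (Finset.sum_le_sum fun b _ => ?_)
      rw [abs_mul, abs_mul]
      calc |x i a| * |y l b| * |P a b| ≤ ‖x i‖ * ‖y l‖ * |P a b| :=
            mul_le_mul_of_nonneg_right (mul_le_mul (abs_coord_le _ _) (abs_coord_le _ _) (abs_nonneg _)
              (norm_nonneg _)) (abs_nonneg _)
        _ = |P a b| * ‖x i‖ * ‖y l‖ := by ring)
  refine h1.trans (le_of_eq ?_)
  rw [Finset.prod_mul_distrib, Finset.prod_const, Finset.card_univ, Fintype.card_fin]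
  ring

private theorem norm_e (a : Fin n) : ‖(e a : E n)‖ = 1 := by
  rw [e, PiLp.norm_single, norm_one]

private theorem GG_eq (P : Matrix (Fin n) (Fin n) ℝ) {j : ℕ} (x : Fin j → E n) (a b : Fin n) :
    GG P x a b = gP P x x * P a b - gP P (Fin.cons (e a) x) (Fin.cons (e b) x) := rfl

attribute [local irreducible] gP GG

/-- Piece MO3: integrability of the integrands -/
theorem int1 (P : Matrix (Fin n) (Fin n) ℝ) {j : ℕ} (φ ψ : Form n j) :
    Integrable fun x : Fin j → E n => gP P x x * (φ x * ψ x) * ga x := by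
  obtain ⟨C, hC0, hC⟩ := gP_bound P j
  obtain ⟨C₁, h10, h1⟩ := form_bound φ
  obtain ⟨C₂, h20, h2⟩ := form_bound ψ
  have hc : Continuous fun x : Fin j → E n => gP P x x := (gP_cont P j).comp (continuous_id.prodMk continuous_id)
  refine int_gauss _ (hc.mul ((form_cont φ).mul (form_cont ψ))) (C * (C₁ * C₂)) fun x => ?_
  rw [abs_mul, abs_mul]
  have hp : 0 ≤ ∏ i, ‖x i‖ := Finset.prod_nonneg fun _ _ => norm_nonneg _
  calc |gP P x x| * (|φ x| * |ψ x|) ≤ (C * ((∏ i, ‖x i‖) * ∏ i, ‖x i‖)) * ((C₁ * ∏ i, ‖x i‖) * (C₂ * ∏ i, ‖x i‖)) :=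
        mul_le_mul (hC x x) (mul_le_mul (h1 x) (h2 x) (abs_nonneg _) (by positivity)) (by positivity) (by positivity)
    _ = C * (C₁ * C₂) * ∏ i, ‖x i‖ ^ 4 := by
        rw [Finset.prod_pow]
        ring

theorem int2 (P : Matrix (Fin n) (Fin n) ℝ) {j : ℕ} (φ ψ : Form n j) (a b : Fin n) :
    Integrable fun x : Fin j → E n => GG P x a b * (φ x * ψ x) * ga x := by
  obtain ⟨C, hC0, hC⟩ := gP_bound P j
  obtain ⟨C', hC0', hC'⟩ := gP_bound P (j + 1)
  obtain ⟨C₁, h10, h1⟩ := form_bound φ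
  obtain ⟨C₂, h20, h2⟩ := form_bound ψ
  have hc : Continuous fun x : Fin j → E n => gP P x x := (gP_cont P j).comp (continuous_id.prodMk continuous_id)
  have hcons : ∀ a : Fin n, Continuous fun x : Fin j → E n => (Fin.cons (e a) x : Fin (j + 1) → E n) := by
    intro a
    refine continuous_pi fun i => ?_
    refine Fin.cases ?_ (fun i => ?_) i
    · simp only [Fin.cons_zero]
      exact continuous_const
    · simp only [Fin.cons_succ]
      exact continuous_apply i
  have hc' : Continuous fun x : Fin j → E n => gP P (Fin.cons (e a) x) (Fin.cons (e b) x) :=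
    (gP_cont P (j + 1)).comp ((hcons a).prodMk (hcons b))
  have hG : Continuous fun x : Fin j → E n => GG P x a b := by
    have h : (fun x : Fin j → E n => GG P x a b) =
        fun x => gP P x x * P a b - gP P (Fin.cons (e a) x) (Fin.cons (e b) x) := funext fun x => GG_eq P x a b
    rw [h]
    exact (hc.mul continuous_const).sub hc'
  refine int_gauss _ (hG.mul ((form_cont φ).mul (form_cont ψ))) ((C * |P a b| + C') * (C₁ * C₂)) fun x => ?_
  rw [abs_mul, abs_mul]
  have hp : 0 ≤ ∏ i, ‖x i‖ := Finset.prod_nonneg fun _ _ => norm_nonneg _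
  have hn : ∀ a : Fin n, ∏ i, ‖(Fin.cons (e a) x : Fin (j + 1) → E n) i‖ = ∏ i, ‖x i‖ := by
    intro a
    rw [Fin.prod_univ_succ]
    simp only [Fin.cons_zero, Fin.cons_succ, norm_e, one_mul]
  have hG1 : |GG P x a b| ≤ (C * |P a b| + C') * ((∏ i, ‖x i‖) * ∏ i, ‖x i‖) := by
    rw [GG_eq]
    refine (abs_sub _ _).trans ?_
    rw [abs_mul, add_mul]
    have h3 := hC' (Fin.cons (e a) x) (Fin.cons (e b) x)
    rw [hn, hn] at h3
    refine add_le_add ?_ h3
    calc |gP P x x| * |P a b| ≤ (C * ((∏ i, ‖x i‖) * ∏ i, ‖x i‖)) * |P a b| :=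
          mul_le_mul_of_nonneg_right (hC x x) (abs_nonneg _)
      _ = C * |P a b| * ((∏ i, ‖x i‖) * ∏ i, ‖x i‖) := by ring
  calc |GG P x a b| * (|φ x| * |ψ x|) ≤
        ((C * |P a b| + C') * ((∏ i, ‖x i‖) * ∏ i, ‖x i‖)) * ((C₁ * ∏ i, ‖x i‖) * (C₂ * ∏ i, ‖x i‖)) :=
        mul_le_mul hG1 (mul_le_mul (h1 x) (h2 x) (abs_nonneg _) (by positivity)) (by positivity) (by positivity)
    _ = (C * |P a b| + C') * (C₁ * C₂) * ∏ i, ‖x i‖ ^ 4 := by
        rw [Finset.prod_pow]
        ring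

end Pool.Agent.H21.OE
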