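import Pool.Agent.H21.OE.Defs
import Pool.Agent.H21.OE.L3

set_option autoImplicit false

/-! # OE, pieces N7, N8, N9: reduction of the determinants `gP` and of `GG` -/

namespace Pool.Agent.H21.OE

open Pool.Agent.H61.YP Pool.Agent.H8.RG Pool.Agent.H91.OC
open Real
open scoped RealInnerProductSpace BigOperators
open Matrix (vecMulVec)

variable {n : ℕ}

private lemma n7_right (P : Matrix (Fin n) (Fin n) ℝ) (x y : Fin n → ℝ) (v : Fin n → ℝ)
    (hv : ∀ a, v a = ∑ b, P a b * y b) : ∑ a, ∑ b, x a * y b * P a b = ∑ a, x a * v a := by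
  refine Finset.sum_congr rfl fun a _ => ?_
  rw [hv, Finset.mul_sum]
  exact Finset.sum_congr rfl fun b _ => by ring

private lemma n7_left {P : Matrix (Fin n) (Fin n) ℝ} (hP : P.transpose = P) (x y : Fin n → ℝ)
    (v : Fin n → ℝ) (hv : ∀ a, v a = ∑ b, P a b * y b) :
    ∑ a, ∑ b, y a * x b * P a b = ∑ b, v b * x b := by
  rw [Finset.sum_comm]
  refine Finset.sum_congr rfl fun b _ => ?_
  rw [hv, Finset.sum_mul]
  refine Finset.sum_congr rfl fun a _ => ?_
  have h1 : P b a = P a b := congrFun (congrFun hP a) b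
  rw [h1]; ring

private lemma n7_self {P : Matrix (Fin n) (Fin n) ℝ} {N : ℕ} (hP : IsPr P N) (y : Fin n → ℝ)
    (v : Fin n → ℝ) (hv : ∀ a, v a = ∑ b, P a b * y b) :
    ∑ a, ∑ b, y a * y b * P a b = ∑ a, v a * v a := by
  have h1 : ∀ a, v a = ∑ b, P a b * v b := by
    intro a
    have h2 : ∀ b, P a b * v b = ∑ c, P a b * P b c * y c := by
      intro b
      rw [hv, Finset.mul_sum]
      exact Finset.sum_congr rfl fun c _ => by ring
    rw [Finset.sum_congr rfl fun b _ => h2 b, Finset.sum_comm, hv]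
    refine Finset.sum_congr rfl fun c _ => ?_
    rw [← Finset.sum_mul, ← Matrix.mul_apply, hP.idem]
  rw [n7_right P y y v hv, ← n7_right P y v v h1, n7_left hP.symm v y v hv]

private lemma n7_sub (P : Matrix (Fin n) (Fin n) ℝ) (x y v : Fin n → ℝ) (r : ℝ) :
    ∑ a, ∑ b, x a * y b * (P - r⁻¹ • vecMulVec v v) a b
      = ∑ a, ∑ b, x a * y b * P a b - (∑ a, x a * v a) * (∑ b, v b * y b) / r := by
  rw [Finset.sum_mul_sum, Finset.sum_div, ← Finset.sum_sub_distrib]
  refine Finset.sum_congr rfl fun a _ => ?_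
  rw [Finset.sum_div, ← Finset.sum_sub_distrib]
  refine Finset.sum_congr rfl fun b _ => ?_
  rw [Matrix.sub_apply, Matrix.smul_apply, Matrix.vecMulVec_apply, smul_eq_mul]
  ring

/-- Piece N7 (from `schur`): here `v = P y` and `P₁ = P - v vᵀ / (yᵀ P y)` -/
theorem gP_cons {P : Matrix (Fin n) (Fin n) ℝ} {N : ℕ} (hP : IsPr P N) {j : ℕ} (y : E n)
    (v : Fin n → ℝ) (hv : ∀ a, v a = ∑ b, P a b * y b) (r : ℝ) (hr : r = ∑ a, v a * v a)
    (hr0 : r ≠ 0) (x x' : Fin j → E n) :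
    gP P (Fin.cons y x) (Fin.cons y x')
      = r * gP (P - r⁻¹ • vecMulVec v v) x x' := by
  unfold gP
  set G : Matrix (Fin (j + 1)) (Fin (j + 1)) ℝ := Matrix.of fun i l =>
    ∑ a, ∑ b, (Fin.cons y x : Fin (j + 1) → E n) i a *
      (Fin.cons y x' : Fin (j + 1) → E n) l b * P a b with hG
  have h00 : G 0 0 = r := by
    rw [hr]
    exact n7_self hP y v hv
  have hs0 : ∀ i : Fin j, G i.succ 0 = ∑ a, x i a * v a := fun i => n7_right P (x i) y v hv
  have h0s : ∀ i : Fin j, G 0 i.succ = ∑ b, v b * x' i b := fun i =>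
    n7_left hP.symm (x' i) y v hv
  have hss : ∀ i l : Fin j, G i.succ l.succ = ∑ a, ∑ b, x i a * x' l b * P a b := fun i l => rfl
  rw [schur G (by rw [h00]; exact hr0), h00]
  congr 2
  ext i l
  rw [Matrix.of_apply, Matrix.of_apply, hss, hs0, h0s, n7_sub]

private lemma n7_swap (P : Matrix (Fin n) (Fin n) ℝ) {j : ℕ} (f g : Fin j → E n)
    (σ : Equiv.Perm (Fin j)) : gP P (f ∘ σ) (g ∘ σ) = gP P f g := by
  unfold gP
  rw [← Matrix.det_submatrix_equiv_self σ (Matrix.of fun i l =>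
    ∑ a, ∑ b, f i a * g l b * P a b)]
  rfl

private lemma n7_cons {j : ℕ} (p q : E n) (x : Fin j → E n) :
    (Fin.cons p (Fin.cons q x : Fin (j + 1) → E n) : Fin (j + 2) → E n) ∘ (Equiv.swap 0 1)
      = Fin.cons q (Fin.cons p x : Fin (j + 1) → E n) := by
  funext i
  refine Fin.cases ?_ (fun i => ?_) i
  · rw [Function.comp_apply, Equiv.swap_apply_left]
    rfl
  · refine Fin.cases ?_ (fun i => ?_) i
    · rw [Function.comp_apply]
      have : (Fin.succ 0 : Fin (j + 2)) = 1 := rfl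
      rw [this, Equiv.swap_apply_right]
      rfl
    · rw [Function.comp_apply, Equiv.swap_apply_of_ne_of_ne]
      · rfl
      · exact Fin.succ_ne_zero _
      · intro h
        have : (Fin.succ 0 : Fin (j + 2)) = 1 := rfl
        rw [← this] at h
        exact Fin.succ_ne_zero _ (Fin.succ_injective _ h)

/-- Piece N8 (from N7; swap the first two vectors) -/
theorem GG_cons {P : Matrix (Fin n) (Fin n) ℝ} {N : ℕ} (hP : IsPr P N) {j : ℕ} (y : E n)
    (v : Fin n → ℝ) (hv : ∀ a, v a = ∑ b, P a b * y b) (r : ℝ) (hr : r = ∑ a, v a * v a)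
    (hr0 : r ≠ 0) (x : Fin j → E n) (a b : Fin n) :
    GG P (Fin.cons y x) a b
      = v a * v b * gP (P - r⁻¹ • vecMulVec v v) x x
        + r * GG (P - r⁻¹ • vecMulVec v v) x a b := by
  unfold GG
  rw [gP_cons hP y v hv r hr hr0, ← n7_swap P _ _ (Equiv.swap 0 1), n7_cons, n7_cons,
    gP_cons hP y v hv r hr hr0]
  have h1 : (P - r⁻¹ • vecMulVec v v) a b = P a b - r⁻¹ * (v a * v b) := by
    rw [Matrix.sub_apply, Matrix.smul_apply, Matrix.vecMulVec_apply, smul_eq_mul]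
  rw [h1]
  have h2 : r * r⁻¹ = 1 := mul_inv_cancel₀ hr0
  linear_combination (v a * v b * gP (P - r⁻¹ • vecMulVec v v) x x) * h2

/-- Piece N9 (the case `r = 0`) -/
theorem gP_cons_zero {P : Matrix (Fin n) (Fin n) ℝ} {N : ℕ} (hP : IsPr P N) {j : ℕ} (y : E n)
    (hv : ∀ a, ∑ b, P a b * y b = 0) (x x' : Fin j → E n) :
    gP P (Fin.cons y x) (Fin.cons y x') = 0 := by
  unfold gP
  refine Matrix.det_eq_zero_of_row_eq_zero 0 fun l => ?_
  rw [Matrix.of_apply, Fin.cons_zero,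
    n7_left hP.symm ((Fin.cons y x' : Fin (j + 1) → E n) l) y (fun _ => 0) (fun a => (hv a).symm)]
  simp

end Pool.Agent.H21.OE
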