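import Pool.Agent.H21.OE.MO1
import Pool.Agent.H21.OE.N7
import Pool.Agent.H21.OE.N3
import Pool.Agent.H21.OE.N1
import Pool.Agent.H91.OD.M
import Pool.Agent.H91.OC.Chain

set_option autoImplicit false

/-! Project OE, piece MO2: the second moments. -/

namespace Pool.Agent.H21.OE

open Pool.Agent.H61.YP Pool.Agent.H8.RG Pool.Agent.H91.OC
open MeasureTheory Set Real
open scoped ENNReal RealInnerProductSpace BigOperators
open Matrix (vecMulVec)
open Pool.Agent.H91.OD (Z gauss_mul)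

variable {n : ℕ}

/-- the moment identity on the range of a projection -/
private theorem mom_id {P : Matrix (Fin n) (Fin n) ℝ} {N : ℕ} (hP : IsPr P N)
    (A B : Matrix (Fin n) (Fin n) ℝ) (hB1 : P * B = B) (hB2 : B * P = B) :
    (Integrable fun y : E n => (∑ i, ∑ l, (∑ b, P i b * y b) * (∑ b, P l b * y b) * A i l)
        * (∑ a, ∑ b, y a * y b * B a b) * exp (-‖y‖ ^ 2 / 2)) ∧
    ∫ y : E n, (∑ i, ∑ l, (∑ b, P i b * y b) * (∑ b, P l b * y b) * A i l)
        * (∑ a, ∑ b, y a * y b * B a b) * exp (-‖y‖ ^ 2 / 2)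
      = Z n * ((∑ i, ∑ l, P i l * A i l) * (∑ a, B a a)
        + ∑ i, ∑ l, A i l * (B i l + B l i)) := by
  have hvP : ∀ y z : Fin n → ℝ, dotProduct (P.mulVec y) z = dotProduct y (P.mulVec z) := by
    intro y z
    rw [Matrix.dotProduct_mulVec, ← Matrix.mulVec_transpose, hP.symm]
  have hq : ∀ y : E n, ∑ i, ∑ l, (∑ b, P i b * y b) * (∑ b, P l b * y b) * A i l
      = ∑ a, ∑ b, y a * y b * (P * A * P) a b := by
    intro y
    have h1 := quad_eq A (P.mulVec fun b => y b)
    have h2 := quad_eq (P * A * P) (fun b => y b)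
    have h3 : dotProduct (P.mulVec fun b => y b) (A.mulVec (P.mulVec fun b => y b))
        = dotProduct (fun b => y b) ((P * A * P).mulVec fun b => y b) := by
      rw [hvP, Matrix.mulVec_mulVec, Matrix.mulVec_mulVec, Matrix.mul_assoc]
    exact h1.trans (h3.trans h2.symm)
  simp_rw [hq]
  obtain ⟨h1, h2⟩ := gauss_mul n (P * A * P) B
  refine ⟨h1, h2.trans ?_⟩
  congr 1
  congr 1
  · congr 1
    have e1 : ∑ i, (P * A * P) i i = (P * A * P).trace := rfl
    have e2 : ∑ i, ∑ l, P i l * A i l = (P * A.transpose).trace := sum_eq_trace _ _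
    rw [e1, e2, Matrix.trace_mul_comm, ← Matrix.mul_assoc, hP.idem,
      ← Matrix.trace_transpose (P * A.transpose), Matrix.transpose_mul,
      Matrix.transpose_transpose, hP.symm, Matrix.trace_mul_comm]
  · simp only [mul_add, Finset.sum_add_distrib]
    rw [sum_eq_trace, sum_eq_trace', sum_eq_trace, sum_eq_trace']
    have hT : P * B.transpose = B.transpose := by
      conv_lhs => rw [← hP.symm]
      rw [← Matrix.transpose_mul, hB2]
    have hT2 : B.transpose * P = B.transpose := by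
      conv_lhs => rw [← hP.symm]
      rw [← Matrix.transpose_mul, hB1]
    congr 1
    · rw [Matrix.mul_assoc, hT, Matrix.mul_assoc, Matrix.trace_mul_comm, Matrix.mul_assoc, hT2]
    · rw [Matrix.mul_assoc, hB1, Matrix.mul_assoc, Matrix.trace_mul_comm, Matrix.mul_assoc, hB2]

private theorem vec_coe (y : E n) : vec (fun i => y i) = y := by
  ext i
  simp

/-- mean of `tW` -/
private theorem mean_tW {w : Fin n → Fin n → Fin n → Fin n → ℝ} (h : IsCurv w)
    {P : Matrix (Fin n) (Fin n) ℝ} {N : ℕ} (hP : IsPr P N) {q : ℕ} (ω : Form n (q + 2))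
    (hL : Lives P ω) :
    (Integrable fun y : E n => tW w (fun a => ∑ b, P a b * y b) (ω.curryLeft y)
        * exp (-‖y‖ ^ 2 / 2)) ∧
    ∫ y : E n, tW w (fun a => ∑ b, P a b * y b) (ω.curryLeft y) * exp (-‖y‖ ^ 2 / 2)
      = Z n * (rP w P ω + 3 * QA w ω) := by
  have hf : ∀ y : E n, tW w (fun a => ∑ b, P a b * y b) (ω.curryLeft y) * exp (-‖y‖ ^ 2 / 2)
      = ∑ j, ∑ k, (∑ i, ∑ l, (∑ b, P i b * y b) * (∑ b, P l b * y b)
          * (Matrix.of fun i l => w i j k l) i l)
        * (∑ a, ∑ b, y a * y b * Gmat ω j k a b) * exp (-‖y‖ ^ 2 / 2) := by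
    intro y
    unfold tW
    rw [Finset.sum_mul]
    refine Finset.sum_congr rfl fun j _ => ?_
    rw [Finset.sum_mul]
    refine Finset.sum_congr rfl fun k _ => ?_
    have h1 := Gm_expand ω (fun i => y i) j k
    rw [vec_coe] at h1
    rw [← h1]
    rfl
  have hm := fun j k => mom_id hP (Matrix.of fun i l => w i j k l) (Gmat ω j k)
    (P_Gmat hP hL j k) (Gmat_P hL j k)
  simp_rw [hf]
  refine ⟨integrable_finsetSum _ fun j _ => integrable_finsetSum _ fun k _ => (hm j k).1, ?_⟩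
  rw [integral_finsetSum _ fun j _ => integrable_finsetSum _ fun k _ => (hm j k).1]
  have h2 : ∀ j, ∫ y : E n, ∑ k, (∑ i, ∑ l, (∑ b, P i b * y b) * (∑ b, P l b * y b)
          * (Matrix.of fun i l => w i j k l) i l)
        * (∑ a, ∑ b, y a * y b * Gmat ω j k a b) * exp (-‖y‖ ^ 2 / 2)
      = ∑ k, Z n * ((∑ i, ∑ l, P i l * w i j k l) * MB ω (e j) (e k)
        + ∑ i, ∑ l, w i j k l * (Gm ω i j l k + Gm ω l j i k)) := by
    intro j
    rw [integral_finsetSum _ fun k _ => (hm j k).1]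
    refine Finset.sum_congr rfl fun k _ => ?_
    rw [(hm j k).2, ← Gm_trace]
    rfl
  rw [Finset.sum_congr rfl fun j _ => h2 j, ← sum3 h]
  simp_rw [← Finset.mul_sum, Finset.sum_add_distrib]
  rfl

/-- mean of `r (rP + 3 QA)` -/
private theorem mean_rQ {w : Fin n → Fin n → Fin n → Fin n → ℝ}
    {P : Matrix (Fin n) (Fin n) ℝ} {N : ℕ} (hP : IsPr P N) {q : ℕ} (ω : Form n (q + 3))
    (hL : Lives P ω) :
    (Integrable fun y : E n => (∑ a, (∑ b, P a b * y b) * (∑ b, P a b * y b))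
        * (rP w P (ω.curryLeft y) + 3 * QA w (ω.curryLeft y)) * exp (-‖y‖ ^ 2 / 2)) ∧
    ∫ y : E n, (∑ a, (∑ b, P a b * y b) * (∑ b, P a b * y b))
        * (rP w P (ω.curryLeft y) + 3 * QA w (ω.curryLeft y)) * exp (-‖y‖ ^ 2 / 2)
      = Z n * (((N : ℝ) + 2) * (rP w P ω + 3 * QA w ω)) := by
  have hm := mom_id hP P (Bn w P (-1) ω) (P_Bn hP w (-1) hL) (Bn_P w (-1) hL)
  have h1 : ∀ y : E n, ∑ a, ∑ b, y a * y b * Bn w P (-1) ω a b
      = rP w P (ω.curryLeft y) + 3 * QA w (ω.curryLeft y) := by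
    intro y
    have h2 := Bn_quad w P (-1) ω (fun i => y i)
    rw [vec_coe] at h2
    rw [h2]
    ring
  have h3 : ∀ y : E n, ∑ i, ∑ l, (∑ b, P i b * y b) * (∑ b, P l b * y b) * P i l
      = ∑ a, (∑ b, P a b * y b) * (∑ b, P a b * y b) := by
    intro y
    have h4 := quad_eq P (P.mulVec fun b => y b)
    rw [Matrix.mulVec_mulVec, hP.idem] at h4
    exact h4
  simp_rw [h1, h3] at hm
  refine ⟨hm.1, hm.2.trans ?_⟩
  have e1 : ∑ i, ∑ l, P i l * P i l = (N : ℝ) := by
    rw [sum_eq_trace, hP.symm, hP.idem, hP.trace]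
  have e2 : ∑ a, Bn w P (-1) ω a a = rP w P ω - 3 * ((-1) * QA w ω) := Bn_trace w P (-1) ω
  have e3 : ∑ i, ∑ l, P i l * (Bn w P (-1) ω i l + Bn w P (-1) ω l i)
      = 2 * (rP w P ω - 3 * ((-1) * QA w ω)) := by
    simp only [mul_add, Finset.sum_add_distrib]
    rw [sum_eq_trace, sum_eq_trace', P_Bn hP w (-1) hL]
    have h4 : P * (Bn w P (-1) ω).transpose = (Bn w P (-1) ω).transpose := by
      have h5 := congrArg Matrix.transpose (Bn_P w (-1) hL)
      rwa [Matrix.transpose_mul, hP.symm] at h5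
    rw [h4, Matrix.trace_transpose, Bn_trace]
    ring
  rw [e1, e2, e3]
  ring

/-- the integrand of the second moments -/
private noncomputable def I2 (w : Fin n → Fin n → Fin n → Fin n → ℝ)
    (P : Matrix (Fin n) (Fin n) ℝ) {m : ℕ} (ω : Form n (m + 1)) (x : Fin m → E n) : ℝ :=
  ∑ j, ∑ k, (∑ i, ∑ l, GG P x i l * w i j k l) * (ω.curryLeft (e j) x * ω.curryLeft (e k) x)

/-- the other part -/
private noncomputable def I1 (w : Fin n → Fin n → Fin n → Fin n → ℝ) (v : Fin n → ℝ)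
    (P : Matrix (Fin n) (Fin n) ℝ) {m : ℕ} (ω : Form n (m + 1)) (x : Fin m → E n) : ℝ :=
  ∑ j, ∑ k, (∑ i, ∑ l, v i * v l * w i j k l)
    * (gP P x x * (ω.curryLeft (e j) x * ω.curryLeft (e k) x))

private theorem I2_eq (w : Fin n → Fin n → Fin n → Fin n → ℝ)
    (P : Matrix (Fin n) (Fin n) ℝ) {m : ℕ} (ω : Form n (m + 1)) (x : Fin m → E n) :
    I2 w P ω x * ga x = ∑ j, ∑ k, ∑ i, ∑ l,
      w i j k l * (GG P x i l * (ω.curryLeft (e j) x * ω.curryLeft (e k) x) * ga x) := by
  unfold I2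
  simp_rw [Finset.sum_mul]
  refine Finset.sum_congr rfl fun j _ => Finset.sum_congr rfl fun k _ =>
    Finset.sum_congr rfl fun i _ => Finset.sum_congr rfl fun l _ => ?_
  ring

private theorem I2_int (w : Fin n → Fin n → Fin n → Fin n → ℝ)
    (P : Matrix (Fin n) (Fin n) ℝ) {m : ℕ} (ω : Form n (m + 1)) :
    Integrable fun x : Fin m → E n => I2 w P ω x * ga x := by
  simp_rw [I2_eq]
  exact integrable_finsetSum _ fun j _ => integrable_finsetSum _ fun k _ =>
    integrable_finsetSum _ fun i _ => integrable_finsetSum _ fun l _ =>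
      (int2 P (ω.curryLeft (e j)) (ω.curryLeft (e k)) i l).const_mul _

private theorem I1_eq (w : Fin n → Fin n → Fin n → Fin n → ℝ) (v : Fin n → ℝ)
    (P : Matrix (Fin n) (Fin n) ℝ) {m : ℕ} (ω : Form n (m + 1)) (x : Fin m → E n) :
    I1 w v P ω x * ga x = ∑ j, ∑ k, (∑ i, ∑ l, v i * v l * w i j k l)
      * (gP P x x * (ω.curryLeft (e j) x * ω.curryLeft (e k) x) * ga x) := by
  unfold I1
  simp_rw [Finset.sum_mul]
  refine Finset.sum_congr rfl fun j _ => Finset.sum_congr rfl fun k _ =>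
    Finset.sum_congr rfl fun i _ => Finset.sum_congr rfl fun l _ => ?_
  ring

private theorem I1_int (w : Fin n → Fin n → Fin n → Fin n → ℝ) (v : Fin n → ℝ)
    (P : Matrix (Fin n) (Fin n) ℝ) {m : ℕ} (ω : Form n (m + 1)) :
    Integrable fun x : Fin m → E n => I1 w v P ω x * ga x := by
  simp_rw [I1_eq]
  exact integrable_finsetSum _ fun j _ => integrable_finsetSum _ fun k _ =>
    (int1 P (ω.curryLeft (e j)) (ω.curryLeft (e k))).const_mul _

private theorem I1_val (w : Fin n → Fin n → Fin n → Fin n → ℝ) (v : Fin n → ℝ)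
    {P : Matrix (Fin n) (Fin n) ℝ} {d m : ℕ} (hP : IsPr P (d + m)) (ω : Form n (m + 1))
    (hL : Lives P ω) :
    ∫ x : Fin m → E n, I1 w v P ω x * ga x = Z n ^ m * cM d m * tW w v ω := by
  simp_rw [I1_eq]
  rw [integral_finsetSum _ fun j _ => integrable_finsetSum _ fun k _ =>
    (int1 P (ω.curryLeft (e j)) (ω.curryLeft (e k))).const_mul _]
  unfold tW
  rw [Finset.mul_sum]
  refine Finset.sum_congr rfl fun j _ => ?_
  rw [integral_finsetSum _ fun k _ =>
    (int1 P (ω.curryLeft (e j)) (ω.curryLeft (e k))).const_mul _, Finset.mul_sum]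
  refine Finset.sum_congr rfl fun k _ => ?_
  rw [integral_const_mul, mom1 m d P hP ω hL]
  ring

private theorem curry_cons {m : ℕ} (ω : Form n (m + 2)) (y u : E n) (x : Fin m → E n) :
    ω.curryLeft u (Fin.cons y x : Fin (m + 1) → E n) = -(ω.curryLeft y).curryLeft u x := by
  have h1 : ω.curryLeft u (Fin.cons y x : Fin (m + 1) → E n)
      = (ω.curryLeft u).curryLeft y x := rfl
  rw [h1, curry_swap ω u y]
  rfl

private theorem I2_cons (w : Fin n → Fin n → Fin n → Fin n → ℝ)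
    {P : Matrix (Fin n) (Fin n) ℝ} {N : ℕ} (hP : IsPr P N) {m : ℕ} (ω : Form n (m + 2))
    (y : E n) (v : Fin n → ℝ) (hv : ∀ a, v a = ∑ b, P a b * y b) (r : ℝ)
    (hr : r = ∑ a, v a * v a) (hr0 : r ≠ 0) (x : Fin m → E n) :
    I2 w P ω (Fin.cons y x) = I1 w v (P - r⁻¹ • vecMulVec v v) (ω.curryLeft y) x
      + r * I2 w (P - r⁻¹ • vecMulVec v v) (ω.curryLeft y) x := by
  unfold I2 I1
  rw [Finset.mul_sum, ← Finset.sum_add_distrib]
  refine Finset.sum_congr rfl fun j _ => ?_
  rw [Finset.mul_sum, ← Finset.sum_add_distrib]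
  refine Finset.sum_congr rfl fun k _ => ?_
  rw [curry_cons, curry_cons, neg_mul_neg]
  have h1 : ∑ i, ∑ l, GG P (Fin.cons y x : Fin (m + 1) → E n) i l * w i j k l
      = (∑ i, ∑ l, v i * v l * w i j k l)
          * gP (P - r⁻¹ • vecMulVec v v) x x
        + r * ∑ i, ∑ l, GG (P - r⁻¹ • vecMulVec v v) x i l * w i j k l := by
    rw [Finset.mul_sum, Finset.sum_mul, ← Finset.sum_add_distrib]
    refine Finset.sum_congr rfl fun i _ => ?_
    rw [Finset.mul_sum, Finset.sum_mul, ← Finset.sum_add_distrib]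
    refine Finset.sum_congr rfl fun l _ => ?_
    rw [GG_cons hP y v hv r hr hr0 x i l]
    ring
  rw [h1]
  ring

/-- the vector `P y` -/
private theorem lives_vec {P : Matrix (Fin n) (Fin n) ℝ} {m : ℕ} {ω : Form n (m + 1)}
    (hL : Lives P ω) (y : E n) (v : Fin n → ℝ) (hv : ∀ a, v a = ∑ b, P a b * y b) :
    ω.curryLeft y = ω.curryLeft (vec v) := by
  have h0 : ∀ z : E n, ω.curryLeft z = ∑ a, z a • ω.curryLeft (e a) := by
    intro z
    conv_lhs => rw [← sum_coord z]
    simp only [map_sum, map_smul]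
  rw [h0 y, h0 (vec v)]
  simp only [vec_apply]
  have h1 : ∑ a, y a • ω.curryLeft (e a) = ∑ a, ∑ b, (P b a * y a) • ω.curryLeft (e b) := by
    refine Finset.sum_congr rfl fun a _ => ?_
    rw [← hL a, Finset.smul_sum]
    refine Finset.sum_congr rfl fun b _ => ?_
    rw [smul_smul, mul_comm]
  rw [h1, Finset.sum_comm]
  refine Finset.sum_congr rfl fun b _ => ?_
  rw [hv b, Finset.sum_smul]

/-- the projection of rank one less -/
private theorem sub_facts {P : Matrix (Fin n) (Fin n) ℝ} {N : ℕ} (hP : IsPr P (N + 1)) {m : ℕ}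
    {ω : Form n (m + 2)} (hL : Lives P ω) (w : Fin n → Fin n → Fin n → Fin n → ℝ)
    (y : E n) (v : Fin n → ℝ) (hv : ∀ a, v a = ∑ b, P a b * y b) (r : ℝ)
    (hr : r = ∑ a, v a * v a) (hr0 : r ≠ 0) :
    IsPr (P - r⁻¹ • vecMulVec v v) N ∧ Lives (P - r⁻¹ • vecMulVec v v) (ω.curryLeft y) ∧
    r * rP w (P - r⁻¹ • vecMulVec v v) (ω.curryLeft y)
      = r * rP w P (ω.curryLeft y) - tW w v (ω.curryLeft y) := by
  have hrp : 0 < r := by
    have h1 : 0 ≤ r := by
      rw [hr]
      exact Finset.sum_nonneg fun a _ => mul_self_nonneg _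
    exact lt_of_le_of_ne h1 (Ne.symm hr0)
  obtain ⟨c, hc⟩ : ∃ c : ℝ, c ^ 2 = r⁻¹ := ⟨(Real.sqrt r)⁻¹, by rw [inv_pow, Real.sq_sqrt hrp.le]⟩
  have hx : P - r⁻¹ • vecMulVec v v = P - vecMulVec (c • v) (c • v) := by
    rw [Matrix.smul_vecMulVec, Matrix.vecMulVec_smul, smul_smul, ← sq, hc]
  have hPv : P.mulVec v = v := by
    have h1 : v = P.mulVec fun b => y b := funext hv
    rw [h1, Matrix.mulVec_mulVec, hP.idem]
  have hvv : dotProduct v v = r := hr.symm
  rw [hx]
  refine ⟨hP.sub (c • v) ?_ ?_, ?_, ?_⟩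
  · rw [Matrix.mulVec_smul, hPv]
  · rw [smul_dotProduct, dotProduct_smul, hvv, smul_eq_mul, smul_eq_mul, ← mul_assoc, ← sq, hc,
      inv_mul_cancel₀ hr0]
  · refine (hL.curry y).sub (c • v) ?_
    have h1 : (vec (c • v) : E n) = c • vec v := by
      ext i
      simp
    rw [h1, map_smul, lives_vec hL y v hv, AlternatingMap.curryLeft_same, smul_zero]
  · have h1 := tW_smul w c 1 v (ω.curryLeft y)
    rw [one_smul] at h1
    rw [rP_sub, h1, hc]
    field_simp

/-- the inner integral, `r ≠ 0` -/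
private theorem inner_ne (w : Fin n → Fin n → Fin n → Fin n → ℝ) {d m : ℕ}
    {P : Matrix (Fin n) (Fin n) ℝ} (hP : IsPr P (d + m + 1)) {ω : Form n (m + 2)}
    (hL : Lives P ω) (y : E n) (v : Fin n → ℝ) (hv : ∀ a, v a = ∑ b, P a b * y b) (r : ℝ)
    (hr : r = ∑ a, v a * v a) (hr0 : r ≠ 0) :
    ∫ x : Fin m → E n, I2 w P ω (Fin.cons y x) * ga x
      = Z n ^ m * cM d m * tW w v (ω.curryLeft y)
        + r * ∫ x : Fin m → E n, I2 w (P - r⁻¹ • vecMulVec v v) (ω.curryLeft y) x * ga x := by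
  obtain ⟨hP1, hL1, -⟩ := sub_facts hP hL w y v hv r hr hr0
  have h1 : ∀ x : Fin m → E n, I2 w P ω (Fin.cons y x) * ga x
      = I1 w v (P - r⁻¹ • vecMulVec v v) (ω.curryLeft y) x * ga x
        + r * (I2 w (P - r⁻¹ • vecMulVec v v) (ω.curryLeft y) x * ga x) := by
    intro x
    rw [I2_cons w hP ω y v hv r hr hr0 x]
    ring
  simp_rw [h1]
  rw [integral_add (I1_int _ _ _ _) ((I2_int _ _ _).const_mul r), integral_const_mul,
    I1_val w v hP1 _ hL1]

/-- the inner integral, `r = 0` -/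
private theorem inner_zero (w : Fin n → Fin n → Fin n → Fin n → ℝ) {m : ℕ}
    {P : Matrix (Fin n) (Fin n) ℝ} {ω : Form n (m + 2)} (y : E n) (h0 : ω.curryLeft y = 0) :
    ∫ x : Fin m → E n, I2 w P ω (Fin.cons y x) * ga x = 0 := by
  have h1 : ∀ x : Fin m → E n, I2 w P ω (Fin.cons y x) * ga x = 0 := by
    intro x
    unfold I2
    have h2 : ∀ u : E n, ω.curryLeft u (Fin.cons y x : Fin (m + 1) → E n) = 0 := by
      intro u
      rw [curry_cons, h0]
      simp
    simp [h2]
  simp_rw [h1]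
  exact integral_zero _ _

private theorem zero_facts {P : Matrix (Fin n) (Fin n) ℝ} {m : ℕ}
    {ω : Form n (m + 1)} (hL : Lives P ω) (y : E n) (v : Fin n → ℝ)
    (hv : ∀ a, v a = ∑ b, P a b * y b) (hr0 : ∑ a, v a * v a = 0) :
    v = 0 ∧ ω.curryLeft y = 0 := by
  have h1 : v = 0 := dotProduct_self_eq_zero.mp hr0
  refine ⟨h1, ?_⟩
  rw [lives_vec hL y v hv, h1]
  have h2 : (vec (0 : Fin n → ℝ) : E n) = 0 := by
    ext i
    simp
  rw [h2, map_zero]

private theorem tW_zero {m : ℕ} (w : Fin n → Fin n → Fin n → Fin n → ℝ) (ω : Form n (m + 1)) :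
    tW w (0 : Fin n → ℝ) ω = 0 := by
  unfold tW
  simp

private theorem cM_succ (d q : ℕ) : cM d (q + 1) = cM d q * ((d : ℝ) + q + 3) := by
  unfold cM
  rw [Finset.prod_range_succ]

/-- Piece MO2 -/
theorem mom2 {w : Fin n → Fin n → Fin n → Fin n → ℝ} (h : IsCurv w) :
    ∀ (q d : ℕ) (P : Matrix (Fin n) (Fin n) ℝ), IsPr P (d + q + 1) →
    ∀ ω : Form n (q + 2), Lives P ω →
    ∫ x : Fin (q + 1) → E n, (∑ j, ∑ k, (∑ i, ∑ l, GG P x i l * w i j k l)
        * (ω.curryLeft (e j) x * ω.curryLeft (e k) x)) * ga x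
      = Z n ^ (q + 1) * (((q : ℝ) + 1) * cM d q) * (rP w P ω + 3 * QA w ω) := by
  intro q
  induction q with
  | zero =>
    intro d P hP ω hL
    have hfub := fub (I2 w P ω) (I2_int w P ω)
    refine hfub.trans ?_
    have hin : ∀ y : E n, ∫ x : Fin 0 → E n, I2 w P ω (Fin.cons y x) * ga x
        = tW w (fun a => ∑ b, P a b * y b) (ω.curryLeft y) := by
      intro y
      by_cases hr0 : ∑ a, (∑ b, P a b * y b) * (∑ b, P a b * y b) = 0
      · obtain ⟨h1, h2⟩ := zero_facts hL y (fun a => ∑ b, P a b * y b) (fun _ => rfl) hr0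
        rw [inner_zero w y h2, h1, tW_zero]
      · rw [inner_ne w hP hL y (fun a => ∑ b, P a b * y b) (fun _ => rfl) _ rfl hr0]
        have h3 : ∀ (P' : Matrix (Fin n) (Fin n) ℝ) (ω' : Form n 1) (x : Fin 0 → E n),
            I2 w P' ω' x = 0 := by
          intro P' ω' x
          have h4 : ∀ i l, GG P' x i l = 0 := by
            intro i l
            unfold GG gP
            rw [Matrix.det_fin_zero, Matrix.det_fin_one, Matrix.of_apply, one_mul]
            have h5 : ∑ a, ∑ b, (Fin.cons (e i) x : Fin 1 → E n) 0 a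
                * (Fin.cons (e l) x : Fin 1 → E n) 0 b * P' a b = P' i l := by
              rw [Fin.cons_zero, Fin.cons_zero, Finset.sum_eq_single i]
              · rw [Finset.sum_eq_single l]
                · simp [e]
                · intro b _ hb
                  simp [e, hb]
                · simp
              · intro a _ ha
                refine Finset.sum_eq_zero fun b _ => ?_
                simp [e, ha]
              · simp
            rw [h5, sub_self]
          unfold I2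
          simp [h4]
        simp only [h3, zero_mul, integral_zero, mul_zero, add_zero]
        unfold cM
        simp
    simp_rw [hin]
    rw [(mean_tW h hP ω hL).2]
    unfold cM
    simp
  | succ q ih =>
    intro d P hP ω hL
    have hfub := fub (I2 w P ω) (I2_int w P ω)
    refine hfub.trans ?_
    have hin : ∀ y : E n, ∫ x : Fin (q + 1) → E n, I2 w P ω (Fin.cons y x) * ga x
        = (Z n ^ (q + 1) * cM d (q + 1) - Z n ^ (q + 1) * (((q : ℝ) + 1) * cM d q))
            * tW w (fun a => ∑ b, P a b * y b) (ω.curryLeft y)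
          + Z n ^ (q + 1) * (((q : ℝ) + 1) * cM d q)
            * ((∑ a, (∑ b, P a b * y b) * (∑ b, P a b * y b))
              * (rP w P (ω.curryLeft y) + 3 * QA w (ω.curryLeft y))) := by
      intro y
      by_cases hr0 : ∑ a, (∑ b, P a b * y b) * (∑ b, P a b * y b) = 0
      · obtain ⟨h1, h2⟩ := zero_facts hL y (fun a => ∑ b, P a b * y b) (fun _ => rfl) hr0
        rw [inner_zero w y h2, h1, tW_zero, hr0]
        ring
      · obtain ⟨hP1, hL1, h1⟩ := sub_facts (N := d + (q + 1)) hP hL w y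
          (fun a => ∑ b, P a b * y b) (fun _ => rfl) _ rfl hr0
        rw [inner_ne w (d := d) (m := q + 1) hP hL y (fun a => ∑ b, P a b * y b) (fun _ => rfl) _
          rfl hr0]
        have h2 := ih d _ hP1 (ω.curryLeft y) hL1
        have h4 : ∫ x : Fin (q + 1) → E n,
            I2 w (P - (∑ a, (∑ b, P a b * y b) * (∑ b, P a b * y b))⁻¹ •
              vecMulVec (fun a => ∑ b, P a b * y b) (fun a => ∑ b, P a b * y b))
              (ω.curryLeft y) x * ga x = _ := h2
        rw [h4]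
        linear_combination (Z n ^ (q + 1) * (((q : ℝ) + 1) * cM d q)) * h1
    obtain ⟨i1, e1⟩ := mean_tW h hP (q := q + 1) ω hL
    obtain ⟨i2, e2⟩ := mean_rQ (w := w) hP (q := q) ω hL
    have hsplit : ∀ y : E n, (∫ x : Fin (q + 1) → E n, I2 w P ω (Fin.cons y x) * ga x)
          * exp (-‖y‖ ^ 2 / 2)
        = (Z n ^ (q + 1) * cM d (q + 1) - Z n ^ (q + 1) * (((q : ℝ) + 1) * cM d q))
            * (tW w (fun a => ∑ b, P a b * y b) (ω.curryLeft y) * exp (-‖y‖ ^ 2 / 2))
          + Z n ^ (q + 1) * (((q : ℝ) + 1) * cM d q)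
            * ((∑ a, (∑ b, P a b * y b) * (∑ b, P a b * y b))
              * (rP w P (ω.curryLeft y) + 3 * QA w (ω.curryLeft y)) * exp (-‖y‖ ^ 2 / 2)) := by
      intro y
      rw [hin]
      ring
    simp_rw [hsplit]
    rw [integral_add (i1.const_mul _) (i2.const_mul _), integral_const_mul, integral_const_mul,
      e1, e2, cM_succ]
    push_cast
    ring

end Pool.Agent.H21.OE
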