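import Pool.Agent.H21.OE.J
import Pool.Agent.H21.OE.MO2
import Pool.Agent.H91.OD.E

set_option autoImplicit false

/-! The sharp second contraction bound in odd codegree. -/

namespace Pool.Agent.H21.OE

open Pool.Agent.H61.YP Pool.Agent.H8.RG Pool.Agent.H91.OC
open Pool.Agent.H91.OD (Z Z_pos gauss_mul psd_approx)
open MeasureTheory Set Real
open scoped ENNReal RealInnerProductSpace

variable {n : ℕ}

/-- the vector `ω(·, X)` -/
noncomputable def Yv {q : ℕ} (ω : Form n (q + 2)) (X : Fin (q + 1) → E n) : E n :=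
  vec fun a => ω.curryLeft (e a) X

lemma Yv_apply {q : ℕ} (ω : Form n (q + 2)) (X : Fin (q + 1) → E n) (a : Fin n) :
    Yv ω X a = ω.curryLeft (e a) X := rfl

lemma Yv_cons {q : ℕ} (ω : Form n (q + 2)) (x : E n) (y : Fin q → E n) :
    Yv ω (Fin.cons x y) = YL ω y x := rfl

lemma Yv_cont {q : ℕ} (ω : Form n (q + 2)) : Continuous fun X => Yv ω X := by
  have h1 : Continuous fun X : Fin (q + 1) → E n => (fun a => ω.curryLeft (e a) X : Fin n → ℝ) :=
    continuous_pi fun a => form_cont (ω.curryLeft (e a))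
  exact (PiLp.continuous_toLp 2 _).comp h1

/-- alternating form of the Gram determinant in the first family -/
noncomputable def gdA {m : ℕ} (v' : Fin m → E n) : Form n m :=
  (Matrix.detRowAlternating (n := Fin m) (R := ℝ)).compLinearMap
    (LinearMap.pi fun j => (innerₛₗ ℝ (v' j) : E n →ₗ[ℝ] ℝ))

lemma gdA_apply {m : ℕ} (v v' : Fin m → E n) : gdA v' v = gd v v' := by
  unfold gdA gd
  change Matrix.det (fun i j => ⟪v' j, v i⟫) = _
  congr 1
  ext i j
  simp only [Matrix.of_apply]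
  exact real_inner_comm _ _

lemma gd_comm {m : ℕ} (v v' : Fin m → E n) : gd v v' = gd v' v := by
  unfold gd
  rw [← Matrix.det_transpose]
  congr 1
  ext i j
  simp only [Matrix.transpose_apply, Matrix.of_apply]
  exact real_inner_comm _ _

lemma gd_expand {m : ℕ} (z : Fin n → ℝ) (x v' : Fin m → E n) (z' : E n) :
    gd (Fin.cons (vec z) x) (Fin.cons z' v')
      = ∑ i, z i * gd (Fin.cons (e i) x) (Fin.cons z' v') := by
  rw [← gdA_apply]
  have h1 : gdA (Fin.cons z' v' : Fin (m + 1) → E n) (Fin.cons (vec z) x)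
      = ((gdA (Fin.cons z' v' : Fin (m + 1) → E n)).curryLeft (vec z)) x := rfl
  have h2 : ∀ i, gd (Fin.cons (e i) x) (Fin.cons z' v')
      = ((gdA (Fin.cons z' v' : Fin (m + 1) → E n)).curryLeft (e i)) x := by
    intro i
    rw [← gdA_apply]; rfl
  rw [h1]
  simp_rw [h2]
  let L : E n →ₗ[ℝ] ℝ :=
    { toFun := fun y => ((gdA (Fin.cons z' v' : Fin (m + 1) → E n)).curryLeft y) x
      map_add' := fun a b => by rw [map_add]; rfl
      map_smul' := fun c a => by rw [map_smul]; rfl }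
  have h3 : L (vec z) = ∑ i, z i * L (e i) := by
    conv_lhs => rw [← sum_coord (vec z)]
    simp only [map_sum, map_smul, smul_eq_mul, vec_apply]
  exact h3

lemma gd_quad {m : ℕ} (z : Fin n → ℝ) (x : Fin m → E n) :
    gd (Fin.cons (vec z) x) (Fin.cons (vec z) x)
      = ∑ i, ∑ l, z i * z l * gd (Fin.cons (e i) x) (Fin.cons (e l) x) := by
  rw [gd_expand]
  refine Finset.sum_congr rfl fun i _ => ?_
  rw [gd_comm, gd_expand, Finset.mul_sum]
  refine Finset.sum_congr rfl fun l _ => ?_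
  rw [gd_comm]; ring

lemma gP_one {m : ℕ} (x y : Fin m → E n) : gP (1 : Matrix (Fin n) (Fin n) ℝ) x y = gd x y := by
  unfold gP gd
  congr 1
  ext i l
  simp only [Matrix.of_apply]
  rw [PiLp.inner_apply]
  refine Finset.sum_congr rfl fun a _ => ?_
  rw [Finset.sum_eq_single a]
  · rw [Matrix.one_apply_eq, mul_one]
    simp [mul_comm]
  · intro b _ hb
    rw [Matrix.one_apply_ne hb.symm, mul_zero]
  · simp

/-- the matrix integrand -/
noncomputable def SS {q : ℕ} (ω : Form n (q + 2)) (X : Fin (q + 1) → E n) :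
    Matrix (Fin n) (Fin n) ℝ := Matrix.of fun i l =>
  (((n : ℝ) + 1) * (gP 1 X X * (‖Yv ω X‖ ^ 2 * (1 : Matrix (Fin n) (Fin n) ℝ) i l
    - Yv ω X i * Yv ω X l)) - ((n : ℝ) + 1 + 1) * (‖Yv ω X‖ ^ 2 * GG 1 X i l)) * ga X

/-- the first kernel as a function of all the vectors -/
noncomputable def l₁ {q : ℕ} (ω : Form n (q + 2)) (z : Fin n → ℝ) (X : Fin (q + 1) → E n) : ℝ :=
  ((n : ℝ) + 1 + 1) * (‖Yv ω X‖ ^ 2 * (∑ i, ∑ l, z i * z l * GG 1 X i l) * ga X)

noncomputable def l₂ {q : ℕ} (ω : Form n (q + 2)) (z : Fin n → ℝ) (X : Fin (q + 1) → E n) : ℝ :=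
  ((n : ℝ) + 1) * (gP 1 X X * (‖vec z‖ ^ 2 * ‖Yv ω X‖ ^ 2 - ⟪vec z, Yv ω X⟫ ^ 2) * ga X)

lemma ga_cons {j : ℕ} (x : E n) (y : Fin j → E n) :
    ga (Fin.cons x y : Fin (j + 1) → E n) = exp (-(‖x‖ ^ 2 + ∑ i, ‖y i‖ ^ 2) / 2) := by
  unfold ga
  rw [Fin.sum_univ_succ]
  simp only [Fin.cons_zero, Fin.cons_succ]

lemma quad_one (z : Fin n → ℝ) :
    ∑ i, ∑ l, z i * z l * (1 : Matrix (Fin n) (Fin n) ℝ) i l = ‖vec z‖ ^ 2 := by
  rw [norm_sq]
  refine Finset.sum_congr rfl fun i _ => ?_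
  rw [Finset.sum_eq_single i]
  · rw [Matrix.one_apply_eq, vec_apply]; ring
  · intro b _ hb
    rw [Matrix.one_apply_ne hb.symm, mul_zero]
  · simp

lemma quad_GG {m : ℕ} (z : Fin n → ℝ) (X : Fin m → E n) :
    ∑ i, ∑ l, z i * z l * GG 1 X i l
      = ‖vec z‖ ^ 2 * gd X X - gd (Fin.cons (vec z) X) (Fin.cons (vec z) X) := by
  unfold GG
  simp_rw [gP_one]
  rw [gd_quad, ← quad_one, Finset.sum_mul, ← Finset.sum_sub_distrib]
  refine Finset.sum_congr rfl fun i _ => ?_
  rw [Finset.sum_mul, ← Finset.sum_sub_distrib]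
  refine Finset.sum_congr rfl fun l _ => ?_
  ring

lemma l₁_cons {q : ℕ} (ω : Form n (q + 2)) (z : Fin n → ℝ) (x : E n) (y : Fin q → E n) :
    l₁ ω z (Fin.cons x y) = k₁ ω (vec z) x y := by
  unfold l₁ k₁
  rw [quad_GG, ga_cons, Yv_cons]

lemma l₂_cons {q : ℕ} (ω : Form n (q + 2)) (z : Fin n → ℝ) (x : E n) (y : Fin q → E n) :
    l₂ ω z (Fin.cons x y) = k₂ ω (vec z) x y := by
  unfold l₂ k₂
  rw [gP_one, ga_cons, Yv_cons]

lemma l₁_nonneg {q : ℕ} (ω : Form n (q + 2)) (z : Fin n → ℝ) (X : Fin (q + 1) → E n) :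
    0 ≤ l₁ ω z X := by
  unfold l₁
  rw [quad_GG]
  have h1 := gd_le (vec z) X
  have h2 : 0 < ga X := exp_pos _
  have h3 : (0 : ℝ) ≤ n := Nat.cast_nonneg n
  refine mul_nonneg (by linarith) (mul_nonneg (mul_nonneg (sq_nonneg _) (by linarith)) h2.le)

lemma l₂_nonneg {q : ℕ} (ω : Form n (q + 2)) (z : Fin n → ℝ) (X : Fin (q + 1) → E n) :
    0 ≤ l₂ ω z X := by
  unfold l₂
  rw [gP_one]
  have h1 := gd_nonneg X
  have h2 : 0 < ga X := exp_pos _
  have h3 : (0 : ℝ) ≤ n := Nat.cast_nonneg n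
  have h4 : ⟪vec z, Yv ω X⟫ ^ 2 ≤ ‖vec z‖ ^ 2 * ‖Yv ω X‖ ^ 2 := by
    rw [← mul_pow]
    exact sq_le_sq' (neg_le_of_abs_le (abs_real_inner_le_norm _ _)) (real_inner_le_norm _ _)
  refine mul_nonneg (by linarith) (mul_nonneg (mul_nonneg h1 (by linarith)) h2.le)

lemma SS_quad {q : ℕ} (ω : Form n (q + 2)) (z : Fin n → ℝ) (X : Fin (q + 1) → E n) :
    ∑ i, ∑ l, z i * z l * SS ω X i l = l₂ ω z X - l₁ ω z X := by
  have h1 : ∀ i l, z i * z l * SS ω X i l
      = ((n : ℝ) + 1) * gP 1 X X * ‖Yv ω X‖ ^ 2 * ga X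
          * (z i * z l * (1 : Matrix (Fin n) (Fin n) ℝ) i l)
        - ((n : ℝ) + 1) * gP 1 X X * ga X * ((z i * Yv ω X i) * (z l * Yv ω X l))
        - ((n : ℝ) + 1 + 1) * ‖Yv ω X‖ ^ 2 * ga X * (z i * z l * GG 1 X i l) := by
    intro i l
    unfold SS
    simp only [Matrix.of_apply]
    ring
  simp_rw [h1, Finset.sum_sub_distrib, ← Finset.mul_sum, ← Finset.sum_mul]
  rw [quad_one]
  have h2 : ∑ i, z i * Yv ω X i = ⟪vec z, Yv ω X⟫ := by
    rw [PiLp.inner_apply]
    refine Finset.sum_congr rfl fun i _ => ?_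
    simp [mul_comm]
  rw [h2]
  unfold l₁ l₂
  ring

lemma SS_expand {q : ℕ} (ω : Form n (q + 2)) (i l : Fin n) :
    (fun X => SS ω X i l) = fun X =>
      ((n : ℝ) + 1) * (1 : Matrix (Fin n) (Fin n) ℝ) i l *
          (∑ a, gP 1 X X * (ω.curryLeft (e a) X * ω.curryLeft (e a) X) * ga X)
        - ((n : ℝ) + 1) * (gP 1 X X * (ω.curryLeft (e i) X * ω.curryLeft (e l) X) * ga X)
        - ((n : ℝ) + 1 + 1) *
          (∑ a, GG 1 X i l * (ω.curryLeft (e a) X * ω.curryLeft (e a) X) * ga X) := by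
  funext X
  unfold SS
  simp only [Matrix.of_apply]
  rw [norm_sq]
  simp only [Yv_apply]
  have h1 : ∑ a, gP 1 X X * (ω.curryLeft (e a) X * ω.curryLeft (e a) X) * ga X
      = (∑ a, (ω.curryLeft (e a) X) ^ 2) * (gP 1 X X * ga X) := by
    rw [Finset.sum_mul]
    exact Finset.sum_congr rfl fun a _ => by ring
  have h2 : ∑ a, GG 1 X i l * (ω.curryLeft (e a) X * ω.curryLeft (e a) X) * ga X
      = (∑ a, (ω.curryLeft (e a) X) ^ 2) * (GG 1 X i l * ga X) := by
    rw [Finset.sum_mul]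
    exact Finset.sum_congr rfl fun a _ => by ring
  rw [h1, h2]
  ring

lemma SS_int {q : ℕ} (ω : Form n (q + 2)) (i l : Fin n) :
    Integrable fun X => SS ω X i l := by
  rw [SS_expand]
  refine Integrable.sub (Integrable.sub ?_ ?_) ?_
  · exact (integrable_finsetSum _ fun a _ => int1 1 _ _).const_mul _
  · exact (int1 1 _ _).const_mul _
  · exact (integrable_finsetSum _ fun a _ => int2 1 _ _ i l).const_mul _

lemma l₁_int {q : ℕ} (ω : Form n (q + 2)) (z : Fin n → ℝ) : Integrable (l₁ ω z) := by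
  have h1 : l₁ ω z = fun X => ∑ i, ∑ l, ∑ a, (((n : ℝ) + 1 + 1) * (z i * z l)) *
      (GG 1 X i l * (ω.curryLeft (e a) X * ω.curryLeft (e a) X) * ga X) := by
    funext X
    unfold l₁
    rw [norm_sq]
    simp only [Yv_apply]
    have h2 : ∀ i l, ∑ a, (((n : ℝ) + 1 + 1) * (z i * z l)) *
        (GG 1 X i l * (ω.curryLeft (e a) X * ω.curryLeft (e a) X) * ga X)
        = (((n : ℝ) + 1 + 1) * (∑ a, (ω.curryLeft (e a) X) ^ 2) * ga X)
          * (z i * z l * GG 1 X i l) := by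
      intro i l
      rw [← Finset.mul_sum]
      have h3 : ∑ a, GG 1 X i l * (ω.curryLeft (e a) X * ω.curryLeft (e a) X) * ga X
          = (∑ a, (ω.curryLeft (e a) X) ^ 2) * (GG 1 X i l * ga X) := by
        rw [Finset.sum_mul]
        exact Finset.sum_congr rfl fun a _ => by ring
      rw [h3]
      ring
    simp_rw [h2, ← Finset.mul_sum]
    ring
  rw [h1]
  exact integrable_finsetSum _ fun i _ => integrable_finsetSum _ fun l _ =>
    integrable_finsetSum _ fun a _ => (int2 1 _ _ i l).const_mul _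

lemma l₂_int {q : ℕ} (ω : Form n (q + 2)) (z : Fin n → ℝ) : Integrable (l₂ ω z) := by
  have h1 : l₂ ω z = fun X => l₁ ω z X + ∑ i, ∑ l, (z i * z l) * SS ω X i l := by
    funext X
    rw [SS_quad]
    ring
  rw [h1]
  exact (l₁_int ω z).add (integrable_finsetSum _ fun i _ => integrable_finsetSum _ fun l _ =>
    (SS_int ω i l).const_mul _)

lemma lfub {j : ℕ} (F : (Fin (j + 1) → E n) → ℝ≥0∞) (hF : Measurable F) :
    ∫⁻ X, F X = ∫⁻ x : E n, ∫⁻ y : Fin j → E n, F (Fin.cons x y) := by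
  have h := (volume_preserving_piFinSuccAbove (fun _ : Fin (j + 1) => E n) 0).symm
  rw [← h.lintegral_comp hF, Measure.volume_eq_prod, lintegral_prod]
  · refine lintegral_congr fun x => lintegral_congr fun y => ?_
    congr 1
    ext i
    simp [MeasurableEquiv.piFinSuccAbove]
  · exact (hF.comp (MeasurableEquiv.measurable _)).aemeasurable

lemma lin_le (k q : ℕ) (hk : Odd k) (hn : n = k + q + 2) (ω : Form n (q + 2)) (z : Fin n → ℝ)
    (hz : ‖vec z‖ = 1) (B : Set (E n)) (hB : MeasurableSet B)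
    (hom : ∀ (c : ℝ) (v : E n), 0 < c → (c • v ∈ B ↔ v ∈ B)) :
    ∫ X, B.indicator 1 (Yv ω X) * l₁ ω z X ≤ ∫ X, B.indicator 1 (Yv ω X) * l₂ ω z X := by
  have hYm : Measurable fun X : Fin (q + 1) → E n => Yv ω X := (Yv_cont ω).measurable
  have hind : Measurable fun Y : E n => (B.indicator (1 : E n → ℝ) Y) :=
    measurable_one.indicator hB
  have hbd : ∀ Y : E n, ‖B.indicator (1 : E n → ℝ) Y‖ ≤ 1 := by
    intro Y
    by_cases hY : Y ∈ B
    · simp [hY]
    · simp [hY]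
  have hnn : ∀ Y : E n, 0 ≤ B.indicator (1 : E n → ℝ) Y := by
    intro Y
    exact Set.indicator_nonneg (fun _ _ => zero_le_one) Y
  have i1 : Integrable fun X => B.indicator 1 (Yv ω X) * l₁ ω z X :=
    (l₁_int ω z).bdd_mul (hind.comp hYm).aestronglyMeasurable (Filter.Eventually.of_forall
      fun X => hbd _)
  have i2 : Integrable fun X => B.indicator 1 (Yv ω X) * l₂ ω z X :=
    (l₂_int ω z).bdd_mul (hind.comp hYm).aestronglyMeasurable (Filter.Eventually.of_forall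
      fun X => hbd _)
  have n1 : ∀ X, 0 ≤ B.indicator 1 (Yv ω X) * l₁ ω z X :=
    fun X => mul_nonneg (hnn _) (l₁_nonneg ω z X)
  have n2 : ∀ X, 0 ≤ B.indicator 1 (Yv ω X) * l₂ ω z X :=
    fun X => mul_nonneg (hnn _) (l₂_nonneg ω z X)
  set f : E n → ℝ≥0∞ := B.indicator 1 with hf
  have hfm : Measurable f := measurable_one.indicator hB
  have hfhom : ∀ (c : ℝ) (Y : E n), 0 < c → f (c • Y) = f Y := by
    intro c Y hc
    by_cases hY : Y ∈ B
    · rw [hf, Set.indicator_of_mem hY, Set.indicator_of_mem ((hom c Y hc).mpr hY)]; rfl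
    · rw [hf, Set.indicator_of_notMem hY,
        Set.indicator_of_notMem (fun h => hY ((hom c Y hc).mp h))]
  have hof : ∀ Y : E n, ENNReal.ofReal (B.indicator 1 Y) = f Y := by
    intro Y
    by_cases hY : Y ∈ B
    · rw [hf, Set.indicator_of_mem hY, Set.indicator_of_mem hY]; simp
    · rw [hf, Set.indicator_of_notMem hY, Set.indicator_of_notMem hY]; simp
  have key := ineqI k q hk hn ω (vec z) hz f hfm hfhom
  have m1 : Measurable fun X : Fin (q + 1) → E n =>
      ENNReal.ofReal (l₁ ω z X) * f (Yv ω X) := by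
    refine Measurable.mul ?_ (hfm.comp hYm)
    have h1 : Continuous fun X : Fin (q + 1) → E n => k₁ ω (vec z) (X 0) (Fin.tail X) := by
      refine (k₁_cont ω (vec z)).comp (f := fun X : Fin (q + 1) → E n => (X 0, Fin.tail X)) ?_
      exact (continuous_apply 0).prodMk (continuous_pi fun i => continuous_apply i.succ)
    have h2 : (l₁ ω z) = fun X : Fin (q + 1) → E n => k₁ ω (vec z) (X 0) (Fin.tail X) := by
      funext X
      conv_lhs => rw [← Fin.cons_self_tail X]
      exact l₁_cons ω z _ _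
    rw [h2]
    exact h1.measurable.ennreal_ofReal
  have m2 : Measurable fun X : Fin (q + 1) → E n =>
      ENNReal.ofReal (l₂ ω z X) * f (Yv ω X) := by
    refine Measurable.mul ?_ (hfm.comp hYm)
    have h1 : Continuous fun X : Fin (q + 1) → E n => k₂ ω (vec z) (X 0) (Fin.tail X) := by
      refine (k₂_cont ω (vec z)).comp (f := fun X : Fin (q + 1) → E n => (X 0, Fin.tail X)) ?_
      exact (continuous_apply 0).prodMk (continuous_pi fun i => continuous_apply i.succ)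
    have h2 : (l₂ ω z) = fun X : Fin (q + 1) → E n => k₂ ω (vec z) (X 0) (Fin.tail X) := by
      funext X
      conv_lhs => rw [← Fin.cons_self_tail X]
      exact l₂_cons ω z _ _
    rw [h2]
    exact h1.measurable.ennreal_ofReal
  have c1 : ENNReal.ofReal (∫ X, B.indicator 1 (Yv ω X) * l₁ ω z X)
      = ∫⁻ x : E n, ∫⁻ y : Fin q → E n, ENNReal.ofReal (k₁ ω (vec z) x y) * f (YL ω y x) := by
    rw [ofReal_integral_eq_lintegral_ofReal i1 (Filter.Eventually.of_forall n1)]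
    have h1 : ∀ X, ENNReal.ofReal (B.indicator 1 (Yv ω X) * l₁ ω z X)
        = ENNReal.ofReal (l₁ ω z X) * f (Yv ω X) := by
      intro X
      rw [ENNReal.ofReal_mul (hnn _), hof, mul_comm]
    simp_rw [h1]
    rw [lfub _ m1]
    simp_rw [l₁_cons, Yv_cons]
  have c2 : ENNReal.ofReal (∫ X, B.indicator 1 (Yv ω X) * l₂ ω z X)
      = ∫⁻ x : E n, ∫⁻ y : Fin q → E n, ENNReal.ofReal (k₂ ω (vec z) x y) * f (YL ω y x) := by
    rw [ofReal_integral_eq_lintegral_ofReal i2 (Filter.Eventually.of_forall n2)]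
    have h1 : ∀ X, ENNReal.ofReal (B.indicator 1 (Yv ω X) * l₂ ω z X)
        = ENNReal.ofReal (l₂ ω z X) * f (Yv ω X) := by
      intro X
      rw [ENNReal.ofReal_mul (hnn _), hof, mul_comm]
    simp_rw [h1]
    rw [lfub _ m2]
    simp_rw [l₂_cons, Yv_cons]
  rw [← c1, ← c2] at key
  exact (ENNReal.ofReal_le_ofReal_iff (integral_nonneg n2)).mp key

lemma H_all (k q : ℕ) (hk : Odd k) (hn : n = k + q + 2) (ω : Form n (q + 2)) (z : Fin n → ℝ)
    (B : Set (E n)) (hB : MeasurableSet B)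
    (hom : ∀ (c : ℝ) (v : E n), 0 < c → (c • v ∈ B ↔ v ∈ B)) :
    0 ≤ ∫ X, B.indicator 1 (Yv ω X) * (∑ i, ∑ l, z i * z l * SS ω X i l) := by
  have hYm : Measurable fun X : Fin (q + 1) → E n => Yv ω X := (Yv_cont ω).measurable
  have hind : Measurable fun Y : E n => (B.indicator (1 : E n → ℝ) Y) :=
    measurable_one.indicator hB
  have hbd : ∀ Y : E n, ‖B.indicator (1 : E n → ℝ) Y‖ ≤ 1 := by
    intro Y
    by_cases hY : Y ∈ B
    · simp [hY]
    · simp [hY]
  have unit : ∀ z : Fin n → ℝ, ‖vec z‖ = 1 →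
      0 ≤ ∫ X, B.indicator 1 (Yv ω X) * (∑ i, ∑ l, z i * z l * SS ω X i l) := by
    intro z hz
    have i1 : Integrable fun X => B.indicator 1 (Yv ω X) * l₁ ω z X :=
      (l₁_int ω z).bdd_mul (hind.comp hYm).aestronglyMeasurable (Filter.Eventually.of_forall
        fun X => hbd _)
    have i2 : Integrable fun X => B.indicator 1 (Yv ω X) * l₂ ω z X :=
      (l₂_int ω z).bdd_mul (hind.comp hYm).aestronglyMeasurable (Filter.Eventually.of_forall
        fun X => hbd _)
    simp_rw [SS_quad, mul_sub]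
    rw [integral_sub i2 i1]
    linarith [lin_le k q hk hn ω z hz B hB hom]
  by_cases hz0 : z = 0
  · subst hz0
    simp
  · have hv : vec z ≠ 0 := by
      intro h
      apply hz0
      ext i
      have := congrArg (fun u : E n => u i) h
      simpa using this
    have hvn : 0 < ‖vec z‖ := norm_pos_iff.mpr hv
    have h1 := unit (‖vec z‖⁻¹ • z) (by
      have h2 : (vec (‖vec z‖⁻¹ • z) : E n) = ‖vec z‖⁻¹ • vec z := by
        ext i; simp
      rw [h2, norm_smul, norm_inv, norm_norm, inv_mul_cancel₀ hvn.ne'])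
    have h3 : ∀ X, B.indicator 1 (Yv ω X) * (∑ i, ∑ l, (‖vec z‖⁻¹ • z) i * (‖vec z‖⁻¹ • z) l
          * SS ω X i l)
        = (‖vec z‖⁻¹) ^ 2
          * (B.indicator 1 (Yv ω X) * (∑ i, ∑ l, z i * z l * SS ω X i l)) := by
      intro X
      have h4 : ∑ i, ∑ l, (‖vec z‖⁻¹ • z) i * (‖vec z‖⁻¹ • z) l * SS ω X i l
          = (‖vec z‖⁻¹) ^ 2 * ∑ i, ∑ l, z i * z l * SS ω X i l := by
        rw [Finset.mul_sum]
        refine Finset.sum_congr rfl fun i _ => ?_
        rw [Finset.mul_sum]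
        refine Finset.sum_congr rfl fun l _ => ?_
        simp only [Pi.smul_apply, smul_eq_mul]
        ring
      rw [h4]
      ring
    simp_rw [h3] at h1
    rw [integral_const_mul] at h1
    exact nonneg_of_mul_nonneg_right h1 (by positivity)

/-- the matrix of the curvature in direction `Y`, normalised -/
noncomputable def QQ (w : Fin n → Fin n → Fin n → Fin n → ℝ) (Y : E n) :
    Matrix (Fin n) (Fin n) ℝ :=
  Matrix.of fun i l => (‖Y‖ ^ 2)⁻¹ * ∑ j, ∑ k, w i j k l * (Y j * Y k)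

lemma QQ_meas (w : Fin n → Fin n → Fin n → Fin n → ℝ) (i l : Fin n) :
    Measurable fun Y => QQ w Y i l := by
  unfold QQ
  simp only [Matrix.of_apply]
  refine Measurable.mul ?_ ?_
  · exact ((continuous_norm.pow 2).measurable).inv
  · refine Finset.measurable_fun_sum _ fun j _ => Finset.measurable_fun_sum _ fun k _ => ?_
    have h1 : ∀ j : Fin n, Measurable fun Y : E n => Y j := fun j =>
      (EuclideanSpace.proj (𝕜 := ℝ) j).continuous.measurable
    exact ((h1 j).mul (h1 k)).const_mul _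

lemma QQ_bdd (w : Fin n → Fin n → Fin n → Fin n → ℝ) :
    ∃ C : ℝ, ∀ (Y : E n) (i l : Fin n), |QQ w Y i l| ≤ C := by
  refine ⟨∑ i, ∑ j, ∑ k, ∑ l, |w i j k l|, fun Y i l => ?_⟩
  have hc : ∀ j, |Y j| ≤ ‖Y‖ := fun j => by
    have := PiLp.norm_apply_le Y j
    simpa using this
  have h1 : |QQ w Y i l| ≤ ∑ j, ∑ k, |w i j k l| := by
    unfold QQ
    simp only [Matrix.of_apply]
    by_cases hY : ‖Y‖ ^ 2 = 0
    · rw [hY, inv_zero, zero_mul, abs_zero]
      exact Finset.sum_nonneg fun j _ => Finset.sum_nonneg fun k _ => abs_nonneg _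
    have hY' : 0 < ‖Y‖ ^ 2 := lt_of_le_of_ne (sq_nonneg _) (Ne.symm hY)
    rw [abs_mul, abs_of_nonneg (inv_nonneg.mpr hY'.le), inv_mul_le_iff₀ hY', Finset.mul_sum]
    refine (Finset.abs_sum_le_sum_abs _ _).trans (Finset.sum_le_sum fun j _ => ?_)
    rw [Finset.mul_sum]
    refine (Finset.abs_sum_le_sum_abs _ _).trans (Finset.sum_le_sum fun k _ => ?_)
    rw [abs_mul, abs_mul, mul_comm (‖Y‖ ^ 2)]
    refine mul_le_mul_of_nonneg_left ?_ (abs_nonneg _)
    rw [sq]
    exact mul_le_mul (hc j) (hc k) (abs_nonneg _) (norm_nonneg _)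
  refine h1.trans ?_
  have h2 : ∑ j, ∑ k, |w i j k l| ≤ ∑ j, ∑ k, ∑ l, |w i j k l| :=
    Finset.sum_le_sum fun j _ => Finset.sum_le_sum fun k _ =>
      Finset.single_le_sum (f := fun l => |w i j k l|) (fun l _ => abs_nonneg _)
        (Finset.mem_univ l)
  refine h2.trans ?_
  exact Finset.single_le_sum (f := fun i => ∑ j, ∑ k, ∑ l, |w i j k l|)
    (fun i _ => Finset.sum_nonneg fun j _ => Finset.sum_nonneg fun k _ =>
      Finset.sum_nonneg fun l _ => abs_nonneg _) (Finset.mem_univ i)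

lemma QQ_hom (w : Fin n → Fin n → Fin n → Fin n → ℝ) (c : ℝ) (Y : E n) (hc : 0 < c) :
    QQ w (c • Y) = QQ w Y := by
  unfold QQ
  ext i l
  simp only [Matrix.of_apply]
  have h1 : ∑ j, ∑ k, w i j k l * ((c • Y) j * (c • Y) k)
      = c ^ 2 * ∑ j, ∑ k, w i j k l * (Y j * Y k) := by
    rw [Finset.mul_sum]
    refine Finset.sum_congr rfl fun j _ => ?_
    rw [Finset.mul_sum]
    refine Finset.sum_congr rfl fun k _ => ?_
    simp only [PiLp.smul_apply, smul_eq_mul]
    ring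
  rw [h1, norm_smul, mul_pow, Real.norm_eq_abs, sq_abs, mul_inv]
  field_simp

lemma QQ_psd {w : Fin n → Fin n → Fin n → Fin n → ℝ} (h : IsCurv w)
    (hpos : ∀ x v : Fin n → ℝ,
      0 ≤ ∑ j, ∑ k, v j * v k * (∑ i, ∑ l, x i * x l * w i j k l)) (Y : E n) :
    (QQ w Y).PosSemidef := by
  refine Matrix.PosSemidef.of_dotProduct_mulVec_nonneg ?_ fun x => ?_
  · ext i l
    unfold QQ
    simp only [Matrix.conjTranspose_apply, Matrix.of_apply, star_trivial]
    congr 1
    rw [Finset.sum_comm]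
    refine Finset.sum_congr rfl fun j _ => Finset.sum_congr rfl fun k _ => ?_
    rw [h.flip l k j i]; ring
  · have h1 : star x ⬝ᵥ (QQ w Y).mulVec x
        = (‖Y‖ ^ 2)⁻¹ * ∑ j, ∑ k, Y j * Y k * (∑ i, ∑ l, x i * x l * w i j k l) := by
      have h2 : ∑ j, ∑ k, Y j * Y k * (∑ i, ∑ l, x i * x l * w i j k l)
          = ∑ i, ∑ l, x i * x l * ∑ j, ∑ k, w i j k l * (Y j * Y k) := by
        simp_rw [Finset.mul_sum]
        rw [Finset.sum_congr rfl fun j _ => Finset.sum_comm]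
        rw [Finset.sum_comm]
        refine Finset.sum_congr rfl fun i _ => ?_
        rw [Finset.sum_congr rfl fun j _ => Finset.sum_comm]
        rw [Finset.sum_comm]
        refine Finset.sum_congr rfl fun l _ => Finset.sum_congr rfl fun j _ =>
          Finset.sum_congr rfl fun k _ => ?_
        ring
      rw [h2]
      simp only [dotProduct, Matrix.mulVec, Pi.star_apply, star_trivial, QQ, Matrix.of_apply,
        Finset.mul_sum]
      refine Finset.sum_congr rfl fun i _ => Finset.sum_congr rfl fun l _ => ?_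
      rw [Finset.sum_mul, Finset.mul_sum]
      refine Finset.sum_congr rfl fun j _ => ?_
      rw [Finset.sum_mul, Finset.mul_sum]
      refine Finset.sum_congr rfl fun k _ => ?_
      ring
    rw [h1]
    exact mul_nonneg (inv_nonneg.mpr (sq_nonneg _)) (hpos x Y)

lemma anti_zero {w : Fin n → Fin n → Fin n → Fin n → ℝ} (h : IsCurv w) (Y : E n) :
    ∑ i, ∑ l, (∑ j, ∑ k, w i j k l * (Y j * Y k)) * (Y i * Y l) = 0 := by
  have h1 : ∑ i, ∑ l, (∑ j, ∑ k, w i j k l * (Y j * Y k)) * (Y i * Y l)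
      = ∑ i, ∑ j, ∑ l, ∑ k, w i j k l * (Y j * Y k) * (Y i * Y l) := by
    refine Finset.sum_congr rfl fun i _ => ?_
    rw [Finset.sum_comm]
    refine Finset.sum_congr rfl fun l _ => ?_
    rw [Finset.sum_mul]
    refine Finset.sum_congr rfl fun j _ => ?_
    rw [Finset.sum_mul]
  have h2 : ∑ i, ∑ j, ∑ l, ∑ k, w i j k l * (Y j * Y k) * (Y i * Y l)
      = - ∑ i, ∑ j, ∑ l, ∑ k, w i j k l * (Y j * Y k) * (Y i * Y l) := by
    conv_lhs => rw [Finset.sum_comm]
    rw [← Finset.sum_neg_distrib]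
    refine Finset.sum_congr rfl fun i _ => ?_
    rw [← Finset.sum_neg_distrib]
    refine Finset.sum_congr rfl fun j _ => ?_
    rw [← Finset.sum_neg_distrib]
    refine Finset.sum_congr rfl fun l _ => ?_
    rw [← Finset.sum_neg_distrib]
    refine Finset.sum_congr rfl fun k _ => ?_
    rw [h.anti j i k l]; ring
  rw [h1]
  linarith

lemma QS_eq {q : ℕ} {w : Fin n → Fin n → Fin n → Fin n → ℝ} (h : IsCurv w)
    (ω : Form n (q + 2)) (X : Fin (q + 1) → E n) :
    ∑ i, ∑ l, QQ w (Yv ω X) i l * SS ω X i l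
      = ((n : ℝ) + 1) * (∑ j, ∑ k, (∑ i, ∑ l, (1 : Matrix (Fin n) (Fin n) ℝ) i l * w i j k l)
          * (gP 1 X X * (ω.curryLeft (e j) X * ω.curryLeft (e k) X) * ga X))
        - ((n : ℝ) + 1 + 1) * ((∑ j, ∑ k, (∑ i, ∑ l, GG 1 X i l * w i j k l)
          * (ω.curryLeft (e j) X * ω.curryLeft (e k) X)) * ga X) := by
  have hsw : ∀ C : Fin n → Fin n → ℝ,
      ∑ j, ∑ k, (∑ i, ∑ l, C i l * w i j k l) * (Yv ω X j * Yv ω X k)
        = ∑ i, ∑ l, C i l * ∑ j, ∑ k, w i j k l * (Yv ω X j * Yv ω X k) := by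
    intro C
    simp_rw [Finset.mul_sum, Finset.sum_mul]
    rw [Finset.sum_congr rfl fun j _ => Finset.sum_comm]
    rw [Finset.sum_comm]
    refine Finset.sum_congr rfl fun i _ => ?_
    rw [Finset.sum_congr rfl fun j _ => Finset.sum_comm]
    rw [Finset.sum_comm]
    refine Finset.sum_congr rfl fun l _ => Finset.sum_congr rfl fun j _ =>
      Finset.sum_congr rfl fun k _ => ?_
    ring
  have e1 : ∑ j, ∑ k, (∑ i, ∑ l, (1 : Matrix (Fin n) (Fin n) ℝ) i l * w i j k l)
          * (gP 1 X X * (ω.curryLeft (e j) X * ω.curryLeft (e k) X) * ga X)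
      = (∑ i, ∑ l, (1 : Matrix (Fin n) (Fin n) ℝ) i l
          * ∑ j, ∑ k, w i j k l * (Yv ω X j * Yv ω X k)) * (gP 1 X X * ga X) := by
    rw [← hsw (fun i l => (1 : Matrix (Fin n) (Fin n) ℝ) i l), Finset.sum_mul]
    refine Finset.sum_congr rfl fun j _ => ?_
    rw [Finset.sum_mul]
    refine Finset.sum_congr rfl fun k _ => ?_
    rw [Yv_apply, Yv_apply]
    ring
  have e2 : ∑ j, ∑ k, (∑ i, ∑ l, GG 1 X i l * w i j k l)
          * (ω.curryLeft (e j) X * ω.curryLeft (e k) X)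
      = ∑ i, ∑ l, GG 1 X i l * ∑ j, ∑ k, w i j k l * (Yv ω X j * Yv ω X k) := hsw _
  rw [e1, e2]
  by_cases hY : Yv ω X = 0
  · have h1 : ∀ i l, ∑ j, ∑ k, w i j k l * (Yv ω X j * Yv ω X k) = 0 := by
      intro i l
      rw [hY]
      simp
    simp_rw [h1]
    unfold QQ
    simp_rw [Matrix.of_apply, h1]
    simp
  · have hY2 : ‖Yv ω X‖ ^ 2 ≠ 0 := pow_ne_zero 2 (norm_ne_zero_iff.mpr hY)
    have h3 := anti_zero h (Yv ω X)
    have h4 : ∀ i l, QQ w (Yv ω X) i l * SS ω X i l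
        = ((n : ℝ) + 1) * gP 1 X X * ga X * ((1 : Matrix (Fin n) (Fin n) ℝ) i l
            * ∑ j, ∑ k, w i j k l * (Yv ω X j * Yv ω X k))
          - ((n : ℝ) + 1) * gP 1 X X * ga X * (‖Yv ω X‖ ^ 2)⁻¹
            * ((∑ j, ∑ k, w i j k l * (Yv ω X j * Yv ω X k)) * (Yv ω X i * Yv ω X l))
          - ((n : ℝ) + 1 + 1) * ga X * (GG 1 X i l
            * ∑ j, ∑ k, w i j k l * (Yv ω X j * Yv ω X k)) := by
      intro i l
      unfold QQ SS
      simp only [Matrix.of_apply]
      field_simp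
    simp_rw [h4, Finset.sum_sub_distrib, ← Finset.mul_sum]
    rw [h3]
    ring

/-- **The sharp second contraction bound in odd codegree.** -/
theorem univ_sharp {w : Fin n → Fin n → Fin n → Fin n → ℝ} (h : IsCurv w)
    (hpos : ∀ x v : Fin n → ℝ,
      0 ≤ ∑ j, ∑ k, v j * v k * (∑ i, ∑ l, x i * x l * w i j k l))
    (k q : ℕ) (hk : Odd k) (hn : n = k + q + 2) (ω : Form n (q + 2)) :
    3 * (((q : ℝ) + 1) * QA w ω) ≤ ((k : ℝ) + 2) * rA w ω := by
  have key := psd_approx (V := E n) n (Fin (q + 1) → E n) volume (QQ w) (QQ_meas w)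
    (QQ_psd h hpos) (QQ_bdd w) (fun c Y hc => QQ_hom w c Y hc) (fun X => Yv ω X)
    (Yv_cont ω).measurable (SS ω) (SS_int ω)
    (fun z B hB hom => H_all k q hk hn ω z B hB hom)
  simp_rw [QS_eq h] at key
  have hP : IsPr (1 : Matrix (Fin n) (Fin n) ℝ) n := IsPr.one
  have hP1 : IsPr (1 : Matrix (Fin n) (Fin n) ℝ) (k + 1 + (q + 1)) := by
    have h1 : k + 1 + (q + 1) = n := by omega
    rw [h1]; exact hP
  have hP2 : IsPr (1 : Matrix (Fin n) (Fin n) ℝ) (k + 1 + q + 1) := by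
    have h1 : k + 1 + q + 1 = n := by omega
    rw [h1]; exact hP
  have m1 := mom1 (q + 1) (k + 1) 1 hP1 ω (Lives.one ω)
  have m2 := mom2 h q (k + 1) 1 hP2 ω (Lives.one ω)
  have i1 : ∀ j l : Fin n, Integrable fun X : Fin (q + 1) → E n =>
      gP 1 X X * (ω.curryLeft (e j) X * ω.curryLeft (e l) X) * ga X := fun j l => int1 1 _ _
  have i2 : Integrable fun X : Fin (q + 1) → E n =>
      (∑ j, ∑ k, (∑ i, ∑ l, GG 1 X i l * w i j k l)
          * (ω.curryLeft (e j) X * ω.curryLeft (e k) X)) * ga X := by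
    have h1 : (fun X : Fin (q + 1) → E n =>
      (∑ j, ∑ k, (∑ i, ∑ l, GG 1 X i l * w i j k l)
          * (ω.curryLeft (e j) X * ω.curryLeft (e k) X)) * ga X)
        = fun X => ∑ j, ∑ k, ∑ i, ∑ l, w i j k l *
          (GG 1 X i l * (ω.curryLeft (e j) X * ω.curryLeft (e k) X) * ga X) := by
      funext X
      simp_rw [Finset.sum_mul]
      refine Finset.sum_congr rfl fun j _ => Finset.sum_congr rfl fun k _ =>
        Finset.sum_congr rfl fun i _ => Finset.sum_congr rfl fun l _ => ?_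
      ring
    rw [h1]
    exact integrable_finsetSum _ fun j _ => integrable_finsetSum _ fun k _ =>
      integrable_finsetSum _ fun i _ => integrable_finsetSum _ fun l _ =>
      (int2 1 _ _ i l).const_mul _
  have i3 : Integrable fun X : Fin (q + 1) → E n =>
      (∑ j, ∑ k, (∑ i, ∑ l, (1 : Matrix (Fin n) (Fin n) ℝ) i l * w i j k l)
          * (gP 1 X X * (ω.curryLeft (e j) X * ω.curryLeft (e k) X) * ga X)) :=
    integrable_finsetSum _ fun j _ => integrable_finsetSum _ fun k _ => (i1 j k).const_mul _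
  have m3 : ∫ X : Fin (q + 1) → E n,
      (∑ j, ∑ k, (∑ i, ∑ l, (1 : Matrix (Fin n) (Fin n) ℝ) i l * w i j k l)
          * (gP 1 X X * (ω.curryLeft (e j) X * ω.curryLeft (e k) X) * ga X))
      = Z n ^ (q + 1) * cM (k + 1) (q + 1) * rP w 1 ω := by
    rw [integral_finsetSum _ fun j _ => integrable_finsetSum _ fun k _ => (i1 j k).const_mul _]
    unfold rP
    rw [Finset.mul_sum]
    refine Finset.sum_congr rfl fun j _ => ?_
    rw [integral_finsetSum _ fun k _ => (i1 j k).const_mul _, Finset.mul_sum]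
    refine Finset.sum_congr rfl fun l _ => ?_
    rw [integral_const_mul, m1 j l]
    ring
  rw [integral_sub (i3.const_mul _) (i2.const_mul _), integral_const_mul, integral_const_mul,
    m2, m3, rP_one] at key
  have hZ : 0 < Z n := Z_pos n
  have hc : 0 < cM (k + 1) q := by
    unfold cM
    exact Finset.prod_pos fun i _ => by positivity
  have hc1 : cM (k + 1) (q + 1) = cM (k + 1) q * ((n : ℝ) + 2) := by
    unfold cM
    rw [Finset.prod_range_succ]
    congr 1
    rw [hn]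
    push_cast
    ring
  rw [hc1] at key
  have hnr : (n : ℝ) = k + q + 2 := by rw [hn]; push_cast; ring
  have h5 : ((n : ℝ) + 1) * (Z n ^ (q + 1) * (cM (k + 1) q * ((n : ℝ) + 2)) * rA w ω)
      - ((n : ℝ) + 1 + 1) * (Z n ^ (q + 1) * (((q : ℝ) + 1) * cM (k + 1) q)
        * (rA w ω + 3 * QA w ω))
      = (Z n ^ (q + 1) * cM (k + 1) q * ((n : ℝ) + 2))
        * (((k : ℝ) + 2) * rA w ω - 3 * (((q : ℝ) + 1) * QA w ω)) := by
    rw [hnr]; ring
  rw [h5] at key
  have h6 : 0 < Z n ^ (q + 1) * cM (k + 1) q * ((n : ℝ) + 2) := by positivity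
  have h7 := nonneg_of_mul_nonneg_right key h6
  linarith

end Pool.Agent.H21.OE
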