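import Mathlib
import Pool.Agent.H21.OE.C

set_option autoImplicit false

/-! Piece G of project OE. -/

namespace Pool.Agent.H21.OE

open MeasureTheory Set Real
open scoped ENNReal RealInnerProductSpace

section C
variable {U : Type*} [NormedAddCommGroup U] [InnerProductSpace ℝ U] [FiniteDimensional ℝ U]
  [MeasurableSpace U] [BorelSpace U]

/-- integration over a subspace and its orthogonal complement -/
private theorem lintegral_split (K : Submodule ℝ U) (F : U → ℝ≥0∞) (hF : Measurable F) :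
    ∫⁻ x : U, F x = ∫⁻ s : K, ∫⁻ v : Kᗮ, F ((s : U) + (v : U)) := by
  have h1 : MeasurePreserving (K.orthogonalDecomposition.symm : WithLp 2 (K × Kᗮ) → U) :=
    K.orthogonalDecomposition.symm.measurePreserving
  have h2 : MeasurePreserving (WithLp.toLp 2 : K × Kᗮ → WithLp 2 (K × Kᗮ)) := WithLp.volume_preserving_toLp _ _
  have h3 := h1.comp h2
  have h4 : (K.orthogonalDecomposition.symm : WithLp 2 (K × Kᗮ) → U) ∘ (WithLp.toLp 2 : K × Kᗮ → WithLp 2 (K × Kᗮ)) =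
      fun q => (q.1 : U) + (q.2 : U) := by
    funext q
    simp
  rw [h4] at h3
  rw [← h3.lintegral_comp hF, Measure.volume_eq_prod]
  exact lintegral_prod (fun q : K × Kᗮ => F ((q.1 : U) + (q.2 : U))) (hF.comp h3.measurable).aemeasurable

/-- Piece G (uses C on `Sᗮ`) -/
theorem slice_s (s D : ℕ) (S : Submodule ℝ U) (hD : 2 ≤ D) (hS : Module.finrank ℝ Sᗮ = D)
    (A : U →ₗ[ℝ] U) (hskew : ∀ x y, ⟪A x, y⟫ = -⟪x, A y⟫) (hA : ∀ t ∈ S, A t = 0)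
    (z ν : U) (hz : z ∈ Sᗮ) (hν : ν ∈ Sᗮ) (hν1 : ‖ν‖ = 1) (hAν : A ν = 0)
    (f : U → ℝ≥0∞) (hf : Measurable f) (hom : ∀ (c : ℝ) (Y : U), 0 < c → f (c • Y) = f Y) :
    ∫⁻ x : U, ENNReal.ofReal (((D : ℝ) + s + 2)
        * (|⟪x, z⟫| ^ s * ‖A x‖ ^ 2 * ⟪x, z⟫ ^ 2 * exp (-‖x‖ ^ 2 / 2))) * f (A x)
      ≤ ∫⁻ x : U, ENNReal.ofReal (((D : ℝ) + s + 1)
        * (|⟪x, z⟫| ^ s * ‖Sᗮ.starProjection x‖ ^ 2 * (‖z‖ ^ 2 * ‖A x‖ ^ 2 - ⟪z, A x⟫ ^ 2)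
          * exp (-‖x‖ ^ 2 / 2))) * f (A x) := by
  have hmem : ∀ u : U, A u ∈ Sᗮ := by
    intro u
    rw [Submodule.mem_orthogonal]
    intro t ht
    have h := hskew t u
    rw [hA t ht, inner_zero_left] at h
    linarith
  let A₀ : Sᗮ →ₗ[ℝ] Sᗮ := LinearMap.codRestrict Sᗮ (A ∘ₗ Sᗮ.subtype) fun u => hmem u
  let A' : Sᗮ →L[ℝ] Sᗮ := LinearMap.toContinuousLinearMap A₀
  have hA' : ∀ u : Sᗮ, ((A' u : Sᗮ) : U) = A (u : U) := fun u => rfl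
  let z' : Sᗮ := ⟨z, hz⟩
  let ν' : Sᗮ := ⟨ν, hν⟩
  have key := kernel_ineq_s D s hD hS A' ν' z' hν1 (Subtype.ext hAν)
    (fun u v => hskew u v) (fun v => f (v : U)) (hf.comp measurable_subtype_coe)
    (fun c Y hc => hom c Y hc)
  -- measurability
  have hAc : Continuous fun x : U => A x := A.continuous_of_finiteDimensional
  have hfA : Measurable fun x : U => f (A x) := hf.comp hAc.measurable
  have hM₁ : Measurable fun x : U => ENNReal.ofReal (((D : ℝ) + s + 2)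
        * (|⟪x, z⟫| ^ s * ‖A x‖ ^ 2 * ⟪x, z⟫ ^ 2 * exp (-‖x‖ ^ 2 / 2))) * f (A x) := by
    refine Measurable.mul ?_ hfA
    exact ENNReal.measurable_ofReal.comp (Continuous.measurable (by fun_prop))
  have hM₂ : Measurable fun x : U => ENNReal.ofReal (((D : ℝ) + s + 1)
        * (|⟪x, z⟫| ^ s * ‖Sᗮ.starProjection x‖ ^ 2 * (‖z‖ ^ 2 * ‖A x‖ ^ 2 - ⟪z, A x⟫ ^ 2)
          * exp (-‖x‖ ^ 2 / 2))) * f (A x) := by
    refine Measurable.mul ?_ hfA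
    exact ENNReal.measurable_ofReal.comp (Continuous.measurable (by fun_prop))
  rw [lintegral_split S _ hM₁, lintegral_split S _ hM₂]
  -- the factor
  let w : S → ℝ := fun t => exp (-‖(t : U)‖ ^ 2 / 2)
  have hw : ∀ t, 0 ≤ w t := fun t => by positivity
  have hdec : ∀ (t : S) (v : Sᗮ), A ((t : U) + (v : U)) = A (v : U) ∧ ⟪(t : U) + (v : U), z⟫ = ⟪(v : U), z⟫ ∧
      exp (-‖(t : U) + (v : U)‖ ^ 2 / 2) = w t * exp (-‖(v : U)‖ ^ 2 / 2) ∧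
      Sᗮ.starProjection ((t : U) + (v : U)) = (v : U) := by
    intro t v
    have hv : ⟪(t : U), (v : U)⟫ = 0 := (Submodule.mem_orthogonal S _).1 v.2 _ t.2
    refine ⟨?_, ?_, ?_, ?_⟩
    · rw [map_add, hA _ t.2, zero_add]
    · rw [inner_add_left, (Submodule.mem_orthogonal S _).1 hz _ t.2, zero_add]
    · rw [norm_add_sq_real, hv, ← exp_add]
      congr 1
      ring
    · rw [map_add, Submodule.starProjection_eq_self_iff.2 v.2, (Submodule.starProjection_apply_eq_zero_iff Sᗮ).2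
        (by rw [Submodule.orthogonal_orthogonal]; exact t.2), zero_add]
  have h1 : ∀ (t : S) (v : Sᗮ), ENNReal.ofReal (((D : ℝ) + s + 2)
        * (|⟪(t : U) + (v : U), z⟫| ^ s * ‖A ((t : U) + (v : U))‖ ^ 2 * ⟪(t : U) + (v : U), z⟫ ^ 2
          * exp (-‖(t : U) + (v : U)‖ ^ 2 / 2))) * f (A ((t : U) + (v : U))) =
      ENNReal.ofReal (w t) * (ENNReal.ofReal (((D : ℝ) + s + 2)
        * (|⟪v, z'⟫| ^ s * ‖A' v‖ ^ 2 * ⟪v, z'⟫ ^ 2 * exp (-‖v‖ ^ 2 / 2))) * f ((A' v : Sᗮ) : U)) := by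
    intro t v
    obtain ⟨e1, e2, e3, -⟩ := hdec t v
    rw [e1, e2, e3, ← mul_assoc (ENNReal.ofReal (w t)), ← ENNReal.ofReal_mul (hw t), hA']
    congr 2
    have e6 : ⟪v, z'⟫ = ⟪(v : U), z⟫ := rfl
    have e7 : ‖A' v‖ = ‖A (v : U)‖ := rfl
    have e8 : ‖v‖ = ‖(v : U)‖ := rfl
    rw [e6, e7, e8]
    ring
  have h2 : ∀ (t : S) (v : Sᗮ), ENNReal.ofReal (((D : ℝ) + s + 1)
        * (|⟪(t : U) + (v : U), z⟫| ^ s * ‖Sᗮ.starProjection ((t : U) + (v : U))‖ ^ 2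
          * (‖z‖ ^ 2 * ‖A ((t : U) + (v : U))‖ ^ 2 - ⟪z, A ((t : U) + (v : U))⟫ ^ 2)
          * exp (-‖(t : U) + (v : U)‖ ^ 2 / 2))) * f (A ((t : U) + (v : U))) =
      ENNReal.ofReal (w t) * (ENNReal.ofReal (((D : ℝ) + s + 1)
        * (|⟪v, z'⟫| ^ s * ‖v‖ ^ 2 * (‖z'‖ ^ 2 * ‖A' v‖ ^ 2 - ⟪z', A' v⟫ ^ 2)
          * exp (-‖v‖ ^ 2 / 2))) * f ((A' v : Sᗮ) : U)) := by
    intro t v
    obtain ⟨e1, e2, e3, e4⟩ := hdec t v
    rw [e1, e2, e3, e4, ← mul_assoc (ENNReal.ofReal (w t)), ← ENNReal.ofReal_mul (hw t), hA']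
    congr 2
    have e6 : ⟪v, z'⟫ = ⟪(v : U), z⟫ := rfl
    have e7 : ‖A' v‖ = ‖A (v : U)‖ := rfl
    have e8 : ‖v‖ = ‖(v : U)‖ := rfl
    have e9 : ‖z'‖ = ‖z‖ := rfl
    have e10 : ⟪z', A' v⟫ = ⟪z, A (v : U)⟫ := rfl
    rw [e6, e7, e8, e9, e10]
    ring
  refine lintegral_mono fun t => ?_
  simp_rw [h1, h2]
  rw [lintegral_const_mul' _ _ ENNReal.ofReal_ne_top, lintegral_const_mul' _ _ ENNReal.ofReal_ne_top]
  exact mul_le_mul_right key _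

end C

end Pool.Agent.H21.OE
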