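import Pool.Agent.H21.OE.D

set_option autoImplicit false

/-! Induction over the vectors. -/

namespace Pool.Agent.H21.OE

open MeasureTheory Set Real
open scoped ENNReal RealInnerProductSpace

section C
variable {U : Type*} [NormedAddCommGroup U] [InnerProductSpace ℝ U] [FiniteDimensional ℝ U]
  [MeasurableSpace U] [BorelSpace U]

private theorem lfub_I {j : ℕ} (F : (Fin (j + 1) → U) → ℝ≥0∞) (hF : Measurable F) :
    ∫⁻ X, F X = ∫⁻ x : U, ∫⁻ y : Fin j → U, F (Fin.cons x y) := by
  have h := (volume_preserving_piFinSuccAbove (fun _ : Fin (j + 1) => U) 0).symm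
  rw [← h.lintegral_comp hF, Measure.volume_eq_prod, lintegral_prod]
  · refine lintegral_congr fun x => lintegral_congr fun y => ?_
    congr 1
    ext i
    simp [MeasurableEquiv.piFinSuccAbove]
  · exact (hF.comp (MeasurableEquiv.measurable _)).aemeasurable

omit [NormedAddCommGroup U] [InnerProductSpace ℝ U] [FiniteDimensional ℝ U] [BorelSpace U] in
private theorem cons_meas (j : ℕ) : Measurable fun p : U × (Fin j → U) =>
    (Fin.cons p.1 p.2 : Fin (j + 1) → U) := by
  refine measurable_pi_lambda _ fun i => ?_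
  refine Fin.cases ?_ (fun i => ?_) i
  · simpa using measurable_fst
  · simp only [Fin.cons_succ]
    exact (measurable_pi_apply i).comp measurable_snd

/-- Piece I (uses D, induction on `m`) -/
theorem iter (z : U) (hz : ‖z‖ = 1) (m s : ℕ) (K₁ K₂ : U → (Fin m → U) → ℝ≥0∞)
    (h₁ : Measurable (Function.uncurry K₁)) (h₂ : Measurable (Function.uncurry K₂))
    (i₁ : ∀ (i : Fin m) (a : ℝ) (x : U) (y : Fin m → U),
      K₁ (cos a • x + sin a • y i) (Function.update y i (-(sin a) • x + cos a • y i)) = K₁ x y)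
    (i₂ : ∀ (i : Fin m) (a : ℝ) (x : U) (y : Fin m → U),
      K₂ (cos a • x + sin a • y i) (Function.update y i (-(sin a) • x + cos a • y i)) = K₂ x y)
    (H : ∀ y : Fin m → U, (∀ i, ⟪y i, z⟫ = 0) →
      ∫⁻ x : U, ENNReal.ofReal (|⟪x, z⟫| ^ (s + m)) * K₁ x y
      ≤ ∫⁻ x : U, ENNReal.ofReal (|⟪x, z⟫| ^ (s + m)) * K₂ x y) :
    ∫⁻ x : U, ∫⁻ y : Fin m → U, ENNReal.ofReal (|⟪x, z⟫| ^ s) * K₁ x y
      ≤ ∫⁻ x : U, ∫⁻ y : Fin m → U, ENNReal.ofReal (|⟪x, z⟫| ^ s) * K₂ x y := by
  induction m generalizing s with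
  | zero =>
    have h0 : ∀ (F : (Fin 0 → U) → ℝ≥0∞), ∫⁻ y : Fin 0 → U, F y = F Fin.elim0 := by
      intro F
      have hu : (volume : Measure (Fin 0 → U)) Set.univ = 1 := by
        rw [volume_pi, Measure.pi_univ]; simp
      rw [lintegral_unique, hu, mul_one]
      exact congrArg F (Subsingleton.elim _ _)
    simp_rw [h0]
    simpa using H Fin.elim0 (fun i => i.elim0)
  | succ m ih =>
    have hw : Measurable fun x : U => ENNReal.ofReal (|⟪x, z⟫| ^ s) := by fun_prop
    have conv : ∀ K : U → (Fin (m + 1) → U) → ℝ≥0∞, Measurable (Function.uncurry K) →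
        ∫⁻ x : U, ∫⁻ y : Fin (m + 1) → U, ENNReal.ofReal (|⟪x, z⟫| ^ s) * K x y
          = ∫⁻ x : U, ∫⁻ y₀ : U, ENNReal.ofReal (|⟪x, z⟫| ^ s)
            * ∫⁻ y : Fin m → U, K x (Fin.cons y₀ y) := by
      intro K hK
      refine lintegral_congr fun x => ?_
      have hKx : Measurable (K x) := hK.comp (measurable_const.prodMk measurable_id)
      rw [lintegral_const_mul' _ _ ENNReal.ofReal_ne_top, lfub_I _ hKx,
        lintegral_const_mul' _ _ ENNReal.ofReal_ne_top]
    rw [conv K₁ h₁, conv K₂ h₂]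
    have hm : ∀ K : U → (Fin (m + 1) → U) → ℝ≥0∞, Measurable (Function.uncurry K) →
        Measurable (Function.uncurry fun x y₀ => ∫⁻ y : Fin m → U, K x (Fin.cons y₀ y)) := by
      intro K hK
      refine Measurable.lintegral_prod_right' (f := fun p : (U × U) × (Fin m → U) =>
        K p.1.1 (Fin.cons p.1.2 p.2)) ?_
      refine hK.comp (Measurable.prodMk (measurable_fst.comp measurable_fst) ?_)
      exact (cons_meas m).comp ((measurable_snd.comp measurable_fst).prodMk measurable_snd)
    have hi : ∀ K : U → (Fin (m + 1) → U) → ℝ≥0∞,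
        (∀ (i : Fin (m + 1)) (a : ℝ) (x : U) (y : Fin (m + 1) → U),
          K (cos a • x + sin a • y i) (Function.update y i (-(sin a) • x + cos a • y i))
            = K x y) → ∀ (a : ℝ) (x y₀ : U),
        ∫⁻ y : Fin m → U, K (cos a • x + sin a • y₀)
            (Fin.cons (-(sin a) • x + cos a • y₀) y)
          = ∫⁻ y : Fin m → U, K x (Fin.cons y₀ y) := by
      intro K hK a x y₀
      refine lintegral_congr fun y => ?_
      have h3 := hK 0 a x (Fin.cons y₀ y)
      rw [Fin.cons_zero, Fin.update_cons_zero] at h3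
      exact h3
    refine rot_s z hz s _ _ (hm K₁ h₁) (hm K₂ h₂) (hi K₁ i₁) (hi K₂ i₂) ?_
    intro y₀ hy₀
    have h4 := ih (s + 1) (fun x y => K₁ x (Fin.cons y₀ y)) (fun x y => K₂ x (Fin.cons y₀ y))
      (h₁.comp (measurable_fst.prodMk ((cons_meas m).comp (measurable_const.prodMk
        measurable_snd))))
      (h₂.comp (measurable_fst.prodMk ((cons_meas m).comp (measurable_const.prodMk
        measurable_snd))))
      (fun i a x y => by
        have h3 := i₁ i.succ a x (Fin.cons y₀ y)
        rw [Fin.cons_succ, ← Fin.cons_update] at h3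
        exact h3)
      (fun i a x y => by
        have h3 := i₂ i.succ a x (Fin.cons y₀ y)
        rw [Fin.cons_succ, ← Fin.cons_update] at h3
        exact h3)
      (fun y hy => by
        have h5 := H (Fin.cons y₀ y) (fun i => by
          refine Fin.cases ?_ (fun i => ?_) i
          · simpa using hy₀
          · simpa using hy i)
        have h6 : s + 1 + m = s + (m + 1) := by omega
        rw [h6]
        exact h5)
    simp_rw [lintegral_const_mul' _ _ ENNReal.ofReal_ne_top] at h4
    exact h4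

end C

end Pool.Agent.H21.OE
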