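import Mathlib

set_option autoImplicit false

/-! Piece K of project OE. -/

namespace Pool.Agent.H21.OE

open MeasureTheory Set Real
open scoped ENNReal RealInnerProductSpace

section C
variable {U : Type*} [NormedAddCommGroup U] [InnerProductSpace ℝ U] [FiniteDimensional ℝ U]
  [MeasurableSpace U] [BorelSpace U]

/-- Piece K -/
theorem exists_ker_s (S : Submodule ℝ U) (hS : Odd (Module.finrank ℝ Sᗮ))
    (A : U →ₗ[ℝ] U) (hskew : ∀ x y, ⟪A x, y⟫ = -⟪x, A y⟫) (hA : ∀ t ∈ S, A t = 0) :
    ∃ ν ∈ Sᗮ, ‖ν‖ = 1 ∧ A ν = 0 := by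
  let b := stdOrthonormalBasis ℝ Sᗮ
  let M : Matrix (Fin (Module.finrank ℝ Sᗮ)) (Fin (Module.finrank ℝ Sᗮ)) ℝ :=
    Matrix.of fun i j => ⟪(b i : U), A (b j)⟫
  have hM : ∀ i j, M i j = ⟪(b i : U), A (b j)⟫ := fun _ _ => rfl
  have hMt : M.transpose = -M := by
    ext i j
    rw [Matrix.transpose_apply, Matrix.neg_apply, hM, hM, ← hskew, real_inner_comm]
  have hdet : M.det = 0 := by
    have h := congrArg Matrix.det hMt
    rw [Matrix.det_transpose, Matrix.det_neg, Fintype.card_fin, hS.neg_one_pow] at h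
    linarith
  obtain ⟨v, hv0, hv⟩ := Matrix.exists_mulVec_eq_zero_iff.mpr hdet
  let w : Sᗮ := ∑ j, v j • b j
  have hw0 : w ≠ 0 := by
    intro h
    apply hv0
    funext j
    have := Fintype.linearIndependent_iff.mp b.toBasis.linearIndependent v (by
      simpa [w] using h) j
    exact this
  have hAw1 : ∀ i, ⟪(b i : U), A (w : U)⟫ = 0 := by
    intro i
    have h := congrFun hv i
    simp only [Matrix.mulVec, dotProduct, Pi.zero_apply, hM] at h
    have e : A (w : U) = ∑ j, v j • A (b j : U) := by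
      simp only [w, AddSubmonoidClass.coe_finsetSum, Submodule.coe_smul, map_sum, map_smul]
    rw [e, inner_sum]
    rw [← h]
    refine Finset.sum_congr rfl fun j _ => ?_
    rw [real_inner_smul_right, mul_comm]
  have hAw2 : A (w : U) ∈ Sᗮ := by
    rw [Submodule.mem_orthogonal]
    intro t ht
    rw [real_inner_comm, hskew, hA t ht, inner_zero_right, neg_zero]
  have hAw : A (w : U) = 0 := by
    have h0 : (⟨A (w : U), hAw2⟩ : Sᗮ) = 0 := by
      refine InnerProductSpace.ext_inner_left_basis b.toBasis fun i => ?_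
      rw [inner_zero_right, OrthonormalBasis.coe_toBasis, Submodule.coe_inner]
      exact hAw1 i
    exact congrArg Subtype.val h0
  have hn : ‖(w : U)‖ ≠ 0 := by
    rw [norm_ne_zero_iff]
    intro h
    exact hw0 (Subtype.ext h)
  refine ⟨‖(w : U)‖⁻¹ • (w : U), Sᗮ.smul_mem _ w.2, ?_, ?_⟩
  · rw [norm_smul, norm_inv, norm_norm, inv_mul_cancel₀ hn]
  · rw [map_smul, hAw, smul_zero]

end C

end Pool.Agent.H21.OE
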