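import Pool.Agent.H21.OE.Defs

/-!
# OE L1: `alt_rot`, `gd_rot`, `gd_rot3`
-/

set_option autoImplicit false

namespace Pool.Agent.H21.OE

open Real
open scoped RealInnerProductSpace BigOperators

section

variable {V : Type*} [NormedAddCommGroup V] [InnerProductSpace ℝ V]

/-- Piece L0 -/
theorem alt_rot {M : Type*} [AddCommGroup M] [Module ℝ M] {q : ℕ}
    (f : V [⋀^Fin (q + 1)]→ₗ[ℝ] M) (i : Fin q) (a : ℝ) (x : V) (y : Fin q → V) :
    f (Fin.cons (cos a • x + sin a • y i) (Function.update y i (-(sin a) • x + cos a • y i)))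
      = f (Fin.cons x y) := by
  have hadd : ∀ (A A' : V) (v : Fin q → V), f (Fin.cons (A + A') v) = f (Fin.cons A v) + f (Fin.cons A' v) :=
    fun A A' v => f.toMultilinearMap.cons_add v A A'
  have hsm : ∀ (c : ℝ) (A : V) (v : Fin q → V), f (Fin.cons (c • A) v) = c • f (Fin.cons A v) :=
    fun c A v => f.toMultilinearMap.cons_smul v c A
  have hadd2 : ∀ (A B B' : V), f (Fin.cons A (Function.update y i (B + B'))) =
      f (Fin.cons A (Function.update y i B)) + f (Fin.cons A (Function.update y i B')) := by
    intro A B B'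
    rw [Fin.cons_update, Fin.cons_update, Fin.cons_update]
    exact f.map_update_add _ _ _ _
  have hsm2 : ∀ (c : ℝ) (A B : V), f (Fin.cons A (Function.update y i (c • B))) =
      c • f (Fin.cons A (Function.update y i B)) := by
    intro c A B
    rw [Fin.cons_update, Fin.cons_update]
    exact f.map_update_smul _ _ _ _
  have hself : ∀ A : V, f (Fin.cons A (Function.update y i A)) = 0 := by
    intro A
    refine f.map_eq_zero_of_eq _ (i := 0) (j := i.succ) ?_ (Fin.succ_ne_zero i).symm
    rw [Fin.cons_zero, Fin.cons_succ, Function.update_self]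
  have hswap : ∀ A B : V, f (Fin.cons B (Function.update y i A)) = -f (Fin.cons A (Function.update y i B)) := by
    intro A B
    have h1 := hself (A + B)
    rw [hadd, hadd2, hadd2, hself, hself, zero_add, add_zero] at h1
    exact (neg_eq_of_add_eq_zero_right h1).symm
  rw [hadd, hsm, hsm, hadd2, hadd2, hsm2, hsm2, hsm2, hsm2, hself, hself, hswap x (y i), smul_zero, smul_zero, zero_add, add_zero,
    Function.update_eq_self]
  have h1 := sin_sq_add_cos_sq a
  rw [smul_smul, smul_neg, smul_neg, smul_smul, ← neg_smul, ← add_smul]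
  have h2 : cos a * cos a + -(sin a * -sin a) = 1 := by linear_combination h1
  rw [h2, one_smul]

/-- `v ↦ gd v v'` -/
private noncomputable def gdA {m : ℕ} (v' : Fin m → V) : V [⋀^Fin m]→ₗ[ℝ] ℝ :=
  (Matrix.detRowAlternating (n := Fin m) (R := ℝ)).compLinearMap (LinearMap.pi fun j => (innerₗ V).flip (v' j))

private theorem gdA_apply {m : ℕ} (v v' : Fin m → V) : gdA v' v = gd v v' := by
  rw [gdA, AlternatingMap.compLinearMap_apply]
  rfl

private theorem gd_comm {m : ℕ} (v v' : Fin m → V) : gd v v' = gd v' v := by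
  rw [gd, gd, ← Matrix.det_transpose]
  congr 1
  ext i j
  simp [Matrix.transpose_apply, real_inner_comm]

/-- Piece L1 -/
theorem gd_rot {q : ℕ} (i : Fin q) (a : ℝ) (x : V) (y : Fin q → V) :
    gd (Fin.cons (cos a • x + sin a • y i) (Function.update y i (-(sin a) • x + cos a • y i)))
      (Fin.cons (cos a • x + sin a • y i) (Function.update y i (-(sin a) • x + cos a • y i)))
      = gd (Fin.cons x y) (Fin.cons x y) := by
  rw [← gdA_apply, alt_rot, gdA_apply, gd_comm, ← gdA_apply, alt_rot, gdA_apply]

/-- Piece L2 -/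
theorem gd_rot3 {q : ℕ} (z : V) (i : Fin q) (a : ℝ) (x : V) (y : Fin q → V) :
    gd (Fin.cons z (Fin.cons (cos a • x + sin a • y i)
        (Function.update y i (-(sin a) • x + cos a • y i))))
      (Fin.cons z (Fin.cons (cos a • x + sin a • y i)
        (Function.update y i (-(sin a) • x + cos a • y i))))
      = gd (Fin.cons z (Fin.cons x y)) (Fin.cons z (Fin.cons x y)) := by
  have key : ∀ w : Fin (q + 2) → V, gd (Fin.cons z (Fin.cons (cos a • x + sin a • y i)
      (Function.update y i (-(sin a) • x + cos a • y i)))) w = gd (Fin.cons z (Fin.cons x y)) w := by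
    intro w
    have h1 := alt_rot ((gdA w).curryLeft z) i a x y
    rw [← gdA_apply, ← gdA_apply]
    exact h1
  rw [key, gd_comm, key]

end

end Pool.Agent.H21.OE
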