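import Pool.Agent.H21.OE.Defs

set_option autoImplicit false

/-! Pieces L3 to L7 of project OE: Gram determinants. -/

namespace Pool.Agent.H21.OE

open MeasureTheory Set Real
open scoped ENNReal RealInnerProductSpace

variable {V : Type*} [NormedAddCommGroup V] [InnerProductSpace ℝ V]

private lemma gd_symm_L2 {m : ℕ} (v v' : Fin m → V) : gd v v' = gd v' v := by
  unfold gd
  rw [← Matrix.det_transpose]
  congr 1
  ext i j
  simp only [Matrix.transpose_apply, Matrix.of_apply]
  exact real_inner_comm _ _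

/-- `gd` as an alternating map of its first argument -/
private noncomputable def gdA_L2 {m : ℕ} (v' : Fin m → V) : V [⋀^Fin m]→ₗ[ℝ] ℝ :=
  (Matrix.detRowAlternating (R := ℝ) (n := Fin m)).compLinearMap
    (LinearMap.pi fun j => (innerₗ V).flip (v' j))

private lemma gdA_apply_L2 {m : ℕ} (v v' : Fin m → V) : gdA_L2 v' v = gd v v' := rfl

private lemma gd_cons_add_L2 {m : ℕ} (u t : V) (y : Fin m → V) (v' : Fin (m + 1) → V) :
    gd (Fin.cons (u + t) y) v' = gd (Fin.cons u y) v' + gd (Fin.cons t y) v' := by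
  rw [← gdA_apply_L2, ← gdA_apply_L2, ← gdA_apply_L2]
  exact (gdA_L2 v').toMultilinearMap.cons_add y u t

private lemma gd_cons_mem_L2 {m : ℕ} (t : V) (y : Fin m → V) (v' : Fin (m + 1) → V)
    (ht : t ∈ Submodule.span ℝ (Set.range y)) : gd (Fin.cons t y) v' = 0 := by
  rw [← gdA_apply_L2]
  refine (gdA_L2 v').map_linearDependent _ fun h => ?_
  exact (linearIndependent_finCons.mp h).2 ht

private lemma gd_cons_orth_L2 {m : ℕ} (u u' : V) (y y' : Fin m → V) (h : ∀ j, ⟪u, y' j⟫ = 0) :
    gd (Fin.cons u y) (Fin.cons u' y') = ⟪u, u'⟫ * gd y y' := by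
  unfold gd
  rw [Matrix.det_succ_row_zero, Fin.sum_univ_succ]
  have h1 : ∀ j : Fin m, (Matrix.of fun i j => ⟪(Fin.cons u y : Fin (m + 1) → V) i,
      (Fin.cons u' y' : Fin (m + 1) → V) j⟫) 0 j.succ = 0 := by
    intro j
    simp only [Matrix.of_apply, Fin.cons_zero, Fin.cons_succ]
    exact h j
  have h2 : ((Matrix.of fun i j => ⟪(Fin.cons u y : Fin (m + 1) → V) i,
      (Fin.cons u' y' : Fin (m + 1) → V) j⟫).submatrix Fin.succ (Fin.succAbove 0))
      = Matrix.of fun i j => ⟪y i, y' j⟫ := by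
    ext i j
    simp [Matrix.submatrix_apply, Matrix.of_apply]
  rw [h2]
  simp only [h1]
  simp

theorem gd_slice {q : ℕ} (z : V) (hz : ‖z‖ = 1) (x : V) (y : Fin q → V)
    (hy : ∀ i, ⟪y i, z⟫ = 0) :
    ‖z‖ ^ 2 * gd (Fin.cons x y) (Fin.cons x y)
        - gd (Fin.cons z (Fin.cons x y)) (Fin.cons z (Fin.cons x y))
      = ⟪x, z⟫ ^ 2 * gd y y := by
  set w : Fin (q + 1) → V := Fin.cons x y with hw
  set M : Matrix (Fin (q + 2)) (Fin (q + 2)) ℝ :=
    Matrix.of fun i j => ⟪(Fin.cons z w : Fin (q + 2) → V) i,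
      (Fin.cons z w : Fin (q + 2) → V) j⟫ with hM
  have hzy : ∀ j, ⟪z, y j⟫ = 0 := fun j => by rw [real_inner_comm]; exact hy j
  have hzz : ⟪z, z⟫ = 1 := by rw [real_inner_self_eq_norm_sq, hz]; norm_num
  have hdet : gd (Fin.cons z w) (Fin.cons z w) = M.det := rfl
  have h0 : M.submatrix Fin.succ (Fin.succAbove 0) = Matrix.of fun i j => ⟪w i, w j⟫ := by
    ext i j
    simp [hM, Matrix.submatrix_apply, Matrix.of_apply]
  have h1 : (M.submatrix Fin.succ (Fin.succAbove (Fin.succ 0))).det = ⟪x, z⟫ * gd y y := by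
    rw [Matrix.det_succ_column_zero, Fin.sum_univ_succ]
    have e1 : ∀ i : Fin q, (M.submatrix Fin.succ (Fin.succAbove (Fin.succ 0))) i.succ 0 = 0 := by
      intro i
      have : (Fin.succAbove (Fin.succ 0) (0 : Fin (q + 1)) : Fin (q + 2)) = 0 := by
        exact Fin.succAbove_ne_zero_zero (by simp)
      simp only [Matrix.submatrix_apply, this, hM, Matrix.of_apply, Fin.cons_succ, hw,
        Fin.cons_zero]
      exact hy i
    have e2 : (M.submatrix Fin.succ (Fin.succAbove (Fin.succ 0))) 0 0 = ⟪x, z⟫ := by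
      have : (Fin.succAbove (Fin.succ 0) (0 : Fin (q + 1)) : Fin (q + 2)) = 0 := by
        exact Fin.succAbove_ne_zero_zero (by simp)
      simp only [Matrix.submatrix_apply, this, hM, Matrix.of_apply, Fin.cons_succ, hw,
        Fin.cons_zero]
    have e3 : ((M.submatrix Fin.succ (Fin.succAbove (Fin.succ 0))).submatrix
        (Fin.succAbove 0) Fin.succ) = Matrix.of fun i j => ⟪y i, y j⟫ := by
      ext i j
      have : (Fin.succAbove (Fin.succ 0) (Fin.succ j) : Fin (q + 2)) = j.succ.succ := by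
        rw [Fin.succ_succAbove_succ, Fin.succAbove_zero]
      simp [hM, hw, Matrix.submatrix_apply, Matrix.of_apply, this]
    rw [e3, e2]
    simp only [e1]
    simp [gd]
  have hexp : M.det = gd w w - ⟪x, z⟫ ^ 2 * gd y y := by
    rw [Matrix.det_succ_row_zero, Fin.sum_univ_succ, Fin.sum_univ_succ, h0, h1]
    have e0 : M 0 0 = 1 := by
      simp only [hM, Matrix.of_apply, Fin.cons_zero]
      exact hzz
    have e1 : M 0 (Fin.succ 0) = ⟪x, z⟫ := by
      simp only [hM, hw, Matrix.of_apply, Fin.cons_zero, Fin.cons_succ]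
      exact real_inner_comm _ _
    have e2 : ∀ j : Fin q, M 0 j.succ.succ = 0 := by
      intro j
      simp only [hM, hw, Matrix.of_apply, Fin.cons_zero, Fin.cons_succ]
      exact hzy j
    rw [e0, e1]
    simp only [e2]
    simp [gd]
    ring
  rw [hdet, hexp, hz]
  ring

theorem gd_proj [FiniteDimensional ℝ V] {q : ℕ} (x : V) (y : Fin q → V) :
    gd (Fin.cons x y) (Fin.cons x y)
      = gd y y * ‖(Submodule.span ℝ (Set.range y))ᗮ.starProjection x‖ ^ 2 := by
  set S := Submodule.span ℝ (Set.range y) with hS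
  set t := S.starProjection x with ht
  set u := Sᗮ.starProjection x with hu
  have hx : x = u + t := by
    rw [add_comm, ht, hu]
    exact (Submodule.starProjection_add_starProjection_orthogonal (K := S) x).symm
  have hut : t ∈ S := Submodule.starProjection_apply_mem S x
  have huo : u ∈ Sᗮ := Submodule.starProjection_apply_mem Sᗮ x
  have horth : ∀ j, ⟪u, y j⟫ = 0 := fun j => by
    rw [real_inner_comm]
    exact (Submodule.mem_orthogonal _ _).mp huo _ (Submodule.subset_span ⟨j, rfl⟩)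
  have h1 : gd (Fin.cons x y) (Fin.cons x y) = gd (Fin.cons u y) (Fin.cons u y) := by
    conv_lhs => rw [hx]
    rw [gd_cons_add_L2, gd_cons_mem_L2 t y _ hut, add_zero, gd_symm_L2, gd_cons_add_L2,
      gd_cons_mem_L2 t y _ hut, add_zero]
  rw [h1, gd_cons_orth_L2 u u y y horth, real_inner_self_eq_norm_sq]
  ring

theorem gd_nonneg [FiniteDimensional ℝ V] {q : ℕ} (y : Fin q → V) : 0 ≤ gd y y := by
  induction q with
  | zero => simp [gd]
  | succ q ih =>
    rw [← Fin.cons_self_tail y, gd_proj]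
    exact mul_nonneg (ih _) (sq_nonneg _)

theorem gd_le [FiniteDimensional ℝ V] {q : ℕ} (z : V) (y : Fin q → V) :
    gd (Fin.cons z y) (Fin.cons z y) ≤ ‖z‖ ^ 2 * gd y y := by
  rw [gd_proj, mul_comm]
  refine mul_le_mul_of_nonneg_right ?_ (gd_nonneg y)
  exact pow_le_pow_left₀ (norm_nonneg _) (Submodule.norm_starProjection_apply_le _ z) 2

theorem gd_dep {q : ℕ} (y : Fin q → V) (h : ¬ LinearIndependent ℝ y) : gd y y = 0 := by
  rw [← gdA_apply_L2]
  exact (gdA_L2 y).map_linearDependent _ h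

end Pool.Agent.H21.OE
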