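import Pool.Agent.H21.OE.G
import Pool.Agent.H21.OE.I
import Pool.Agent.H21.OE.K
import Pool.Agent.H21.OE.L1
import Pool.Agent.H21.OE.L2
import Pool.Agent.H21.OE.N3

set_option autoImplicit false

/-! The integral inequality for every number of Gaussian vectors. -/

namespace Pool.Agent.H21.OE

open Pool.Agent.H61.YP Pool.Agent.H8.RG Pool.Agent.H91.OC
open MeasureTheory Set Real
open scoped ENNReal RealInnerProductSpace

variable {n : ℕ}

/-- the linear map `x ↦ ω(·, x, y)` -/
noncomputable def YL {q : ℕ} (ω : Form n (q + 2)) (y : Fin q → E n) : E n →ₗ[ℝ] E n where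
  toFun x := vec fun a => (ω.curryLeft (e a)).curryLeft x y
  map_add' x x' := by
    ext a
    simp only [vec_apply, map_add, PiLp.add_apply, AlternatingMap.add_apply]
  map_smul' c x := by
    ext a
    simp only [vec_apply, map_smul, PiLp.smul_apply, AlternatingMap.smul_apply, RingHom.id_apply]

lemma YL_apply {q : ℕ} (ω : Form n (q + 2)) (y : Fin q → E n) (x : E n) (a : Fin n) :
    YL ω y x a = (ω.curryLeft (e a)) (Fin.cons x y) := rfl

lemma inner_YL {q : ℕ} (ω : Form n (q + 2)) (y : Fin q → E n) (x x' : E n) :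
    ⟪YL ω y x, x'⟫ = (ω.curryLeft x').curryLeft x y := by
  have h1 : ω.curryLeft x' = ∑ a, x' a • ω.curryLeft (e a) := by
    conv_lhs => rw [← sum_coord x']
    simp only [map_sum, map_smul]
  have h2 : (ω.curryLeft x').curryLeft x = ∑ a, x' a • (ω.curryLeft (e a)).curryLeft x := by
    rw [h1, curry_sum (fun a => x' a) (fun a => ω.curryLeft (e a)) x]
  rw [h2]
  rw [PiLp.inner_apply]
  let L : Form n q →ₗ[ℝ] ℝ :=
    { toFun := fun φ => φ y
      map_add' := fun φ ψ => rfl
      map_smul' := fun c φ => rfl }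
  change _ = L (∑ a, x' a • (ω.curryLeft (e a)).curryLeft x)
  rw [map_sum]
  refine Finset.sum_congr rfl fun a _ => ?_
  rw [map_smul]
  simp only [smul_eq_mul]
  rfl

lemma YL_skew {q : ℕ} (ω : Form n (q + 2)) (y : Fin q → E n) (x x' : E n) :
    ⟪YL ω y x, x'⟫ = -⟪x, YL ω y x'⟫ := by
  rw [inner_YL, real_inner_comm, inner_YL, curry_swap]
  rfl

lemma YL_ker {q : ℕ} (ω : Form n (q + 2)) (y : Fin q → E n) (i : Fin q) :
    YL ω y (y i) = 0 := by
  ext a
  rw [YL_apply]
  exact AlternatingMap.map_eq_zero_of_eq _ _ (i := 0) (j := i.succ) (by simp)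
    (Fin.succ_ne_zero i).symm

lemma YL_rot {q : ℕ} (ω : Form n (q + 2)) (y : Fin q → E n) (i : Fin q) (a : ℝ) (x : E n) :
    YL ω (Function.update y i (-(sin a) • x + cos a • y i)) (cos a • x + sin a • y i)
      = YL ω y x := by
  ext b
  rw [YL_apply, YL_apply]
  exact alt_rot _ i a x y

lemma cons_cont (q : ℕ) : Continuous fun p : E n × (Fin q → E n) =>
    (Fin.cons p.1 p.2 : Fin (q + 1) → E n) := by
  refine continuous_pi fun i => ?_
  refine Fin.cases ?_ (fun i => ?_) i
  · simpa using continuous_fst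
  · simp only [Fin.cons_succ]
    exact (continuous_apply i).comp continuous_snd

lemma YL_cont {q : ℕ} (ω : Form n (q + 2)) :
    Continuous fun p : E n × (Fin q → E n) => YL ω p.2 p.1 := by
  have h1 : Continuous fun p : E n × (Fin q → E n) =>
      (fun a => (ω.curryLeft (e a)) (Fin.cons p.1 p.2) : Fin n → ℝ) := by
    refine continuous_pi fun a => ?_
    exact (form_cont (ω.curryLeft (e a))).comp (cons_cont q)
  exact (PiLp.continuous_toLp 2 _).comp h1

lemma gd_cont {m : ℕ} : Continuous fun v : Fin m → E n => gd v v := by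
  unfold gd
  refine Continuous.matrix_det ?_
  refine continuous_matrix fun i j => ?_
  simp only [Matrix.of_apply]
  exact (continuous_apply i).inner (continuous_apply j)

/-- the first kernel -/
noncomputable def k₁ {q : ℕ} (ω : Form n (q + 2)) (z x : E n) (y : Fin q → E n) : ℝ :=
  ((n : ℝ) + 1 + 1) * (‖YL ω y x‖ ^ 2 * (‖z‖ ^ 2 * gd (Fin.cons x y) (Fin.cons x y)
    - gd (Fin.cons z (Fin.cons x y) : Fin (q + 2) → E n) (Fin.cons z (Fin.cons x y)))
    * exp (-(‖x‖ ^ 2 + ∑ i, ‖y i‖ ^ 2) / 2))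

/-- the second kernel -/
noncomputable def k₂ {q : ℕ} (ω : Form n (q + 2)) (z x : E n) (y : Fin q → E n) : ℝ :=
  ((n : ℝ) + 1) * (gd (Fin.cons x y : Fin (q + 1) → E n) (Fin.cons x y)
    * (‖z‖ ^ 2 * ‖YL ω y x‖ ^ 2 - ⟪z, YL ω y x⟫ ^ 2)
    * exp (-(‖x‖ ^ 2 + ∑ i, ‖y i‖ ^ 2) / 2))

lemma sum_rot {q : ℕ} (y : Fin q → E n) (i : Fin q) (a : ℝ) (x : E n) :
    ‖cos a • x + sin a • y i‖ ^ 2
      + ∑ l, ‖(Function.update y i (-(sin a) • x + cos a • y i)) l‖ ^ 2
      = ‖x‖ ^ 2 + ∑ l, ‖y l‖ ^ 2 := by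
  have h1 : ∑ l, ‖(Function.update y i (-(sin a) • x + cos a • y i)) l‖ ^ 2
      = ‖-(sin a) • x + cos a • y i‖ ^ 2 + ∑ l ∈ Finset.univ.erase i, ‖y l‖ ^ 2 := by
    rw [← Finset.add_sum_erase _ _ (Finset.mem_univ i), Function.update_self]
    congr 1
    refine Finset.sum_congr rfl fun l hl => ?_
    rw [Function.update_of_ne (Finset.ne_of_mem_erase hl)]
  have h2 : ∑ l, ‖y l‖ ^ 2 = ‖y i‖ ^ 2 + ∑ l ∈ Finset.univ.erase i, ‖y l‖ ^ 2 := by
    rw [← Finset.add_sum_erase _ _ (Finset.mem_univ i)]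
  rw [h1, h2]
  have h3 : ‖cos a • x + sin a • y i‖ ^ 2 + ‖-(sin a) • x + cos a • y i‖ ^ 2
      = ‖x‖ ^ 2 + ‖y i‖ ^ 2 := by
    rw [norm_add_sq_real, norm_add_sq_real, norm_smul, norm_smul, norm_smul, norm_smul,
      inner_smul_left, inner_smul_right, inner_smul_left, inner_smul_right]
    simp only [mul_pow, norm_neg, Real.norm_eq_abs, sq_abs, conj_trivial]
    have := sin_sq_add_cos_sq a
    nlinarith [this]
  linarith

lemma k₁_cont {q : ℕ} (ω : Form n (q + 2)) (z : E n) :
    Continuous fun p : E n × (Fin q → E n) => k₁ ω z p.1 p.2 := by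
  have hY := YL_cont ω
  have h1 : Continuous fun p : E n × (Fin q → E n) =>
      gd (Fin.cons p.1 p.2 : Fin (q + 1) → E n) (Fin.cons p.1 p.2) :=
    gd_cont.comp (cons_cont q)
  have h2 : Continuous fun p : E n × (Fin q → E n) =>
      gd (Fin.cons z (Fin.cons p.1 p.2) : Fin (q + 2) → E n) (Fin.cons z (Fin.cons p.1 p.2)) := by
    have h3 : Continuous fun p : E n × (Fin q → E n) =>
      (Fin.cons z (Fin.cons p.1 p.2) : Fin (q + 2) → E n) :=
      (cons_cont (q + 1)).comp (continuous_const.prodMk (cons_cont q))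
    exact gd_cont.comp h3
  have h4 : Continuous fun p : E n × (Fin q → E n) => ‖p.1‖ ^ 2 + ∑ i, ‖p.2 i‖ ^ 2 := by
    refine (continuous_fst.norm.pow 2).add (continuous_finsetSum _ fun i _ => ?_)
    exact (((continuous_apply i).comp continuous_snd).norm).pow 2
  unfold k₁
  fun_prop

lemma k₂_cont {q : ℕ} (ω : Form n (q + 2)) (z : E n) :
    Continuous fun p : E n × (Fin q → E n) => k₂ ω z p.1 p.2 := by
  have hY := YL_cont ω
  have h1 : Continuous fun p : E n × (Fin q → E n) =>
      gd (Fin.cons p.1 p.2 : Fin (q + 1) → E n) (Fin.cons p.1 p.2) :=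
    gd_cont.comp (cons_cont q)
  have h4 : Continuous fun p : E n × (Fin q → E n) => ‖p.1‖ ^ 2 + ∑ i, ‖p.2 i‖ ^ 2 := by
    refine (continuous_fst.norm.pow 2).add (continuous_finsetSum _ fun i _ => ?_)
    exact (((continuous_apply i).comp continuous_snd).norm).pow 2
  unfold k₂
  fun_prop

theorem ineqI (k q : ℕ) (hk : Odd k) (hn : n = k + q + 2) (ω : Form n (q + 2)) (z : E n)
    (hz : ‖z‖ = 1) (f : E n → ℝ≥0∞) (hf : Measurable f)
    (hom : ∀ (c : ℝ) (Y : E n), 0 < c → f (c • Y) = f Y) :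
    ∫⁻ x : E n, ∫⁻ y : Fin q → E n, ENNReal.ofReal (k₁ ω z x y) * f (YL ω y x)
      ≤ ∫⁻ x : E n, ∫⁻ y : Fin q → E n, ENNReal.ofReal (k₂ ω z x y) * f (YL ω y x) := by
  have key := iter z hz q 0 (fun x y => ENNReal.ofReal (k₁ ω z x y) * f (YL ω y x))
    (fun x y => ENNReal.ofReal (k₂ ω z x y) * f (YL ω y x)) ?_ ?_ ?_ ?_ ?_
  · simpa using key
  · exact ((k₁_cont ω z).measurable.ennreal_ofReal).mul (hf.comp (YL_cont ω).measurable)
  · exact ((k₂_cont ω z).measurable.ennreal_ofReal).mul (hf.comp (YL_cont ω).measurable)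
  · intro i a x y
    rw [YL_rot]
    unfold k₁
    rw [YL_rot, gd_rot, gd_rot3, sum_rot]
  · intro i a x y
    rw [YL_rot]
    unfold k₂
    rw [YL_rot, gd_rot, sum_rot]
  · intro y hy
    simp only [zero_add]
    by_cases hli : LinearIndependent ℝ y
    · set S : Submodule ℝ (E n) := Submodule.span ℝ (Set.range y) with hS
      have hfS : Module.finrank ℝ S = q := by
        rw [hS, finrank_span_eq_card hli, Fintype.card_fin]
      have hfn : Module.finrank ℝ (E n) = n := finrank_euclideanSpace_fin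
      have hfS' : Module.finrank ℝ Sᗮ = k + 2 := by
        have := S.finrank_add_finrank_orthogonal
        omega
      have hA : ∀ t ∈ S, YL ω y t = 0 := by
        intro t ht
        have h1 : S ≤ LinearMap.ker (YL ω y) := by
          rw [hS, Submodule.span_le]
          rintro _ ⟨i, rfl⟩
          exact YL_ker ω y i
        exact h1 ht
      have hzS : z ∈ Sᗮ := by
        rw [Submodule.mem_orthogonal]
        intro t ht
        have h1 : S ≤ (ℝ ∙ z)ᗮ := by
          rw [hS, Submodule.span_le]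
          rintro _ ⟨i, rfl⟩
          rw [SetLike.mem_coe, Submodule.mem_orthogonal_singleton_iff_inner_left]
          exact hy i
        have h2 := h1 ht
        rwa [Submodule.mem_orthogonal_singleton_iff_inner_left] at h2
      obtain ⟨ν, hνS, hν1, hAν⟩ := exists_ker_s S (by rw [hfS']; exact hk.add_even even_two)
        (YL ω y) (YL_skew ω y) hA
      have hsl := slice_s q (k + 2) S (by omega) hfS' (YL ω y) (YL_skew ω y) hA z ν hzS hνS hν1
        hAν f hf hom
      set c : ℝ := gd y y * exp (-(∑ i, ‖y i‖ ^ 2) / 2) with hc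
      have hc0 : 0 ≤ c := mul_nonneg (gd_nonneg y) (exp_pos _).le
      have hexp : ∀ x : E n, exp (-(‖x‖ ^ 2 + ∑ i, ‖y i‖ ^ 2) / 2)
          = exp (-‖x‖ ^ 2 / 2) * exp (-(∑ i, ‖y i‖ ^ 2) / 2) := by
        intro x
        rw [← exp_add]
        congr 1
        ring
      have hnr : (n : ℝ) = k + q + 2 := by rw [hn]; push_cast; ring
      have e1 : ∀ x : E n, ENNReal.ofReal (|⟪x, z⟫| ^ q)
          * (ENNReal.ofReal (k₁ ω z x y) * f (YL ω y x))
          = ENNReal.ofReal c * (ENNReal.ofReal ((((k + 2 : ℕ) : ℝ) + q + 2)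
            * (|⟪x, z⟫| ^ q * ‖YL ω y x‖ ^ 2 * ⟪x, z⟫ ^ 2 * exp (-‖x‖ ^ 2 / 2)))
              * f (YL ω y x)) := by
        intro x
        rw [← mul_assoc, ← mul_assoc, ← ENNReal.ofReal_mul (by positivity),
          ← ENNReal.ofReal_mul hc0]
        congr 2
        unfold k₁
        rw [gd_slice z hz x y hy, hexp, hc, hnr]
        push_cast
        ring
      have e2 : ∀ x : E n, ENNReal.ofReal (|⟪x, z⟫| ^ q)
          * (ENNReal.ofReal (k₂ ω z x y) * f (YL ω y x))
          = ENNReal.ofReal c * (ENNReal.ofReal ((((k + 2 : ℕ) : ℝ) + q + 1)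
            * (|⟪x, z⟫| ^ q * ‖Sᗮ.starProjection x‖ ^ 2
              * (‖z‖ ^ 2 * ‖YL ω y x‖ ^ 2 - ⟪z, YL ω y x⟫ ^ 2) * exp (-‖x‖ ^ 2 / 2)))
              * f (YL ω y x)) := by
        intro x
        rw [← mul_assoc, ← mul_assoc, ← ENNReal.ofReal_mul (by positivity),
          ← ENNReal.ofReal_mul hc0]
        congr 2
        unfold k₂
        rw [gd_proj x y, hexp, hc, hnr, ← hS]
        push_cast
        ring
      simp_rw [e1, e2]
      rw [lintegral_const_mul' _ _ ENNReal.ofReal_ne_top,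
        lintegral_const_mul' _ _ ENNReal.ofReal_ne_top]
      exact mul_le_mul_right hsl _
    · have h0 : gd y y = 0 := gd_dep y hli
      have h1 : ∀ x : E n, k₁ ω z x y = 0 := by
        intro x
        unfold k₁
        rw [gd_slice z hz x y hy, h0]
        ring
      simp only [h1, ENNReal.ofReal_zero, zero_mul, mul_zero, lintegral_zero]
      exact zero_le

end Pool.Agent.H21.OE
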