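import Pool.Agent.H21.OE.Defs
import Pool.Agent.H21.OE.N1
import Pool.Agent.H21.OE.N3
import Pool.Agent.H21.OE.N7
import Pool.Agent.H91.OD.M
import Pool.Agent.H91.OC.Chain

set_option autoImplicit false

/-! Project OE, piece MO1: the first Gaussian moment `mom1`. Author: helper10. -/

namespace Pool.Agent.H21.OE

open Pool.Agent.H61.YP Pool.Agent.H8.RG Pool.Agent.H91.OC
open Pool.Agent.H91.OD (Z gauss_mul)
open MeasureTheory Set Real
open scoped ENNReal RealInnerProductSpace BigOperators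
open Matrix (vecMulVec)

variable {n : ℕ}

private theorem mo_zero (P : Matrix (Fin n) (Fin n) ℝ) (ω : Form n 1) (c c' : Fin n) :
    ∫ x : Fin 0 → E n, gP P x x * (ω.curryLeft (e c) x * ω.curryLeft (e c') x) * ga x
      = MB ω (e c) (e c') := by
  rw [Measure.volume_pi_eq_dirac, integral_dirac]
  have h1 : ∀ x : Fin 0 → E n, gP P x x = 1 := fun x => Matrix.det_isEmpty
  have h2 : ∀ x : Fin 0 → E n, ga x = 1 := by
    intro x
    simp [ga]
  have h3 : ∀ (x : Fin 0 → E n), MB ω (e c) (e c') = ω.curryLeft (e c) x * ω.curryLeft (e c') x := by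
    intro x
    rw [MB_apply]
    unfold ip
    rw [Fintype.sum_unique]
    congr 2
    all_goals exact Subsingleton.elim _ _
  rw [h1, h2, h3 _, one_mul, mul_one]


private theorem mo_cons {j : ℕ} (ω : Form n (j + 2)) (y : E n) (c : Fin n) (x : Fin j → E n) :
    ω.curryLeft (e c) (Fin.cons y x) = -((ω.curryLeft y).curryLeft (e c)) x := by
  have h1 : ω.curryLeft (e c) (Fin.cons y x) = ((ω.curryLeft (e c)).curryLeft y) x := by
    rw [AlternatingMap.curryLeft_apply_apply]
    rfl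
  rw [h1, curry_swap ω (e c) y, AlternatingMap.neg_apply]

private theorem mo_lives {P : Matrix (Fin n) (Fin n) ℝ} {q : ℕ} {ω : Form n (q + 1)}
    (h : Lives P ω) (y : E n) (v : Fin n → ℝ) (hv : ∀ a, v a = ∑ b, P a b * y b) :
    ω.curryLeft y = ω.curryLeft (vec v) := by
  have h0 : ∀ z : E n, ω.curryLeft z = ∑ a, z a • ω.curryLeft (e a) := by
    intro z
    conv_lhs => rw [← sum_coord z]
    simp only [map_sum, map_smul]
  rw [h0 y, h0 (vec v)]
  have h1 : ∀ i, y i • ω.curryLeft (e i) = ∑ a, (P a i * y i) • ω.curryLeft (e a) := by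
    intro i
    rw [← h i, Finset.smul_sum]
    refine Finset.sum_congr rfl fun a _ => ?_
    rw [smul_smul, mul_comm]
  simp_rw [h1]
  rw [Finset.sum_comm]
  refine Finset.sum_congr rfl fun a _ => ?_
  rw [vec_apply, hv a, ← Finset.sum_smul]

private theorem mo_quad {P : Matrix (Fin n) (Fin n) ℝ} {N : ℕ} (hP : IsPr P N) (y : E n)
    (v : Fin n → ℝ) (hv : ∀ a, v a = ∑ b, P a b * y b) :
    ∑ a, ∑ b, y a * y b * P a b = ∑ a, v a * v a := by
  have hs : ∀ a b, P a b = P b a := fun a b => congrFun (congrFun hP.symm.symm a) b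
  have hi : ∀ a b, ∑ k, P a k * P k b = P a b := by
    intro a b
    rw [← Matrix.mul_apply, hP.idem]
  have h1 : ∀ k, v k * v k = ∑ a, ∑ b, y a * y b * (P a k * P k b) := by
    intro k
    rw [hv k, Finset.sum_mul_sum]
    refine Finset.sum_congr rfl fun a _ => Finset.sum_congr rfl fun b _ => ?_
    rw [hs k a]
    ring
  simp_rw [h1]
  symm
  rw [Finset.sum_comm]
  refine Finset.sum_congr rfl fun a _ => ?_
  rw [Finset.sum_comm]
  refine Finset.sum_congr rfl fun b _ => ?_
  rw [← Finset.mul_sum, hi a b]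

private theorem mo_step {P : Matrix (Fin n) (Fin n) ℝ} {N : ℕ} (hP : IsPr P (N + 1)) {q : ℕ}
    {ω : Form n (q + 2)} (h : Lives P ω) (y : E n) (v : Fin n → ℝ)
    (hv : ∀ a, v a = ∑ b, P a b * y b) (r : ℝ) (hr : r = ∑ a, v a * v a) (hr0 : r ≠ 0) :
    IsPr (P - r⁻¹ • vecMulVec v v) N ∧ Lives (P - r⁻¹ • vecMulVec v v) (ω.curryLeft y) := by
  have hrn : 0 ≤ r := by
    rw [hr]
    exact Finset.sum_nonneg fun a _ => mul_self_nonneg _
  have hrp : 0 < r := lt_of_le_of_ne hrn (Ne.symm hr0)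
  set s : ℝ := (Real.sqrt r)⁻¹ with hs
  have hss : s * s = r⁻¹ := by
    rw [hs, ← mul_inv, Real.mul_self_sqrt hrn]
  have hs0 : s ≠ 0 := inv_ne_zero (Real.sqrt_ne_zero'.mpr hrp)
  have e1 : r⁻¹ • vecMulVec v v = vecMulVec (s • v) (s • v) := by
    ext a b
    simp only [Matrix.smul_apply, Matrix.vecMulVec_apply, Pi.smul_apply, smul_eq_mul]
    rw [← hss]
    ring
  have hi : ∀ a b, ∑ k, P a k * P k b = P a b := by
    intro a b
    rw [← Matrix.mul_apply, hP.idem]
  have hPv : Matrix.mulVec P v = v := by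
    funext a
    show ∑ k, P a k * v k = v a
    simp_rw [hv, Finset.mul_sum]
    rw [Finset.sum_comm]
    refine Finset.sum_congr rfl fun b _ => ?_
    rw [← hi a b, Finset.sum_mul]
    refine Finset.sum_congr rfl fun k _ => ?_
    ring
  have hvv : dotProduct v v = r := by
    rw [hr]
    rfl
  rw [e1]
  refine ⟨hP.sub (s • v) ?_ ?_, (h.curry y).sub (s • v) ?_⟩
  · rw [Matrix.mulVec_smul, hPv]
  · rw [smul_dotProduct, dotProduct_smul, hvv, smul_eq_mul, smul_eq_mul, ← mul_assoc, hss,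
      inv_mul_cancel₀ hr0]
  · have h2 : ω.curryLeft y = ω.curryLeft (vec v) := mo_lives h y v hv
    have h3 : vec (s • v) = s • vec v := by
      ext i
      rfl
    rw [h2, h3, map_smul, AlternatingMap.curryLeft_same, smul_zero]

private theorem mo_inner {P : Matrix (Fin n) (Fin n) ℝ} {j d : ℕ} (hP : IsPr P (d + j + 1))
    (ih : ∀ (P : Matrix (Fin n) (Fin n) ℝ), IsPr P (d + j) →
      ∀ ω : Form n (j + 1), Lives P ω → ∀ c c' : Fin n,
      ∫ x : Fin j → E n, gP P x x * (ω.curryLeft (e c) x * ω.curryLeft (e c') x) * ga x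
        = Z n ^ j * cM d j * MB ω (e c) (e c'))
    (ω : Form n (j + 2)) (h : Lives P ω) (c c' : Fin n) (y : E n) :
    ∫ x : Fin j → E n, gP P (Fin.cons y x) (Fin.cons y x)
        * (ω.curryLeft (e c) (Fin.cons y x) * ω.curryLeft (e c') (Fin.cons y x)) * ga x
      = Z n ^ j * cM d j * ((∑ a, ∑ b, y a * y b * P a b)
          * (∑ a, ∑ b, y a * y b * Gm ω a c b c')) := by
  have hvec : vec (fun a => y a) = y := by
    ext i
    rfl
  have hG : ∑ a, ∑ b, y a * y b * Gm ω a c b c' = MB (ω.curryLeft y) (e c) (e c') := by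
    rw [Gm_expand ω (fun a => y a) c c', hvec]
  set v : Fin n → ℝ := fun a => ∑ b, P a b * y b with hvdef
  have hv : ∀ a, v a = ∑ b, P a b * y b := fun a => rfl
  rw [mo_quad hP y v hv, hG]
  by_cases hr0 : ∑ a, v a * v a = 0
  · have hv0 : ∀ a, ∑ b, P a b * y b = 0 := by
      intro a
      have h1 := (Finset.sum_eq_zero_iff_of_nonneg fun a _ => mul_self_nonneg (v a)).mp hr0 a
        (Finset.mem_univ a)
      exact mul_self_eq_zero.mp h1
    have h2 : ∀ x : Fin j → E n, gP P (Fin.cons y x) (Fin.cons y x)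
        * (ω.curryLeft (e c) (Fin.cons y x) * ω.curryLeft (e c') (Fin.cons y x)) * ga x = 0 := by
      intro x
      rw [gP_cons_zero hP y hv0 x x, zero_mul, zero_mul]
    simp_rw [h2]
    rw [integral_zero, hr0, zero_mul, mul_zero]
  · obtain ⟨p1, p2⟩ := mo_step hP h y v hv _ rfl hr0
    have h2 : ∀ x : Fin j → E n, gP P (Fin.cons y x) (Fin.cons y x)
        * (ω.curryLeft (e c) (Fin.cons y x) * ω.curryLeft (e c') (Fin.cons y x)) * ga x
        = (∑ a, v a * v a) * (gP (P - (∑ a, v a * v a)⁻¹ • vecMulVec v v) x x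
          * ((ω.curryLeft y).curryLeft (e c) x * (ω.curryLeft y).curryLeft (e c') x) * ga x) := by
      intro x
      rw [gP_cons hP y v hv _ rfl hr0 x x, mo_cons, mo_cons]
      ring
    simp_rw [h2]
    rw [integral_const_mul, ih _ p1 _ p2 c c']
    ring

private theorem mo_outer {P : Matrix (Fin n) (Fin n) ℝ} {N j : ℕ} (hP : IsPr P N)
    (ω : Form n (j + 2)) (h : Lives P ω) (c c' : Fin n) :
    (∑ a, P a a) * (∑ a, Gm ω a c a c') + ∑ a, ∑ b, P a b * (Gm ω a c b c' + Gm ω b c a c')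
      = ((N : ℝ) + 2) * MB ω (e c) (e c') := by
  have hs : ∀ a b, P a b = P b a := fun a b => congrFun (congrFun hP.symm.symm a) b
  have h1 : ∑ a, P a a = (N : ℝ) := hP.trace
  have h2 : ∑ a, Gm ω a c a c' = MB ω (e c) (e c') := by
    rw [MB_apply, ip_succ]
    refine Finset.sum_congr rfl fun a _ => ?_
    unfold Gm
    rw [curry_swap ω (e a) (e c), curry_swap ω (e a) (e c'), ip_neg_left, ip_neg_right, neg_neg]
  have h3 : ∑ a, ∑ b, P a b * Gm ω a c b c' = MB ω (e c) (e c') := by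
    rw [Finset.sum_comm, ← h2]
    exact Finset.sum_congr rfl fun b _ => Gm_absorb h b c b c'
  have h4 : ∑ a, ∑ b, P a b * Gm ω b c a c' = MB ω (e c) (e c') := by
    rw [← h2]
    refine Finset.sum_congr rfl fun a _ => ?_
    rw [← Gm_absorb h a c a c']
    exact Finset.sum_congr rfl fun b _ => by rw [hs a b]
  simp_rw [mul_add, Finset.sum_add_distrib]
  rw [h1, h2, h3, h4]
  ring

/-- Piece MO1 -/
theorem mom1 : ∀ (j d : ℕ) (P : Matrix (Fin n) (Fin n) ℝ), IsPr P (d + j) →
    ∀ ω : Form n (j + 1), Lives P ω → ∀ c c' : Fin n,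
    ∫ x : Fin j → E n, gP P x x * (ω.curryLeft (e c) x * ω.curryLeft (e c') x) * ga x
      = Z n ^ j * cM d j * MB ω (e c) (e c') := by
  intro j
  induction j with
  | zero =>
    intro d P _ ω _ c c'
    rw [mo_zero P ω c c']
    simp [cM]
  | succ j ih =>
    intro d P hP ω h c c'
    have hP' : IsPr P (d + j + 1) := hP
    rw [fub (fun x : Fin (j + 1) → E n => gP P x x * (ω.curryLeft (e c) x * ω.curryLeft (e c') x))
      (int1 P (ω.curryLeft (e c)) (ω.curryLeft (e c')))]
    have h1 : ∀ y : E n, (∫ x : Fin j → E n, gP P (Fin.cons y x) (Fin.cons y x)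
        * (ω.curryLeft (e c) (Fin.cons y x) * ω.curryLeft (e c') (Fin.cons y x)) * ga x)
          * exp (-‖y‖ ^ 2 / 2)
        = (Z n ^ j * cM d j) * ((∑ a, ∑ b, y a * y b * P a b)
          * (∑ a, ∑ b, y a * y b * Gm ω a c b c') * exp (-‖y‖ ^ 2 / 2)) := by
      intro y
      rw [mo_inner hP' (fun P hP ω h c c' => ih d P hP ω h c c') ω h c c' y]
      ring
    simp_rw [h1]
    rw [integral_const_mul, (gauss_mul n (fun a b => P a b) (fun a b => Gm ω a c b c')).2,
      mo_outer hP' ω h c c']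
    have h2 : cM d (j + 1) = cM d j * ((d : ℝ) + j + 3) := by
      unfold cM
      rw [Finset.prod_range_succ]
    rw [h2]
    push_cast
    ring

end Pool.Agent.H21.OE
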